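import Mathlib
import Pool.Agent.TH428.Stk.Sort

/-!
# Sorted words

`Sd` are the words in the image of the stack-sorting map, `G w l M` says that `w` is a nonempty
sorted word with last letter `l` such that `x :: w` is sorted exactly for `x < M`.
-/

set_option autoImplicit false

namespace Pool.Agent.T6.H85.Srtd

open Pool.Agent.TH428.Stk

/-- Words that are postorder readings of decreasing binary plane trees. -/
inductive Sd : List ℕ → Prop
  | nil : Sd []
  | node (α β : List ℕ) (m : ℕ) : Sd α → Sd β → (∀ x ∈ α, x < m) → (∀ x ∈ β, x < m) →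
      Sd (α ++ (β ++ [m]))

/-- `G w l M`: `w` is a nonempty sorted word with last letter `l` and largest available letter
`M`. -/
inductive G : List ℕ → ℕ → ℕ → Prop
  | leaf (m : ℕ) : G [m] m m
  | one (r : List ℕ) (l M m : ℕ) : G r l M → (∀ x ∈ r, x < m) → G (r ++ [m]) m m
  | two (σ β : List ℕ) (l₁ M₁ l₂ M₂ m : ℕ) : G σ l₁ M₁ → G β l₂ M₂ → M₂ ≤ l₁ →
      (∀ x ∈ σ, x < m) → (∀ x ∈ β, x < m) → G (σ ++ (β ++ [m])) m M₁

theorem G.decomp {w : List ℕ} {l M : ℕ} (h : G w l M) :
    ∃ r, w = r ++ [l] ∧ ∀ x ∈ r, x < l := by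
  cases h with
  | leaf => exact ⟨[], rfl, by simp⟩
  | one r l M m h hr => exact ⟨r, rfl, hr⟩
  | two σ β l₁ M₁ l₂ M₂ m h1 h2 h3 h4 h5 =>
    refine ⟨σ ++ β, by simp, ?_⟩
    intro x hx
    rcases List.mem_append.1 hx with h | h
    · exact h4 x h
    · exact h5 x h

theorem G.le_last {w : List ℕ} {l M : ℕ} (h : G w l M) : ∀ x ∈ w, x ≤ l := by
  obtain ⟨r, rfl, hr⟩ := h.decomp
  intro x hx
  rcases List.mem_append.1 hx with h | h
  · exact (hr x h).le
  · simp at h; exact h.le

theorem G.last_mem {w : List ℕ} {l M : ℕ} (h : G w l M) : l ∈ w := by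
  obtain ⟨r, rfl, hr⟩ := h.decomp
  simp

theorem G.ne_nil {w : List ℕ} {l M : ℕ} (h : G w l M) : w ≠ [] := by
  obtain ⟨r, rfl, hr⟩ := h.decomp
  simp

theorem G.M_mem {w : List ℕ} {l M : ℕ} (h : G w l M) : M ∈ w := by
  induction h with
  | leaf => simp
  | one r l M m h hr ih => simp
  | two σ β l₁ M₁ l₂ M₂ m h1 h2 h3 h4 h5 ih1 ih2 => simp [ih1]

theorem G.sd {w : List ℕ} {l M : ℕ} (h : G w l M) : Sd w := by
  induction h with
  | leaf m => exact Sd.node [] [] m Sd.nil Sd.nil (by simp) (by simp)
  | one r l M m h hr ih => exact Sd.node [] r m Sd.nil ih (by simp) hr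
  | two σ β l₁ M₁ l₂ M₂ m h1 h2 h3 h4 h5 ih1 ih2 => exact Sd.node σ β m ih1 ih2 h4 h5

/-- The main gluing lemma. -/
theorem G.glue {β : List ℕ} {lβ Mβ : ℕ} (hβ : G β lβ Mβ) :
    ∀ {γ : List ℕ} {lγ Mγ : ℕ}, G γ lγ Mγ → lγ < Mβ →
      ∃ M', G (γ ++ β) lβ M' ∧ (M' = Mβ ∨ M' = Mγ) := by
  induction hβ with
  | leaf m =>
    intro γ lγ Mγ hγ hlt
    refine ⟨m, G.one γ lγ Mγ m hγ ?_, Or.inl rfl⟩
    intro x hx
    exact lt_of_le_of_lt (hγ.le_last x hx) hlt
  | one r l M m h hr ih =>
    intro γ lγ Mγ hγ hlt
    have hγm : ∀ x ∈ γ, x < m := fun x hx => lt_of_le_of_lt (hγ.le_last x hx) hlt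
    by_cases hc : lγ < M
    · obtain ⟨M', hM', -⟩ := ih hγ hc
      refine ⟨m, ?_, Or.inl rfl⟩
      rw [← List.append_assoc]
      refine G.one (γ ++ r) l M' m hM' ?_
      intro x hx
      rcases List.mem_append.1 hx with h' | h'
      · exact hγm x h'
      · exact hr x h'
    · refine ⟨Mγ, G.two γ r lγ Mγ l M m hγ h (not_lt.1 hc) hγm hr, Or.inr rfl⟩
  | two σ β l₁ M₁ l₂ M₂ m h1 h2 h3 h4 h5 ih1 ih2 =>
    intro γ lγ Mγ hγ hlt
    obtain ⟨M', hM', hor⟩ := ih1 hγ hlt
    refine ⟨M', ?_, hor⟩
    rw [← List.append_assoc]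
    refine G.two (γ ++ σ) β l₁ M' l₂ M₂ m hM' h2 h3 ?_ h5
    intro x hx
    rcases List.mem_append.1 hx with h' | h'
    · exact lt_of_le_of_lt (hγ.le_last x h') (hlt.trans (h4 _ h1.M_mem))
    · exact h4 x h'

/-- Every nonempty sorted word has a largest available letter. -/
theorem Sd.exists_G {w : List ℕ} (h : Sd w) : w ≠ [] → ∃ l M, G w l M := by
  induction h with
  | nil => intro h; exact absurd rfl h
  | node α β m hα hβ h1 h2 ihα ihβ =>
    intro _
    by_cases hα0 : α = []
    · subst hα0
      by_cases hβ0 : β = []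
      · subst hβ0
        exact ⟨m, m, G.leaf m⟩
      · obtain ⟨l, M, hG⟩ := ihβ hβ0
        exact ⟨m, m, G.one β l M m hG h2⟩
    · obtain ⟨lα, Mα, hGα⟩ := ihα hα0
      by_cases hβ0 : β = []
      · subst hβ0
        exact ⟨m, m, G.one α lα Mα m hGα h1⟩
      · obtain ⟨lβ, Mβ, hGβ⟩ := ihβ hβ0
        by_cases hc : lα < Mβ
        · obtain ⟨M', hM', -⟩ := hGβ.glue hGα hc
          refine ⟨m, m, ?_⟩
          rw [← List.append_assoc]
          refine G.one (α ++ β) lβ M' m hM' ?_
          intro x hx
          rcases List.mem_append.1 hx with h' | h'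
          · exact h1 x h'
          · exact h2 x h'
        · exact ⟨m, Mα, G.two α β lα Mα lβ Mβ m hGα hGβ (not_lt.1 hc) h1 h2⟩

/-- Inversion: a sorted word ending in `m`. -/
theorem Sd.inv {r : List ℕ} {m : ℕ} (h : Sd (r ++ [m])) :
    ∃ α β, r = α ++ β ∧ Sd α ∧ Sd β ∧ (∀ x ∈ α, x < m) ∧ (∀ x ∈ β, x < m) := by
  generalize hw : r ++ [m] = w at h
  cases h with
  | nil => simp at hw
  | node α β m' hα hβ h1 h2 =>
    rw [← List.append_assoc] at hw
    have := List.append_inj' hw rfl
    obtain ⟨e1, e2⟩ := this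
    simp at e2
    subst e2
    exact ⟨α, β, e1, hα, hβ, h1, h2⟩

/-- Suffixes of sorted words are sorted. -/
theorem Sd.suffix {w : List ℕ} (h : Sd w) : ∀ {u v : List ℕ}, w = u ++ v → Sd v := by
  induction h with
  | nil =>
    intro u v h
    have := (List.append_eq_nil_iff.1 h.symm).2
    rw [this]; exact Sd.nil
  | node α β m hα hβ h1 h2 ihα ihβ =>
    intro u v h
    rw [List.append_eq_append_iff] at h
    rcases h with ⟨c, hc1, hc2⟩ | ⟨c, hc1, hc2⟩
    · -- u = α ++ c, β ++ [m] = c ++ v
      rw [List.append_eq_append_iff] at hc2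
      rcases hc2 with ⟨d, hd1, hd2⟩ | ⟨d, hd1, hd2⟩
      · -- c = β ++ d, [m] = d ++ v
        cases d with
        | nil =>
          simp at hd2
          subst hd2
          exact Sd.node [] [] m Sd.nil Sd.nil (by simp) (by simp)
        | cons e d =>
          simp at hd2
          rw [hd2.2.2]; exact Sd.nil
      · -- β = c ++ d, v = d ++ [m]
        rw [hd2]
        exact Sd.node [] d m Sd.nil (ihβ hd1) (by simp)
          (fun x hx => h2 x (by rw [hd1]; exact List.mem_append_right _ hx))
    · -- α = u ++ c, v = c ++ (β ++ [m])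
      rw [hc2]
      exact Sd.node c β m (ihα hc1) hβ
        (fun x hx => h1 x (by rw [hc1]; exact List.mem_append_right _ hx)) h2

theorem Sd.of_append {u v : List ℕ} (h : Sd (u ++ v)) : Sd v := h.suffix rfl

theorem Sd.singleton (x : ℕ) : Sd [x] := (G.leaf x).sd

/-- The converse of gluing with one letter. -/
theorem G.lt_of_cons {n : ℕ} : ∀ {β : List ℕ}, β.length ≤ n → ∀ {l M x : ℕ}, G β l M →
    Sd (x :: β) → x < M := by
  induction n with
  | zero =>
    intro β hn l M x hG _
    exact absurd (List.length_eq_zero_iff.1 (Nat.le_zero.1 hn)) hG.ne_nil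
  | succ n ih =>
    intro β hn l M x hG hS
    cases hG with
    | leaf m =>
      have : Sd ([x] ++ [l]) := hS
      obtain ⟨α, β, h1, -, -, h4, h5⟩ := this.inv
      have : x ∈ α ++ β := by rw [← h1]; simp
      rcases List.mem_append.1 this with h | h
      · exact h4 x h
      · exact h5 x h
    | one r l' M' m h hr =>
      have : Sd ((x :: r) ++ [l]) := hS
      obtain ⟨α, β, h1, -, -, h4, h5⟩ := this.inv
      have : x ∈ α ++ β := by rw [← h1]; simp
      rcases List.mem_append.1 this with h | h
      · exact h4 x h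
      · exact h5 x h
    | two σ β₀ l₁ M₁ l₂ M₂ m h1 h2 h3 h4 h5 =>
      have hlen : σ.length ≤ n ∧ β₀.length ≤ n := by
        simp only [List.length_append, List.length_cons, List.length_nil] at hn
        have := h1.ne_nil
        have := List.length_pos_iff.2 this
        constructor <;> omega
      have hS' : Sd ((x :: (σ ++ β₀)) ++ [l]) := by
        have e : x :: (σ ++ (β₀ ++ [l])) = (x :: (σ ++ β₀)) ++ [l] := by simp
        rw [← e]; exact hS
      obtain ⟨α', β', e1, hα', hβ', hα'm, hβ'm⟩ := hS'.inv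
      have e2 : (x :: σ) ++ β₀ = α' ++ β' := by rw [← e1]; simp
      obtain ⟨s, hs, hsl⟩ := h1.decomp
      rw [List.append_eq_append_iff] at e2
      have key : ∀ _ : ℕ, Sd (l₁ :: β₀) → False := by
        intro _ hh
        have := ih hlen.2 h2 hh
        omega
      rcases e2 with ⟨c, hc1, hc2⟩ | ⟨c, hc1, hc2⟩
      · -- α' = (x :: σ) ++ c, β₀ = c ++ β'
        by_cases hc0 : c = []
        · subst hc0
          simp at hc1
          rw [hc1] at hα'
          exact ih hlen.1 h1 hα'
        · exfalso
          have hcS : Sd c := by rw [hc1] at hα'; exact hα'.of_append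
          have hlc : Sd (l₁ :: c) := by
            rw [hc1, hs] at hα'
            have e : x :: (s ++ [l₁]) ++ c = (x :: s) ++ (l₁ :: c) := by simp
            rw [e] at hα'
            exact hα'.of_append
          by_cases hb0 : β' = []
          · subst hb0
            simp at hc2
            rw [← hc2] at hlc
            exact key 0 hlc
          · obtain ⟨lc, Mc, hGc⟩ := hcS.exists_G hc0
            obtain ⟨lb, Mb, hGb⟩ := hβ'.exists_G hb0
            have hlen2 : c.length ≤ n ∧ β'.length ≤ n := by
              have := congrArg List.length hc2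
              simp only [List.length_append] at this
              omega
            have g1 : l₁ < Mc := ih hlen2.1 hGc hlc
            have g2 : lc < Mb := by
              apply ih hlen2.2 hGb
              obtain ⟨t, ht, -⟩ := hGc.decomp
              have : Sd (t ++ (lc :: β')) := by
                have e : t ++ (lc :: β') = c ++ β' := by rw [ht]; simp
                rw [e, ← hc2]; exact h2.sd
              exact this.of_append
            obtain ⟨M', hM', hor⟩ := hGb.glue hGc g2
            have g3 : l₁ < M' := by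
              rcases hor with h | h
              · rw [h]
                have : l₁ ≤ lc := by
                  obtain ⟨lc', Mc', hG'⟩ := hlc.exists_G (by simp)
                  have h6 : l₁ ≤ lc' := hG'.le_last _ (by simp)
                  obtain ⟨t', ht', -⟩ := hG'.decomp
                  obtain ⟨t, ht, -⟩ := hGc.decomp
                  have : lc' = lc := by
                    have e : (l₁ :: t) ++ [lc] = t' ++ [lc'] := by rw [← ht', ht]; simp
                    have := List.append_inj' e rfl
                    simpa using this.2.symm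
                  omega
                omega
              · rw [h]; exact g1
            have g4 : ∃ M'', G ([l₁] ++ (c ++ β')) lb M'' ∧ (M'' = M' ∨ M'' = l₁) :=
              hM'.glue (G.leaf l₁) g3
            obtain ⟨M'', hM'', -⟩ := g4
            apply key 0
            rw [hc2]
            exact hM''.sd
      · -- x :: σ = α' ++ c, β' = c ++ β₀
        by_cases hc0 : c = []
        · subst hc0
          simp at hc1
          rw [← hc1] at hα'
          exact ih hlen.1 h1 hα'
        · exfalso
          apply key 0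
          obtain ⟨c', hc'⟩ : ∃ c', c = c' ++ [l₁] := by
            rw [hs] at hc1
            have e : (x :: s) ++ [l₁] = α' ++ c := by rw [← hc1]; simp
            rw [List.append_eq_append_iff] at e
            rcases e with ⟨d, hd1, hd2⟩ | ⟨d, hd1, hd2⟩
            · cases d with
              | nil => exact ⟨[], by simpa using hd2.symm⟩
              | cons y d =>
                simp at hd2
                exact absurd hd2.2.2 hc0
            · exact ⟨d, hd2⟩
          rw [hc2, hc'] at hβ'
          have e : c' ++ [l₁] ++ β₀ = c' ++ (l₁ :: β₀) := by simp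
          rw [e] at hβ'
          exact hβ'.of_append

theorem G.cons_iff {β : List ℕ} {l M x : ℕ} (h : G β l M) : Sd (x :: β) ↔ x < M := by
  constructor
  · exact fun hS => G.lt_of_cons le_rfl h hS
  · intro hx
    obtain ⟨M', hM', -⟩ := h.glue (G.leaf x) hx
    exact hM'.sd

/-- gluing criterion for two sorted words -/
theorem G.append_iff {β γ : List ℕ} {l M l' M' : ℕ} (h : G β l M) (h' : G γ l' M') :
    Sd (γ ++ β) ↔ l' < M := by
  constructor
  · intro hS
    obtain ⟨t, ht, -⟩ := h'.decomp
    rw [← h.cons_iff]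
    have e : γ ++ β = t ++ (l' :: β) := by rw [ht]; simp
    rw [e] at hS
    exact hS.of_append
  · intro hx
    obtain ⟨M'', hM'', -⟩ := h.glue h' hx
    exact hM''.sd

/-- Sorted words without repetition are exactly the outputs of the stack-sorting map. -/
theorem sd_srt : ∀ {w : List ℕ}, w.Nodup → Sd (srt w) := by
  intro w hw
  refine maxInd (P := fun w => Sd (srt w)) (by simpa using Sd.nil) ?_ w hw
  intro L m R hn hL hR ihL ihR
  rw [srt_split hL hR, List.append_assoc]
  exact Sd.node _ _ m ihL ihR (fun x hx => hL x (mem_srt.1 hx)) (fun x hx => hR x (mem_srt.1 hx))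

theorem Sd.exists_srt {w : List ℕ} (h : Sd w) : ∃ π, srt π = w := by
  induction h with
  | nil => exact ⟨[], by simp⟩
  | node α β m hα hβ h1 h2 ihα ihβ =>
    obtain ⟨p, hp⟩ := ihα
    obtain ⟨q, hq⟩ := ihβ
    refine ⟨p ++ m :: q, ?_⟩
    rw [srt_split, hp, hq, List.append_assoc]
    · intro x hx; exact h1 x (by rw [← hp]; exact mem_srt.2 hx)
    · intro x hx; exact h2 x (by rw [← hq]; exact mem_srt.2 hx)

end Pool.Agent.T6.H85.Srtd
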