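import Mathlib
import Pool.Agent.T6.H85.Srtd.Comb
import Pool.Agent.H409R2.Stk.T2

/-!
# The triangular recurrence for the number of sorted permutations
-/

set_option autoImplicit false

namespace Pool.Agent.T6.H85.Srtd

open Finset Pool.Agent.TH428.Stk Pool.Agent.H44R2.Stk Pool.Agent.H409R2.Stk
open scoped Classical

/-- Words without repetition with letters in `S`. -/
noncomputable def U (S : Finset ℕ) : Finset (List ℕ) := S.powerset.biUnion wds

theorem mem_U {S : Finset ℕ} {w : List ℕ} : w ∈ U S ↔ w.Nodup ∧ ∀ x ∈ w, x ∈ S := by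
  unfold U
  rw [Finset.mem_biUnion]
  constructor
  · rintro ⟨T, hT, hw⟩
    rw [mem_wds] at hw
    rw [Finset.mem_powerset] at hT
    refine ⟨hw.1, fun x hx => hT ?_⟩
    rw [← hw.2]; simpa using hx
  · rintro ⟨h1, h2⟩
    refine ⟨w.toFinset, ?_, ?_⟩
    · rw [Finset.mem_powerset]
      intro x hx
      exact h2 x (by simpa using hx)
    · rw [mem_wds]; exact ⟨h1, rfl⟩

/-- Numbers of chains of `k` nonempty sorted words. -/
noncomputable def X : ℕ → Finset ℕ → ℕ
  | 0, S => if S = ∅ then 1 else 0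
  | (k + 1), S => ∑ σ ∈ U S, if (σ ≠ [] ∧ Sd σ ∧ ∀ x ∈ S \ σ.toFinset, Sd (x :: σ)) then
      X k (S \ σ.toFinset) else 0

/-- Number of sorted words with letter set `S`. -/
noncomputable def A (S : Finset ℕ) : ℕ := ((wds S).filter Sd).card

theorem sum_U (S : Finset ℕ) (g : Finset ℕ → ℕ) :
    ∑ β ∈ U S, (if Sd β then g (S \ β.toFinset) else 0) = ∑ B ∈ S.powerset, A B * g (S \ B) := by
  unfold U
  rw [Finset.sum_biUnion]
  · refine Finset.sum_congr rfl fun B _ => ?_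
    unfold A
    rw [Finset.card_filter, Finset.sum_mul]
    refine Finset.sum_congr rfl fun β hβ => ?_
    rw [mem_wds] at hβ
    rw [hβ.2]
    split_ifs <;> simp
  · intro B _ B' _ hne
    rw [Function.onFun, Finset.disjoint_left]
    intro w hw hw'
    rw [mem_wds] at hw hw'
    exact hne (hw.2.symm.trans hw'.2)

theorem X_one (S : Finset ℕ) (hS : S ≠ ∅) : X 1 S = A S := by
  have h0 : X 1 S = ∑ σ ∈ U S, (if Sd σ then (if S \ σ.toFinset = ∅ then 1 else 0) else 0) := by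
    unfold X
    refine Finset.sum_congr rfl fun σ hσ => ?_
    rw [mem_U] at hσ
    by_cases h1 : S \ σ.toFinset = ∅
    · have h2 : σ ≠ [] := by
        rintro rfl
        apply hS
        simpa using h1
      have h3 : X 0 (S \ σ.toFinset) = 1 := by unfold X; rw [if_pos h1]
      rw [h3]
      by_cases h4 : Sd σ
      · rw [if_pos, if_pos h4, if_pos h1]
        refine ⟨h2, h4, ?_⟩
        rw [h1]; simp
      · rw [if_neg (fun h => h4 h.2.1), if_neg h4]
    · have h3 : X 0 (S \ σ.toFinset) = 0 := by unfold X; rw [if_neg h1]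
      rw [h3]
      simp [h1]
  rw [h0, sum_U S (fun T => if T = ∅ then 1 else 0)]
  rw [Finset.sum_eq_single S]
  · simp
  · intro B hB hne
    rw [Finset.mem_powerset] at hB
    have : S \ B ≠ ∅ := by
      intro h
      rw [Finset.sdiff_eq_empty_iff_subset] at h
      exact hne (Finset.Subset.antisymm hB h)
    simp [this]
  · intro h; exact absurd (Finset.mem_powerset_self S) h

theorem sdiff_append (S : Finset ℕ) (σ β : List ℕ) :
    S \ (σ ++ β).toFinset = (S \ β.toFinset) \ σ.toFinset := by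
  ext x; simp; tauto

theorem X_insert (k : ℕ) (S : Finset ℕ) (m : ℕ) (hm : ∀ x ∈ S, x < m) :
    X (k + 1) (insert m S) = ∑ ρ ∈ U S, if (Sd (ρ ++ [m]) ∧
      ∀ x ∈ S \ ρ.toFinset, Sd (x :: (ρ ++ [m]))) then X k (S \ ρ.toFinset) else 0 := by
  have hmS : m ∉ S := fun h => lt_irrefl _ (hm m h)
  conv_lhs => unfold X
  symm
  rw [← Finset.sum_filter, ← Finset.sum_filter]
  refine Finset.sum_bij (fun ρ _ => ρ ++ [m]) ?_ ?_ ?_ ?_
  · intro ρ hρ
    rw [Finset.mem_filter, mem_U] at hρ ⊢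
    obtain ⟨⟨h1, h2⟩, h3, h4⟩ := hρ
    refine ⟨⟨?_, ?_⟩, by simp, h3, ?_⟩
    · rw [List.nodup_append]
      refine ⟨h1, by simp, ?_⟩
      intro a ha b hb
      simp at hb
      subst hb
      rintro rfl
      exact hmS (h2 a ha)
    · intro x hx
      rcases List.mem_append.1 hx with h | h
      · exact Finset.mem_insert_of_mem (h2 x h)
      · simp at h; subst h; exact Finset.mem_insert_self _ _
    · intro x hx
      apply h4
      simp only [Finset.mem_sdiff, Finset.mem_insert, List.mem_toFinset, List.mem_append,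
        List.mem_singleton] at hx ⊢
      tauto
  · intro ρ _ ρ' _ h
    exact List.append_cancel_right h
  · intro σ hσ
    rw [Finset.mem_filter, mem_U] at hσ
    obtain ⟨⟨h1, h2⟩, h3, h4, h5⟩ := hσ
    obtain ⟨l, M, hG⟩ := h4.exists_G h3
    have hmσ : m ∈ σ := by
      by_contra hc
      have h6 : Sd (m :: σ) := h5 m (by simp [hc])
      rw [hG.cons_iff] at h6
      have h7 := h2 M hG.M_mem
      rw [Finset.mem_insert] at h7
      rcases h7 with h | h
      · omega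
      · have := hm M h; omega
    have hlm : l = m := by
      have h8 := hG.le_last m hmσ
      have h9 := h2 l hG.last_mem
      rw [Finset.mem_insert] at h9
      rcases h9 with h | h
      · exact h
      · have := hm l h; omega
    subst hlm
    obtain ⟨r, hr, hrl⟩ := hG.decomp
    refine ⟨r, ?_, hr.symm⟩
    rw [Finset.mem_filter, mem_U]
    have hrm : ∀ x ∈ r, x ∈ S := by
      intro x hx
      have := h2 x (by rw [hr]; simp [hx])
      rw [Finset.mem_insert] at this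
      rcases this with h | h
      · exact absurd (hrl x hx) (by omega)
      · exact h
    refine ⟨⟨?_, hrm⟩, ?_, ?_⟩
    · rw [hr, List.nodup_append] at h1
      exact h1.1
    · rw [← hr]; exact h4
    · intro x hx
      rw [← hr]
      apply h5
      rw [hr]
      simp only [Finset.mem_sdiff, Finset.mem_insert, List.mem_toFinset, List.mem_append,
        List.mem_singleton] at hx ⊢
      refine ⟨Or.inr hx.1, ?_⟩
      rintro (h | h)
      · exact hx.2 h
      · subst h; exact hmS hx.1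
  · intro ρ hρ
    congr 1
    ext x
    simp only [Finset.mem_sdiff, Finset.mem_insert, List.mem_toFinset, List.mem_append,
      List.mem_singleton]
    constructor
    · rintro ⟨h1, h2⟩
      refine ⟨Or.inr h1, ?_⟩
      rintro (h | h)
      · exact h2 h
      · subst h; exact hmS h1
    · rintro ⟨h1, h2⟩
      push Not at h2
      rcases h1 with h | h
      · exact absurd h h2.2
      · exact ⟨h, h2.1⟩

/-- The pairs of type two. -/
theorem sum_two (k : ℕ) (S : Finset ℕ) (m : ℕ) (hm : ∀ x ∈ S, x < m) :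
    ∑ ρ ∈ U S, (if (¬ Sd ρ ∧ Sd (ρ ++ [m]) ∧ ∀ x ∈ S \ ρ.toFinset, Sd (x :: (ρ ++ [m]))) then
        X k (S \ ρ.toFinset) else 0) =
    ∑ β ∈ U S, ∑ σ ∈ U (S \ β.toFinset), if ((β ≠ [] ∧ Sd β) ∧ ¬ Sd (σ ++ β) ∧ σ ≠ [] ∧ Sd σ ∧
      ∀ x ∈ (S \ β.toFinset) \ σ.toFinset, Sd (x :: σ)) then X k ((S \ β.toFinset) \ σ.toFinset)
      else 0 := by
  symm
  rw [Finset.sum_sigma', ← Finset.sum_filter, ← Finset.sum_filter]
  refine Finset.sum_bij (fun p _ => p.2 ++ p.1) ?_ ?_ ?_ ?_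
  · rintro ⟨β, σ⟩ hp
    simp only [Finset.mem_filter, Finset.mem_sigma, mem_U] at hp ⊢
    obtain ⟨⟨⟨h1, h2⟩, h3, h4⟩, ⟨h5, h6⟩, h7, h8, h9, h10⟩ := hp
    have hσS : ∀ x ∈ σ, x ∈ S := fun x hx => (Finset.mem_sdiff.1 (h4 x hx)).1
    have hσm : ∀ x ∈ σ, x < m := fun x hx => hm x (hσS x hx)
    have hβm : ∀ x ∈ β, x < m := fun x hx => hm x (h2 x hx)
    refine ⟨⟨?_, ?_⟩, h7, ?_, ?_⟩
    · rw [List.nodup_append]
      refine ⟨h3, h1, ?_⟩
      intro a ha b hb hab
      subst hab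
      exact (Finset.mem_sdiff.1 (h4 a ha)).2 (by simpa using hb)
    · intro x hx
      rcases List.mem_append.1 hx with h | h
      · exact hσS x h
      · exact h2 x h
    · rw [List.append_assoc]
      exact Sd.node σ β m h9 h6 hσm hβm
    · intro x hx
      rw [sdiff_append] at hx
      have hx' := h10 x hx
      have e : x :: ((σ ++ β) ++ [m]) = (x :: σ) ++ (β ++ [m]) := by simp
      rw [e]
      refine Sd.node (x :: σ) β m hx' h6 ?_ hβm
      intro y hy
      rcases List.mem_cons.1 hy with h | h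
      · subst h
        exact hm y (Finset.mem_sdiff.1 (Finset.mem_sdiff.1 hx).1).1
      · exact hσm y h
  · rintro ⟨β₁, σ₁⟩ hp ⟨β₂, σ₂⟩ hq heq
    simp only [Finset.mem_filter, Finset.mem_sigma, mem_U] at hp hq heq
    obtain ⟨⟨⟨h1, h2⟩, h3, h4⟩, ⟨h5, h6⟩, h7, h8, h9, h10⟩ := hp
    obtain ⟨⟨⟨k1, k2⟩, k3, k4⟩, ⟨k5, k6⟩, k7, k8, k9, k10⟩ := hq
    have aux : ∀ (β₁ σ₁ β₂ σ₂ c : List ℕ), Sd β₁ → β₁ ≠ [] → Sd σ₁ → σ₁ ≠ [] → Sd β₂ →
        ¬ Sd (σ₁ ++ β₁) → σ₁ = σ₂ ++ c → β₂ = c ++ β₁ → c = [] := by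
      intro β₁ σ₁ β₂ σ₂ c g1 g2 g3 g4 g5 g6 g7 g8
      by_contra hc
      obtain ⟨l, M, hG⟩ := g1.exists_G g2
      obtain ⟨l', M', hG'⟩ := g3.exists_G g4
      apply g6
      rw [hG.append_iff hG', ← hG.cons_iff]
      obtain ⟨c', hc'⟩ : ∃ c', c = c' ++ [l'] := by
        obtain ⟨s, hs, -⟩ := hG'.decomp
        rw [hs] at g7
        rw [List.append_eq_append_iff] at g7
        rcases g7 with ⟨d, hd1, hd2⟩ | ⟨d, hd1, hd2⟩
        · cases d with
          | nil => exact ⟨[], by simpa using hd2.symm⟩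
          | cons y d =>
            simp at hd2
            exact absurd hd2.2.2 hc
        · exact ⟨d, hd2⟩
      rw [g8, hc'] at g5
      have e : c' ++ [l'] ++ β₁ = c' ++ (l' :: β₁) := by simp
      rw [e] at g5
      exact g5.of_append
    have heq' := heq
    rw [List.append_eq_append_iff] at heq
    rcases heq with ⟨c, hc1, hc2⟩ | ⟨c, hc1, hc2⟩
    · have : c = [] := aux β₂ σ₂ β₁ σ₁ c k6 k5 k9 k8 h6 k7 hc1 hc2
      subst this
      simp at hc1 hc2
      subst hc1; subst hc2; rfl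
    · have : c = [] := aux β₁ σ₁ β₂ σ₂ c h6 h5 h9 h8 k6 h7 hc1 hc2
      subst this
      simp at hc1 hc2
      subst hc1; subst hc2; rfl
  · intro ρ hρ
    simp only [Finset.mem_filter, mem_U] at hρ
    obtain ⟨⟨h1, h2⟩, h3, h4, h5⟩ := hρ
    obtain ⟨α, β, e, hα, hβ, hαm, hβm⟩ := h4.inv
    subst e
    have hα0 : α ≠ [] := by
      rintro rfl
      exact h3 (by simpa using hβ)
    have hβ0 : β ≠ [] := by
      rintro rfl
      exact h3 (by simpa using hα)
    rw [List.nodup_append] at h1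
    refine ⟨⟨β, α⟩, ?_, rfl⟩
    simp only [Finset.mem_filter, Finset.mem_sigma, mem_U]
    refine ⟨⟨⟨h1.2.1, fun x hx => h2 x (List.mem_append_right _ hx)⟩, h1.1, ?_⟩,
      ⟨hβ0, hβ⟩, h3, hα0, hα, ?_⟩
    · intro x hx
      rw [Finset.mem_sdiff]
      refine ⟨h2 x (List.mem_append_left _ hx), ?_⟩
      intro h
      exact h1.2.2 x hx x (by simpa using h) rfl
    · intro x hx
      obtain ⟨l₁, M₁, hG₁⟩ := hα.exists_G hα0
      obtain ⟨l₂, M₂, hG₂⟩ := hβ.exists_G hβ0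
      have hle : M₂ ≤ l₁ := by
        by_contra hc
        exact h3 ((hG₂.append_iff hG₁).2 (not_le.1 hc))
      have hG := G.two α β l₁ M₁ l₂ M₂ m hG₁ hG₂ hle hαm hβm
      rw [hG₁.cons_iff, ← hG.cons_iff, ← List.append_assoc]
      apply h5
      rw [sdiff_append]; exact hx
  · rintro ⟨β, σ⟩ hp
    rw [sdiff_append]

/-- The inner sum. -/
theorem sum_inner (k : ℕ) (S : Finset ℕ) (β : List ℕ) (hβ0 : β ≠ []) (hβS : Sd β) :
    ∑ σ ∈ U (S \ β.toFinset), (if (Sd (σ ++ β) ∧ σ ≠ [] ∧ Sd σ ∧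
      ∀ x ∈ (S \ β.toFinset) \ σ.toFinset, Sd (x :: σ)) then X k ((S \ β.toFinset) \ σ.toFinset)
      else 0) = if (∀ x ∈ S \ β.toFinset, Sd (x :: β)) then X (k + 1) (S \ β.toFinset) else 0 := by
  obtain ⟨l, M, hG⟩ := hβS.exists_G hβ0
  by_cases hc : ∀ x ∈ S \ β.toFinset, Sd (x :: β)
  · rw [if_pos hc]
    conv_rhs => unfold X
    refine Finset.sum_congr rfl fun σ hσ => ?_
    rw [mem_U] at hσ
    by_cases h1 : σ ≠ [] ∧ Sd σ ∧ ∀ x ∈ (S \ β.toFinset) \ σ.toFinset, Sd (x :: σ)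
    · rw [if_pos h1, if_pos]
      refine ⟨?_, h1⟩
      obtain ⟨l', M', hG'⟩ := h1.2.1.exists_G h1.1
      rw [hG.append_iff hG', ← hG.cons_iff]
      exact hc l' (hσ.2 l' hG'.last_mem)
    · rw [if_neg h1, if_neg (fun h => h1 h.2)]
  · rw [if_neg hc]
    refine Finset.sum_eq_zero fun σ hσ => ?_
    rw [if_neg]
    rintro ⟨h1, h2, h3, h4⟩
    apply hc
    obtain ⟨l', M', hG'⟩ := h3.exists_G h2
    rw [hG.append_iff hG'] at h1
    intro x hx
    rw [hG.cons_iff]
    by_cases h5 : x ∈ σ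
    · exact lt_of_le_of_lt (hG'.le_last x h5) h1
    · have h6 := h4 x (by rw [Finset.mem_sdiff]; exact ⟨hx, by simpa using h5⟩)
      rw [hG'.cons_iff] at h6
      have := hG'.le_last M' hG'.M_mem
      omega

theorem X_rec (k : ℕ) (S : Finset ℕ) (m : ℕ) (hm : ∀ x ∈ S, x < m) :
    X (k + 1) (insert m S) + X (k + 1) S + X (k + 2) S =
      ∑ B ∈ S.powerset, A B * X k (S \ B) + ∑ B ∈ S.powerset, A B * X (k + 1) (S \ B) := by
  rw [← sum_U S (X k), ← sum_U S (X (k + 1)), X_insert k S m hm]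
  have h1 : ∀ ρ ∈ U S, (if (Sd (ρ ++ [m]) ∧
      ∀ x ∈ S \ ρ.toFinset, Sd (x :: (ρ ++ [m]))) then X k (S \ ρ.toFinset) else 0) =
      (if Sd ρ then X k (S \ ρ.toFinset) else 0) +
      (if (¬ Sd ρ ∧ Sd (ρ ++ [m]) ∧ ∀ x ∈ S \ ρ.toFinset, Sd (x :: (ρ ++ [m]))) then
        X k (S \ ρ.toFinset) else 0) := by
    intro ρ hρ
    rw [mem_U] at hρ
    by_cases h : Sd ρ
    · have hA : Sd (ρ ++ [m]) ∧ ∀ x ∈ S \ ρ.toFinset, Sd (x :: (ρ ++ [m])) := by
        constructor
        · exact Sd.node [] ρ m Sd.nil h (by simp) (fun x hx => hm x (hρ.2 x hx))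
        · intro x hx
          refine Sd.node [x] ρ m (Sd.singleton x) h ?_ (fun x hx => hm x (hρ.2 x hx))
          intro y hy
          simp at hy
          subst hy
          exact hm y (Finset.mem_sdiff.1 hx).1
      have hB : ¬ (¬ Sd ρ ∧ Sd (ρ ++ [m]) ∧ ∀ x ∈ S \ ρ.toFinset, Sd (x :: (ρ ++ [m]))) :=
        fun h' => h'.1 h
      rw [if_pos hA, if_pos h, if_neg hB, add_zero]
    · rw [if_neg h, zero_add]
      by_cases h' : (Sd (ρ ++ [m]) ∧ ∀ x ∈ S \ ρ.toFinset, Sd (x :: (ρ ++ [m])))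
      · rw [if_pos h', if_pos ⟨h, h'⟩]
      · rw [if_neg h', if_neg (fun h'' => h' h''.2)]
  rw [Finset.sum_congr rfl h1, Finset.sum_add_distrib, sum_two k S m hm]
  have h2 : ∑ β ∈ U S, (if Sd β then X (k + 1) (S \ β.toFinset) else 0) =
      X (k + 1) S + ∑ β ∈ U S, (if (β ≠ [] ∧ Sd β) then X (k + 1) (S \ β.toFinset) else 0) := by
    have h3 : X (k + 1) S = ∑ β ∈ U S, (if β = [] then X (k + 1) S else 0) := by
      rw [Finset.sum_ite_eq' (U S) [] (fun _ => X (k + 1) S), if_pos]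
      rw [mem_U]; simp
    conv_rhs => rw [h3]
    rw [← Finset.sum_add_distrib]
    refine Finset.sum_congr rfl fun β _ => ?_
    by_cases h4 : β = []
    · subst h4
      simp [Sd.nil]
    · simp [h4]
  have h5 : ∀ β ∈ U S, (if (β ≠ [] ∧ Sd β) then X (k + 1) (S \ β.toFinset) else 0) =
      (∑ σ ∈ U (S \ β.toFinset), if ((β ≠ [] ∧ Sd β) ∧ ¬ Sd (σ ++ β) ∧ σ ≠ [] ∧ Sd σ ∧
      ∀ x ∈ (S \ β.toFinset) \ σ.toFinset, Sd (x :: σ)) then X k ((S \ β.toFinset) \ σ.toFinset)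
      else 0) + (if (β ≠ [] ∧ Sd β ∧ ∀ x ∈ S \ β.toFinset, Sd (x :: β)) then
        X (k + 1) (S \ β.toFinset) else 0) := by
    intro β _
    by_cases h6 : β ≠ [] ∧ Sd β
    · rw [if_pos h6]
      have h7 : (if (β ≠ [] ∧ Sd β ∧ ∀ x ∈ S \ β.toFinset, Sd (x :: β)) then
        X (k + 1) (S \ β.toFinset) else 0) = if (∀ x ∈ S \ β.toFinset, Sd (x :: β)) then
          X (k + 1) (S \ β.toFinset) else 0 := by
        by_cases h8 : ∀ x ∈ S \ β.toFinset, Sd (x :: β)
        · rw [if_pos h8, if_pos ⟨h6.1, h6.2, h8⟩]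
        · rw [if_neg h8, if_neg (fun h => h8 h.2.2)]
      rw [h7, ← sum_inner k S β h6.1 h6.2, ← Finset.sum_add_distrib]
      conv_lhs => unfold X
      refine Finset.sum_congr rfl fun σ _ => ?_
      by_cases h8 : σ ≠ [] ∧ Sd σ ∧ ∀ x ∈ (S \ β.toFinset) \ σ.toFinset, Sd (x :: σ)
      · by_cases h9 : Sd (σ ++ β)
        · rw [if_pos h8, if_neg (fun h => h.2.1 h9), if_pos ⟨h9, h8⟩, zero_add]
        · rw [if_pos h8, if_pos ⟨h6, h9, h8⟩, if_neg (fun h => h9 h.1), add_zero]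
      · rw [if_neg h8, if_neg (fun h => h8 h.2.2), if_neg (fun h => h8 h.2)]
    · rw [if_neg h6]
      have h7 : (if (β ≠ [] ∧ Sd β ∧ ∀ x ∈ S \ β.toFinset, Sd (x :: β)) then
        X (k + 1) (S \ β.toFinset) else 0) = 0 := if_neg (fun h => h6 ⟨h.1, h.2.1⟩)
      rw [h7, add_zero]
      symm
      refine Finset.sum_eq_zero fun σ _ => ?_
      rw [if_neg (fun h => h6 h.1)]
  have h6 : X (k + 2) S = ∑ β ∈ U S, (if (β ≠ [] ∧ Sd β ∧ ∀ x ∈ S \ β.toFinset, Sd (x :: β)) then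
        X (k + 1) (S \ β.toFinset) else 0) := by
    conv_lhs => unfold X
  rw [h2, Finset.sum_congr rfl h5, Finset.sum_add_distrib, h6]
  ring

end Pool.Agent.T6.H85.Srtd
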