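import Mathlib
import Pool.Agent.T6.H85.Srtd.Count

/-!
# The numerical recurrence
-/

set_option autoImplicit false

namespace Pool.Agent.T6.H85.Srtd

open Finset Pool.Agent.TH428.Stk Pool.Agent.H409R2.Stk
open Pool.Agent.H44R2.Stk (wds)
open scoped Classical

/-- The number of sorted permutations of `1, …, n`: the number of different words `srt π`, where
`π` runs through the permutations of `1, …, n` written as words. -/
noncomputable def a (n : ℕ) : ℕ :=
  {σ : List ℕ | ∃ π : List ℕ, π.Perm (List.range' 1 n) ∧ srt π = σ}.ncard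

/-- Numbers of chains of `k` nonempty sorted words with `n` letters in total. -/
noncomputable def xx (k n : ℕ) : ℕ := X k (range n)

/-- Number of sorted words with `n` letters. -/
noncomputable def aa (n : ℕ) : ℕ := A (range n)

theorem rhs_eq (n : ℕ) (hinv : ∀ j ≤ n, ∀ S : Finset ℕ, S.card = j → A S = aa j ∧
    ∀ k, X k S = xx k j) (T : Finset ℕ) (hT : T.card = n) (k : ℕ) :
    ∑ B ∈ T.powerset, A B * X k (T \ B) =
      ∑ j ∈ range (n + 1), n.choose j * (aa j * xx k (n - j)) := by
  have h1 : ∀ B ∈ T.powerset, A B * X k (T \ B) = (fun j => aa j * xx k (n - j)) B.card := by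
    intro B hB
    rw [Finset.mem_powerset] at hB
    have h2 : B.card ≤ n := by rw [← hT]; exact Finset.card_le_card hB
    have h3 : (T \ B).card = n - B.card := by rw [Finset.card_sdiff_of_subset hB, hT]
    simp only
    rw [(hinv _ h2 B rfl).1, (hinv (n - B.card) (by omega) (T \ B) h3).2 k]
  have h4 := Finset.sum_powerset_apply_card (fun j => aa j * xx k (n - j)) (x := T)
  rw [Finset.sum_congr rfl h1]
  simp only at h4 ⊢
  rw [h4, hT]
  simp

theorem card_inv (n : ℕ) : ∀ S : Finset ℕ, S.card = n → A S = aa n ∧ ∀ k, X k S = xx k n := by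
  induction n using Nat.strong_induction_on with
  | _ n ih =>
    intro S hS
    rcases Nat.eq_zero_or_pos n with h0 | hpos
    · subst h0
      rw [Finset.card_eq_zero] at hS
      subst hS
      exact ⟨rfl, fun k => rfl⟩
    · obtain ⟨n, rfl⟩ : ∃ m, n = m + 1 := ⟨n - 1, by omega⟩
      have key : ∀ S : Finset ℕ, S.card = n + 1 → ∀ k,
          X (k + 1) S + xx (k + 1) n + xx (k + 2) n =
            ∑ j ∈ range (n + 1), n.choose j * (aa j * xx k (n - j)) +
            ∑ j ∈ range (n + 1), n.choose j * (aa j * xx (k + 1) (n - j)) := by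
        intro S hS k
        have hne : S.Nonempty := by rw [← Finset.card_pos]; omega
        set m := S.max' hne with hm
        set T := S.erase m with hT
        have hmS : m ∈ S := S.max'_mem hne
        have hTc : T.card = n := by rw [hT, Finset.card_erase_of_mem hmS]; omega
        have hlt : ∀ x ∈ T, x < m := by
          intro x hx
          rw [hT, Finset.mem_erase] at hx
          exact lt_of_le_of_ne (S.le_max' x hx.2) hx.1
        have h1 := X_rec k T m hlt
        rw [hT, Finset.insert_erase hmS, ← hT] at h1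
        rw [(ih n (by omega) T hTc).2, (ih n (by omega) T hTc).2,
          rhs_eq n (fun j hj => ih j (by omega)) T hTc,
          rhs_eq n (fun j hj => ih j (by omega)) T hTc] at h1
        exact h1
      have hX : ∀ k, X k S = xx k (n + 1) := by
        intro k
        cases k with
        | zero =>
          unfold xx X
          have h1 : S ≠ ∅ := by rintro rfl; simp at hS
          have h2 : range (n + 1) ≠ ∅ := by simp
          rw [if_neg h1, if_neg h2]
        | succ k =>
          have h1 := key S hS k
          have h2 := key (range (n + 1)) (by simp) k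
          have : X (k + 1) (range (n + 1)) = xx (k + 1) (n + 1) := rfl
          omega
      refine ⟨?_, hX⟩
      have h1 : S ≠ ∅ := by rintro rfl; simp at hS
      have h2 : range (n + 1) ≠ ∅ := by simp
      rw [← X_one S h1]
      unfold aa
      rw [← X_one _ h2]
      exact hX 1

/-- The triangular recurrence. -/
theorem xx_rec (k n : ℕ) : xx (k + 1) (n + 1) + xx (k + 1) n + xx (k + 2) n =
    ∑ j ∈ range (n + 1), n.choose j * (aa j * xx k (n - j)) +
      ∑ j ∈ range (n + 1), n.choose j * (aa j * xx (k + 1) (n - j)) := by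
  have h1 := X_rec k (range n) n (by intro x hx; simpa using hx)
  rw [← Finset.range_add_one] at h1
  rw [rhs_eq n (fun j _ => card_inv j) (range n) (by simp),
    rhs_eq n (fun j _ => card_inv j) (range n) (by simp)] at h1
  exact h1

theorem xx_zero_zero : xx 0 0 = 1 := by unfold xx X; simp

theorem xx_zero_succ (n : ℕ) : xx 0 (n + 1) = 0 := by unfold xx X; simp

theorem xx_succ_zero (k : ℕ) : xx (k + 1) 0 = 0 := by
  unfold xx X
  refine Finset.sum_eq_zero fun σ hσ => ?_
  rw [mem_U] at hσ
  have : σ = [] := by
    cases σ with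
    | nil => rfl
    | cons x l => exact absurd (hσ.2 x (by simp)) (by simp)
  rw [if_neg]
  exact fun h => h.1 this

theorem xx_one (n : ℕ) : xx 1 (n + 1) = aa (n + 1) := X_one _ (by simp)

theorem aa_zero : aa 0 = 1 := by
  unfold aa A
  have : (wds (range 0)).filter Sd = {[]} := by
    ext w
    rw [Finset.mem_filter, mem_wds, Finset.mem_singleton]
    constructor
    · rintro ⟨⟨-, h⟩, -⟩
      simpa using h
    · rintro rfl
      exact ⟨⟨by simp, by simp⟩, Sd.nil⟩
  rw [this]; simp

theorem a_eq_aa (n : ℕ) : a n = aa n := by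
  have hc : (Icc 1 n).card = n := by simp
  rw [← (card_inv n (Icc 1 n) hc).1]
  unfold a A
  rw [← Set.ncard_coe_finset]
  congr 1
  ext σ
  simp only [Set.mem_ofPred_eq, Finset.coe_filter, mem_wds]
  have hr : (List.range' 1 n).toFinset = Icc 1 n := by
    ext x; simp [List.mem_range'_1]; omega
  constructor
  · rintro ⟨π, hπ, rfl⟩
    have hnd : π.Nodup := hπ.nodup_iff.2 List.nodup_range'
    refine ⟨⟨(srt_perm π).nodup_iff.2 hnd, ?_⟩, sd_srt hnd⟩
    rw [List.toFinset_eq_of_perm _ _ (srt_perm π), List.toFinset_eq_of_perm _ _ hπ, hr]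
  · rintro ⟨⟨h1, h2⟩, h3⟩
    obtain ⟨π, hπ⟩ := h3.exists_srt
    refine ⟨π, ?_, hπ⟩
    have h4 : π.Perm σ := by rw [← hπ]; exact (srt_perm π).symm
    refine h4.trans ?_
    exact List.perm_of_nodup_nodup_toFinset_eq h1 List.nodup_range' (by rw [h2, hr])

end Pool.Agent.T6.H85.Srtd
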