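import Mathlib

/-!
# Evaluation of power series
-/

set_option autoImplicit false

namespace Pool.Agent.T6.H85.Srtd

open Finset

variable {𝕜 : Type*} [RCLike 𝕜]

/-- Absolute convergence inside the disc of radius `R`. -/
def Sm (u : ℕ → 𝕜) (R : ℝ) : Prop :=
  ∀ r : ℝ, 0 ≤ r → r < R → Summable (fun n => ‖u n‖ * r ^ n)

/-- Value of a power series. -/
noncomputable def ev (u : ℕ → 𝕜) (w : 𝕜) : 𝕜 := ∑' n, u n * w ^ n

/-- Cauchy product. -/
noncomputable def cv (u v : ℕ → 𝕜) (n : ℕ) : 𝕜 := ∑ p ∈ antidiagonal n, u p.1 * v p.2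

/-- Coefficients of the derivative. -/
noncomputable def dv (u : ℕ → 𝕜) (n : ℕ) : 𝕜 := ((n : 𝕜) + 1) * u (n + 1)

theorem Sm.norm_summable {u : ℕ → 𝕜} {R : ℝ} (h : Sm u R) {w : 𝕜} (hw : ‖w‖ < R) :
    Summable (fun n => ‖u n * w ^ n‖) := by
  have := h ‖w‖ (norm_nonneg _) hw
  simpa [norm_mul, norm_pow] using this

theorem Sm.summable {u : ℕ → 𝕜} {R : ℝ} (h : Sm u R) {w : 𝕜} (hw : ‖w‖ < R) :
    Summable (fun n => u n * w ^ n) := (h.norm_summable hw).of_norm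

theorem cv_pow (u v : ℕ → 𝕜) (w : 𝕜) (n : ℕ) : cv u v n * w ^ n =
    ∑ p ∈ antidiagonal n, (u p.1 * w ^ p.1) * (v p.2 * w ^ p.2) := by
  unfold cv
  rw [Finset.sum_mul]
  refine Finset.sum_congr rfl fun p hp => ?_
  rw [← Finset.HasAntidiagonal.mem_antidiagonal.1 hp, pow_add]
  ring

theorem Sm.cv {u v : ℕ → 𝕜} {R : ℝ} (hu : Sm u R) (hv : Sm v R) : Sm (cv u v) R := by
  intro r hr0 hr
  have h1 : Summable (fun n => ‖(‖u n‖ * r ^ n)‖) := by
    refine (hu r hr0 hr).congr fun n => ?_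
    rw [Real.norm_of_nonneg (by positivity)]
  have h2 : Summable (fun n => ‖(‖v n‖ * r ^ n)‖) := by
    refine (hv r hr0 hr).congr fun n => ?_
    rw [Real.norm_of_nonneg (by positivity)]
  have h3 := summable_sum_mul_antidiagonal_of_summable_mul (summable_mul_of_summable_norm h1 h2)
  refine Summable.of_nonneg_of_le (fun n => by positivity) (fun n => ?_) h3
  unfold Srtd.cv
  calc ‖∑ p ∈ antidiagonal n, u p.1 * v p.2‖ * r ^ n
      ≤ (∑ p ∈ antidiagonal n, ‖u p.1‖ * ‖v p.2‖) * r ^ n := by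
        gcongr
        refine (norm_sum_le _ _).trans (le_of_eq ?_)
        exact Finset.sum_congr rfl fun p _ => norm_mul _ _
    _ = ∑ p ∈ antidiagonal n, (‖u p.1‖ * r ^ p.1) * (‖v p.2‖ * r ^ p.2) := by
        rw [Finset.sum_mul]
        refine Finset.sum_congr rfl fun p hp => ?_
        rw [← Finset.HasAntidiagonal.mem_antidiagonal.1 hp, pow_add]
        ring

theorem ev_cv {u v : ℕ → 𝕜} {R : ℝ} (hu : Sm u R) (hv : Sm v R) {w : 𝕜} (hw : ‖w‖ < R) :
    ev (cv u v) w = ev u w * ev v w := by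
  unfold ev
  rw [tsum_mul_tsum_eq_tsum_sum_antidiagonal_of_summable_norm (hu.norm_summable hw)
    (hv.norm_summable hw)]
  exact tsum_congr fun n => cv_pow u v w n

theorem Sm.add {u v : ℕ → 𝕜} {R : ℝ} (hu : Sm u R) (hv : Sm v R) : Sm (fun n => u n + v n) R := by
  intro r hr0 hr
  refine Summable.of_nonneg_of_le (fun n => by positivity) (fun n => ?_)
    ((hu r hr0 hr).add (hv r hr0 hr))
  rw [← add_mul]
  gcongr
  exact norm_add_le _ _

theorem ev_add {u v : ℕ → 𝕜} {R : ℝ} (hu : Sm u R) (hv : Sm v R) {w : 𝕜} (hw : ‖w‖ < R) :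
    ev (fun n => u n + v n) w = ev u w + ev v w := by
  unfold ev
  rw [← (hu.summable hw).tsum_add (hv.summable hw)]
  exact tsum_congr fun n => add_mul _ _ _

theorem Sm.dv {u : ℕ → 𝕜} {R : ℝ} (hu : Sm u R) : Sm (dv u) R := by
  intro r hr0 hr
  obtain ⟨r', hr1, hr2⟩ := exists_between hr
  have hr'0 : 0 < r' := lt_of_le_of_lt hr0 hr1
  have h1 := hu r' hr'0.le hr2
  obtain ⟨C, hC⟩ := h1.tendsto_atTop_zero.bddAbove_range
  have hC' : ∀ n, ‖u n‖ * r' ^ n ≤ C := fun n => hC ⟨n, rfl⟩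
  have hq : ‖r / r'‖ < 1 := by
    rw [Real.norm_of_nonneg (by positivity), div_lt_one hr'0]; exact hr1
  have h2 : Summable (fun n : ℕ => ((n : ℝ) + 1) * (r / r') ^ n) := by
    have h3 := summable_pow_mul_geometric_of_norm_lt_one 1 hq
    have h4 := summable_geometric_of_norm_lt_one hq
    refine (h3.add h4).congr fun n => ?_
    simp only [pow_one]
    ring
  refine Summable.of_nonneg_of_le (fun n => by positivity) (fun n => ?_) (h2.mul_left (C / r'))
  unfold Srtd.dv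
  have h5 : ‖((n : 𝕜) + 1) * u (n + 1)‖ = ((n : ℝ) + 1) * ‖u (n + 1)‖ := by
    rw [norm_mul]
    congr 1
    have : ((n : 𝕜) + 1) = ((n + 1 : ℕ) : 𝕜) := by push_cast; rfl
    rw [this, RCLike.norm_natCast]
    push_cast; rfl
  rw [h5]
  have h6 := hC' (n + 1)
  rw [div_pow]
  have h7 : ‖u (n + 1)‖ ≤ C / r' ^ (n + 1) := by
    rw [le_div_iff₀ (by positivity)]; exact h6
  calc ((n : ℝ) + 1) * ‖u (n + 1)‖ * r ^ n ≤ ((n : ℝ) + 1) * (C / r' ^ (n + 1)) * r ^ n := by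
        gcongr
    _ = C / r' * (((n : ℝ) + 1) * (r ^ n / r' ^ n)) := by
        rw [pow_succ]
        field_simp

theorem ev_hasDerivAt {u : ℕ → 𝕜} {R : ℝ} (hu : Sm u R) {w : 𝕜} (hw : ‖w‖ < R) :
    HasDerivAt (ev u) (ev (dv u) w) w := by
  obtain ⟨r, hr1, hr2⟩ := exists_between hw
  have hr0 : 0 < r := lt_of_le_of_lt (norm_nonneg _) hr1
  have hs := hu.dv r hr0.le hr2
  have hsum : Summable (fun n : ℕ => (n : ℝ) * ‖u n‖ * r ^ (n - 1)) := by
    rw [← summable_nat_add_iff 1]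
    refine hs.congr fun n => ?_
    unfold Srtd.dv
    have h5 : ‖((n : 𝕜) + 1) * u (n + 1)‖ = ((n : ℝ) + 1) * ‖u (n + 1)‖ := by
      rw [norm_mul]
      congr 1
      have : ((n : 𝕜) + 1) = ((n + 1 : ℕ) : 𝕜) := by push_cast; rfl
      rw [this, RCLike.norm_natCast]
      push_cast; rfl
    rw [h5]
    push_cast
    simp
  have key := hasDerivAt_tsum_of_isPreconnected (𝕜 := 𝕜) (F := 𝕜)
    (g := fun n z => u n * z ^ n) (g' := fun n z => u n * (n * z ^ (n - 1)))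
    (t := Metric.ball (0 : 𝕜) r) (y₀ := 0) (y := w) hsum Metric.isOpen_ball
    (convex_ball (0 : 𝕜) r).isPreconnected
    (fun n y _ => (hasDerivAt_pow n y).const_mul (u n))
    (fun n y hy => ?_) (Metric.mem_ball_self hr0) ?_ (by simpa using hr1)
  · have h8 : (fun z => ∑' n, u n * z ^ n) = ev u := rfl
    rw [h8] at key
    refine key.congr_deriv ?_
    unfold ev Srtd.dv
    have h9 : Summable (fun n : ℕ => u n * (n * w ^ (n - 1))) := by
      refine Summable.of_norm_bounded hsum fun n => ?_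
      rw [norm_mul, norm_mul, norm_pow, RCLike.norm_natCast]
      have h10 : ‖w‖ ^ (n - 1) ≤ r ^ (n - 1) := pow_le_pow_left₀ (norm_nonneg _) hr1.le _
      calc ‖u n‖ * (n * ‖w‖ ^ (n - 1)) ≤ ‖u n‖ * (n * r ^ (n - 1)) := by gcongr
        _ = n * ‖u n‖ * r ^ (n - 1) := by ring
    rw [h9.tsum_eq_zero_add]
    simp only [Nat.cast_zero, zero_mul, mul_zero, zero_add]
    refine tsum_congr fun n => ?_
    simp
    ring
  · rw [norm_mul, norm_mul, norm_pow, RCLike.norm_natCast]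
    have hy' : ‖y‖ < r := by simpa using hy
    have h10 : ‖y‖ ^ (n - 1) ≤ r ^ (n - 1) := pow_le_pow_left₀ (norm_nonneg _) hy'.le _
    calc ‖u n‖ * (n * ‖y‖ ^ (n - 1)) ≤ ‖u n‖ * (n * r ^ (n - 1)) := by gcongr
      _ = n * ‖u n‖ * r ^ (n - 1) := by ring
  · exact hu.summable (w := (0 : 𝕜)) (by simpa using lt_trans hr0 hr2)

end Pool.Agent.T6.H85.Srtd
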