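import Mathlib
import Pool.Agent.T6.H85.Srtd.Rec
import Pool.Agent.T6.H85.Srtd.Series

/-!
# The system of differential equations for the generating functions
-/

set_option autoImplicit false

namespace Pool.Agent.T6.H85.Srtd

open Finset Pool.Agent.H409R2.Stk
open Pool.Agent.H44R2.Stk (wds)

/-- scaled numbers of chains -/
noncomputable def u (k n : ℕ) : ℝ := (xx k n : ℝ) / (n.factorial : ℝ)

/-- scaled numbers of sorted permutations -/
noncomputable def cc (n : ℕ) : ℝ := (aa n : ℝ) / (n.factorial : ℝ)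

theorem u_nonneg (k n : ℕ) : 0 ≤ u k n := by unfold u; positivity

theorem cc_nonneg (n : ℕ) : 0 ≤ cc n := by unfold cc; positivity

theorem cc_zero : cc 0 = 1 := by unfold cc; rw [aa_zero]; simp

open scoped Classical in
theorem cc_le_one (n : ℕ) : cc n ≤ 1 := by
  unfold cc
  rw [div_le_one (by positivity)]
  have h1 : aa n ≤ n.factorial := by
    unfold aa A
    rw [← card_wds_range]
    exact Finset.card_filter_le _ _
  exact_mod_cast h1

theorem u_zero_zero : u 0 0 = 1 := by unfold u; rw [xx_zero_zero]; simp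

theorem u_zero_succ (n : ℕ) : u 0 (n + 1) = 0 := by unfold u; rw [xx_zero_succ]; simp

theorem u_succ_zero (k : ℕ) : u (k + 1) 0 = 0 := by unfold u; rw [xx_succ_zero]; simp

theorem cc_eq (n : ℕ) : cc n = u 0 n + u 1 n := by
  cases n with
  | zero => rw [cc_zero, u_zero_zero, u_succ_zero]; ring
  | succ n =>
    rw [u_zero_succ, zero_add]
    unfold cc u
    rw [xx_one]

theorem cv_scaled (f g : ℕ → ℕ) (n : ℕ) :
    (∑ j ∈ range (n + 1), n.choose j * (f j * g (n - j)) : ℕ) / (n.factorial : ℝ) =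
      cv (fun i => (f i : ℝ) / (i.factorial : ℝ)) (fun i => (g i : ℝ) / (i.factorial : ℝ)) n := by
  unfold cv
  rw [Finset.Nat.sum_antidiagonal_eq_sum_range_succ_mk]
  push_cast
  rw [Finset.sum_div]
  refine Finset.sum_congr rfl fun j hj => ?_
  rw [Finset.mem_range] at hj
  have h1 : (n.choose j : ℝ) = (n.factorial : ℝ) / ((j.factorial : ℝ) * ((n - j).factorial : ℝ)) :=
    Nat.cast_choose ℝ (by omega)
  rw [h1]
  have h2 : (n.factorial : ℝ) ≠ 0 := by positivity
  field_simp

theorem u_rec (k n : ℕ) : dv (u (k + 1)) n + u (k + 1) n + u (k + 2) n =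
    cv cc (u k) n + cv cc (u (k + 1)) n := by
  have h1 := xx_rec k n
  have h2 : ((xx (k + 1) (n + 1) + xx (k + 1) n + xx (k + 2) n : ℕ) : ℝ) / (n.factorial : ℝ) =
      ((∑ j ∈ range (n + 1), n.choose j * (aa j * xx k (n - j)) +
      ∑ j ∈ range (n + 1), n.choose j * (aa j * xx (k + 1) (n - j)) : ℕ) : ℝ) /
        (n.factorial : ℝ) := by rw [h1]
  rw [Nat.cast_add, Nat.cast_add, Nat.cast_add, add_div, add_div, add_div,
    cv_scaled aa (xx k), cv_scaled aa (xx (k + 1))] at h2
  have h3 : dv (u (k + 1)) n = (xx (k + 1) (n + 1) : ℝ) / (n.factorial : ℝ) := by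
    unfold dv u
    rw [Nat.factorial_succ]
    push_cast
    have h2 : (n.factorial : ℝ) ≠ 0 := by positivity
    field_simp
  rw [h3]
  exact h2

theorem cv_add_left (f g h : ℕ → ℝ) (n : ℕ) : cv (fun i => f i + g i) h n = cv f h n + cv g h n := by
  unfold cv
  rw [← Finset.sum_add_distrib]
  exact Finset.sum_congr rfl fun p _ => by ring

theorem cv_comm (f g : ℕ → ℝ) (n : ℕ) : cv f g n = cv g f n := by
  unfold cv
  rw [← Finset.Nat.sum_antidiagonal_swap]
  exact Finset.sum_congr rfl fun p _ => by simp [mul_comm]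

theorem cv_u_zero (g : ℕ → ℝ) (n : ℕ) : cv (u 0) g n = g n := by
  unfold cv
  rw [Finset.sum_eq_single (0, n)]
  · simp [u_zero_zero]
  · rintro ⟨i, j⟩ hp hne
    rw [Finset.HasAntidiagonal.mem_antidiagonal] at hp
    cases i with
    | zero =>
      exfalso; apply hne
      simp at hp
      simp [hp]
    | succ i => simp [u_zero_succ]
  · intro h
    exact absurd (by rw [Finset.HasAntidiagonal.mem_antidiagonal]; simp) h

theorem cv_cc (g : ℕ → ℝ) (n : ℕ) : cv cc g n = g n + cv (u 1) g n := by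
  have : cc = fun i => u 0 i + u 1 i := funext cc_eq
  rw [this, cv_add_left, cv_u_zero]

/-- `x' = 1 + x + x² - y` -/
theorem rec_x (n : ℕ) : dv (u 1) n + u 2 n = u 0 n + u 1 n + cv (u 1) (u 1) n := by
  have h := u_rec 0 n
  rw [cv_cc, cv_cc, cv_comm (u 1) (u 0), cv_u_zero] at h
  linarith

/-- `y' = x + x² + x y - z` -/
theorem rec_y (n : ℕ) : dv (u 2) n + u 3 n = u 1 n + cv (u 1) (u 1) n + cv (u 1) (u 2) n := by
  have h := u_rec 1 n
  rw [cv_cc, cv_cc] at h
  linarith

theorem cv_nonneg {f g : ℕ → ℝ} (hf : ∀ n, 0 ≤ f n) (hg : ∀ n, 0 ≤ g n) (n : ℕ) :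
    0 ≤ cv f g n := Finset.sum_nonneg fun _ _ => mul_nonneg (hf _) (hg _)

end Pool.Agent.T6.H85.Srtd
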