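import Mathlib
import Pool.Agent.T6.H85.Srtd.System

/-!
# Coefficient identities and inequalities
-/

set_option autoImplicit false

namespace Pool.Agent.T6.H85.Srtd

open Finset PowerSeries

theorem coeff_mk_mul (f g : ℕ → ℝ) (n : ℕ) :
    PowerSeries.coeff n (PowerSeries.mk f * PowerSeries.mk g) = cv f g n := by
  rw [PowerSeries.coeff_mul]
  unfold cv
  refine Finset.sum_congr rfl fun p _ => ?_
  rw [PowerSeries.coeff_mk, PowerSeries.coeff_mk]

/-- formal series -/
noncomputable def P (k : ℕ) : PowerSeries ℝ := PowerSeries.mk (u k)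

theorem P_zero : P 0 = 1 := by
  ext n
  unfold P
  rw [PowerSeries.coeff_mk, PowerSeries.coeff_one]
  cases n with
  | zero => simp [u_zero_zero]
  | succ n => simp [u_zero_succ]

theorem coeff_dP (f : ℕ → ℝ) (n : ℕ) :
    PowerSeries.coeff n (PowerSeries.derivative ℝ (PowerSeries.mk f)) = dv f n := by
  rw [PowerSeries.coeff_derivative, PowerSeries.coeff_mk]
  unfold dv
  ring

theorem dP1 : PowerSeries.derivative ℝ (P 1) = 1 + P 1 + P 1 * P 1 - P 2 := by
  ext n
  have h := rec_x n
  rw [map_sub, map_add, map_add, ← P_zero]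
  unfold P
  rw [coeff_dP, coeff_mk_mul, PowerSeries.coeff_mk, PowerSeries.coeff_mk, PowerSeries.coeff_mk]
  linarith

theorem dP2 : PowerSeries.derivative ℝ (P 2) = P 1 + P 1 * P 1 + P 1 * P 2 - P 3 := by
  ext n
  have h := rec_y n
  rw [map_sub, map_add, map_add]
  unfold P
  rw [coeff_dP, coeff_mk_mul, coeff_mk_mul, PowerSeries.coeff_mk, PowerSeries.coeff_mk]
  linarith

/-- coefficients of `Q = x² - 2 y` -/
noncomputable def q (n : ℕ) : ℝ := cv (u 1) (u 1) n - 2 * u 2 n

theorem mk_q : PowerSeries.mk q = P 1 * P 1 - 2 * P 2 := by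
  ext n
  have e : (2 : PowerSeries ℝ) * P 2 = P 2 + P 2 := two_mul _
  rw [e, map_sub, map_add]
  unfold P q
  rw [PowerSeries.coeff_mk, coeff_mk_mul, PowerSeries.coeff_mk]
  ring

theorem q_rec (n : ℕ) : dv q n = 2 * cv (u 1) q n + 2 * u 3 n := by
  have h : PowerSeries.derivative ℝ (PowerSeries.mk q) =
      (P 1 * PowerSeries.mk q + P 1 * PowerSeries.mk q) + (P 3 + P 3) := by
    have h2 : PowerSeries.derivative ℝ (2 * P 2) = 2 * PowerSeries.derivative ℝ (P 2) := by
      rw [two_mul, map_add, two_mul]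
    rw [mk_q, map_sub, Derivation.leibniz, h2, dP1, dP2]
    simp only [smul_eq_mul]
    ring
  have h3 := congrArg (PowerSeries.coeff n) h
  rw [coeff_dP, map_add, map_add, map_add] at h3
  have h4 : PowerSeries.coeff n (P 1 * PowerSeries.mk q) = cv (u 1) q n := coeff_mk_mul _ _ _
  have h5 : PowerSeries.coeff n (P 3) = u 3 n := by unfold P; rw [PowerSeries.coeff_mk]
  rw [h4, h5] at h3
  linarith

theorem q_zero : q 0 = 0 := by
  unfold q cv
  simp [u_succ_zero]

theorem q_nonneg (n : ℕ) : 0 ≤ q n := by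
  induction n using Nat.strong_induction_on with
  | _ n ih =>
    cases n with
    | zero => rw [q_zero]
    | succ n =>
      have h := q_rec n
      have h1 : 0 ≤ cv (u 1) q n := by
        unfold cv
        refine Finset.sum_nonneg fun p hp => mul_nonneg (u_nonneg _ _) (ih _ ?_)
        have := Finset.HasAntidiagonal.mem_antidiagonal.1 hp
        omega
      have h2 := u_nonneg 3 n
      unfold dv at h
      have h3 : (0 : ℝ) < (n : ℝ) + 1 := by positivity
      nlinarith [mul_comm ((n : ℝ) + 1) (q (n + 1))]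

theorem x_rec (n : ℕ) : dv (u 1) n = u 0 n + u 1 n + cv (u 1) (u 1) n / 2 + q n / 2 := by
  have h := rec_x n
  unfold q
  linarith

theorem x_rec_le (n : ℕ) : dv (u 1) n ≤ u 0 n + u 1 n + cv (u 1) (u 1) n := by
  have h := rec_x n
  have := u_nonneg 2 n
  linarith

theorem cv_cc_cc (n : ℕ) : cv cc cc n = u 0 n + 2 * u 1 n + cv (u 1) (u 1) n := by
  rw [cv_cc, cc_eq, cv_comm, cv_cc]
  ring

theorem dv_cc (n : ℕ) : dv cc n = dv (u 1) n := by
  unfold dv
  rw [cc_eq, u_zero_succ, zero_add]

theorem dv_cc_le (n : ℕ) : dv cc n ≤ cv cc cc n := by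
  rw [dv_cc, cv_cc_cc]
  have := x_rec_le n
  have := u_nonneg 1 n
  linarith

theorem dv_cc_ge (n : ℕ) : cv cc cc n / 2 ≤ dv cc n := by
  rw [dv_cc, cv_cc_cc, x_rec]
  have := q_nonneg n
  have := u_nonneg 0 n
  linarith

theorem cc_ge (n : ℕ) : (1 / 2 : ℝ) ^ n ≤ cc n := by
  induction n using Nat.strong_induction_on with
  | _ n ih =>
    cases n with
    | zero => rw [cc_zero]; simp
    | succ n =>
      have h := dv_cc_ge n
      have h1 : ((n : ℝ) + 1) * (1 / 2) ^ n ≤ cv cc cc n := by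
        unfold cv
        calc ((n : ℝ) + 1) * (1 / 2) ^ n = ∑ p ∈ antidiagonal n, (1 / 2 : ℝ) ^ n := by
              rw [Finset.sum_const, Finset.Nat.card_antidiagonal]
              simp
          _ ≤ ∑ p ∈ antidiagonal n, cc p.1 * cc p.2 := by
              refine Finset.sum_le_sum fun p hp => ?_
              have hp' := Finset.HasAntidiagonal.mem_antidiagonal.1 hp
              rw [← hp', pow_add]
              exact mul_le_mul (ih _ (by omega)) (ih _ (by omega)) (by positivity) (cc_nonneg _)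
      unfold dv at h
      have h3 : (0 : ℝ) < (n : ℝ) + 1 := by positivity
      rw [pow_succ]
      have h4 : ((n : ℝ) + 1) * ((1 / 2) ^ n * (1 / 2)) ≤ ((n : ℝ) + 1) * cc (n + 1) := by linarith
      exact le_of_mul_le_mul_left h4 h3

theorem cc_pos (n : ℕ) : 0 < cc n := lt_of_lt_of_le (by positivity) (cc_ge n)

theorem u_one_ge (n : ℕ) : (1 / 2 : ℝ) ^ (n + 1) ≤ u 1 (n + 1) := by
  have := cc_ge (n + 1)
  rwa [cc_eq, u_zero_succ, zero_add] at this

end Pool.Agent.T6.H85.Srtd
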