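import Mathlib
import Pool.Agent.T6.H85.Srtd.Coef

/-!
# The radius of convergence and the first bounds
-/

set_option autoImplicit false

namespace Pool.Agent.T6.H85.Srtd

open Finset Filter Topology

/-- radius of convergence of `∑ cc n w ^ n` -/
noncomputable def rho : ℝ := sSup {r : ℝ | 0 ≤ r ∧ Summable (fun n => cc n * r ^ n)}

theorem not_summable_two : ∀ r : ℝ, 2 ≤ r → ¬ Summable (fun n => cc n * r ^ n) := by
  intro r hr h
  have h1 := h.tendsto_atTop_zero
  have h2 : ∀ n, (1 : ℝ) ≤ cc n * r ^ n := by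
    intro n
    calc (1 : ℝ) = (1 / 2) ^ n * 2 ^ n := by rw [← mul_pow]; norm_num
      _ ≤ cc n * r ^ n := by
        apply mul_le_mul (cc_ge n) _ (by positivity) (cc_nonneg n)
        exact pow_le_pow_left₀ (by norm_num) hr n
  have h3 := ge_of_tendsto' h1 h2
  linarith

theorem summable_mono {r r' : ℝ} (h0 : 0 ≤ r) (h : r ≤ r') (hs : Summable (fun n => cc n * r' ^ n)) :
    Summable (fun n => cc n * r ^ n) := by
  refine Summable.of_nonneg_of_le (fun n => mul_nonneg (cc_nonneg n) (by positivity))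
    (fun n => ?_) hs
  exact mul_le_mul_of_nonneg_left (pow_le_pow_left₀ h0 h n) (cc_nonneg n)

theorem bddAbove_set : BddAbove {r : ℝ | 0 ≤ r ∧ Summable (fun n => cc n * r ^ n)} := by
  refine ⟨2, ?_⟩
  rintro r ⟨_, h2⟩
  by_contra hc
  exact not_summable_two r (not_le.1 hc).le h2

theorem le_rho {r : ℝ} (h0 : 0 ≤ r) (h : Summable (fun n => cc n * r ^ n)) : r ≤ rho :=
  le_csSup bddAbove_set ⟨h0, h⟩

theorem summable_lt_one {r : ℝ} (h0 : 0 ≤ r) (h : r < 1) : Summable (fun n => cc n * r ^ n) := by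
  refine Summable.of_nonneg_of_le (fun n => mul_nonneg (cc_nonneg n) (by positivity))
    (fun n => ?_) (summable_geometric_of_lt_one h0 h)
  exact mul_le_of_le_one_left (by positivity) (cc_le_one n)

theorem one_le_rho : 1 ≤ rho := by
  refine le_of_forall_lt fun r hr => ?_
  obtain ⟨r', h1, h2⟩ := exists_between hr
  rcases le_or_gt 0 r' with h0 | h0
  · exact lt_of_lt_of_le h1 (le_rho h0 (summable_lt_one h0 h2))
  · have := le_rho le_rfl (summable_lt_one le_rfl one_pos)
    linarith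

theorem rho_pos : 0 < rho := lt_of_lt_of_le one_pos one_le_rho

theorem rho_le_two : rho ≤ 2 := by
  refine csSup_le ⟨0, le_rfl, summable_lt_one le_rfl one_pos⟩ ?_
  rintro r ⟨_, h2⟩
  by_contra hc
  exact not_summable_two r (not_le.1 hc).le h2

theorem Sm_cc : Sm cc rho := by
  intro r h0 hr
  have hne : {r : ℝ | 0 ≤ r ∧ Summable (fun n => cc n * r ^ n)}.Nonempty :=
    ⟨0, le_rfl, summable_lt_one le_rfl one_pos⟩
  obtain ⟨r', hr', h2⟩ := exists_lt_of_lt_csSup hne hr
  have := summable_mono h0 h2.le hr'.2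
  refine this.congr fun n => ?_
  rw [Real.norm_of_nonneg (cc_nonneg n)]

theorem not_summable_gt {r : ℝ} (h : rho < r) : ¬ Summable (fun n => cc n * r ^ n) := by
  intro hs
  exact absurd (le_rho (rho_pos.trans h).le hs) (not_le.2 h)

theorem Sm_of_le {f g : ℕ → ℝ} {R : ℝ} (hg : Sm g R) (h0 : ∀ n, 0 ≤ f n) (h : ∀ n, f n ≤ g n) :
    Sm f R := by
  intro r hr0 hr
  refine Summable.of_nonneg_of_le (fun n => by positivity) (fun n => ?_) (hg r hr0 hr)
  rw [Real.norm_of_nonneg (h0 n), Real.norm_of_nonneg ((h0 n).trans (h n))]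
  exact mul_le_mul_of_nonneg_right (h n) (by positivity)

theorem Sm_u_zero : Sm (u 0) rho := by
  refine Sm_of_le Sm_cc (fun n => u_nonneg 0 n) fun n => ?_
  rw [cc_eq]
  have := u_nonneg 1 n
  linarith

theorem Sm_u_one : Sm (u 1) rho := by
  refine Sm_of_le Sm_cc (fun n => u_nonneg 1 n) fun n => ?_
  rw [cc_eq]
  have := u_nonneg 0 n
  linarith

theorem Sm_u (k : ℕ) : Sm (u k) rho ∧ Sm (u (k + 1)) rho := by
  induction k with
  | zero => exact ⟨Sm_u_zero, Sm_u_one⟩
  | succ k ih =>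
    refine ⟨ih.2, ?_⟩
    have h1 := (Sm_cc.cv ih.1).add (Sm_cc.cv ih.2)
    refine Sm_of_le h1 (fun n => u_nonneg _ n) fun n => ?_
    have h2 := u_rec k n
    have h3 := u_nonneg (k + 1) n
    have h4 : 0 ≤ dv (u (k + 1)) n := by
      unfold dv
      have := u_nonneg (k + 1) (n + 1)
      positivity
    have e : k + 1 + 1 = k + 2 := rfl
    rw [e]
    linarith

theorem Sm_q : Sm q rho := by
  refine Sm_of_le (Sm_u_one.cv Sm_u_one) q_nonneg fun n => ?_
  unfold q
  have := u_nonneg 2 n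
  linarith

/-- partial sums -/
noncomputable def PN (N : ℕ) (w : ℝ) : ℝ := ∑ n ∈ range (N + 1), cc n * w ^ n

theorem PN_hasDeriv (N : ℕ) (w : ℝ) :
    HasDerivAt (PN N) (∑ n ∈ range N, dv cc n * w ^ n) w := by
  have h1 : HasDerivAt (PN N) (∑ n ∈ range (N + 1), cc n * (n * w ^ (n - 1))) w := by
    unfold PN
    refine HasDerivAt.fun_sum fun n _ => ?_
    exact (hasDerivAt_pow n w).const_mul (cc n)
  refine h1.congr_deriv ?_
  rw [Finset.sum_range_succ']
  simp only [Nat.cast_zero, zero_mul, mul_zero, add_zero]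
  refine Finset.sum_congr rfl fun n _ => ?_
  unfold dv
  simp
  ring

theorem PN_ge_one (N : ℕ) {w : ℝ} (hw : 0 ≤ w) : 1 ≤ PN N w := by
  unfold PN
  rw [Finset.sum_range_succ']
  rw [cc_zero]
  have : 0 ≤ ∑ k ∈ range N, cc (k + 1) * w ^ (k + 1) :=
    Finset.sum_nonneg fun k _ => mul_nonneg (cc_nonneg _) (by positivity)
  simp
  exact this

theorem PN_deriv_le (N : ℕ) {w : ℝ} (hw : 0 ≤ w) :
    ∑ n ∈ range N, dv cc n * w ^ n ≤ PN N w ^ 2 := by
  have h1 : ∑ n ∈ range N, dv cc n * w ^ n ≤ ∑ n ∈ range N, cv cc cc n * w ^ n :=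
    Finset.sum_le_sum fun n _ => mul_le_mul_of_nonneg_right (dv_cc_le n) (by positivity)
  refine h1.trans ?_
  unfold PN
  rw [sq, Finset.sum_mul_sum, ← Finset.sum_product']
  have h2 : ∀ n ∈ range N, cv cc cc n * w ^ n = ∑ p ∈ antidiagonal n,
      (cc p.1 * w ^ p.1) * (cc p.2 * w ^ p.2) := fun n _ => cv_pow cc cc w n
  rw [Finset.sum_congr rfl h2, Finset.sum_sigma']
  let F : (Σ _ : ℕ, ℕ × ℕ) → ℝ := fun s => (cc s.2.1 * w ^ s.2.1) * (cc s.2.2 * w ^ s.2.2)
  have h3 : ∑ s ∈ (range N).sigma (fun n => antidiagonal n), F s =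
      ∑ p ∈ ((range N).sigma (fun n => antidiagonal n)).image (fun s => s.2),
        (cc p.1 * w ^ p.1) * (cc p.2 * w ^ p.2) := by
    rw [Finset.sum_image]
    rintro ⟨n, p⟩ hs ⟨n', p'⟩ hs' heq
    simp only [Finset.coe_sigma, Set.mem_sigma_iff, Finset.mem_coe,
      Finset.HasAntidiagonal.mem_antidiagonal] at hs hs'
    simp only at heq
    subst heq
    have : n = n' := by rw [← hs.2, ← hs'.2]
    subst this
    rfl
  rw [h3]
  refine Finset.sum_le_sum_of_subset_of_nonneg ?_ ?_
  · intro p hp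
    rw [Finset.mem_image] at hp
    obtain ⟨⟨n, p'⟩, h4, rfl⟩ := hp
    simp only [Finset.mem_sigma, Finset.mem_range, Finset.HasAntidiagonal.mem_antidiagonal] at h4
    simp only [Finset.mem_product, Finset.mem_range]
    omega
  · intro p _ _
    exact mul_nonneg (mul_nonneg (cc_nonneg _) (by positivity))
      (mul_nonneg (cc_nonneg _) (by positivity))

/-- value of the generating function -/
noncomputable def s (w : ℝ) : ℝ := ev cc w

theorem PN_le_s (N : ℕ) {w : ℝ} (hw : 0 ≤ w) (hw' : w < rho) : PN N w ≤ s w := by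
  unfold PN s ev
  have h := Sm_cc.summable (w := w) (by rwa [Real.norm_of_nonneg hw])
  exact h.sum_le_tsum _ (fun n _ => mul_nonneg (cc_nonneg n) (by positivity))

theorem s_ge_one {w : ℝ} (hw : 0 ≤ w) (hw' : w < rho) : 1 ≤ s w :=
  (PN_ge_one 0 hw).trans (PN_le_s 0 hw hw')

/-- lower bound `s (w) ≥ 1 / (ρ - w)` -/
theorem one_le_s_mul {w : ℝ} (hw : 0 ≤ w) (hw' : w < rho) : 1 ≤ s w * (rho - w) := by
  by_contra hc
  push Not at hc
  have hs1 := s_ge_one hw hw'
  have hs : 0 < s w := by linarith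
  have h1 : rho - w < 1 / s w := by rw [lt_div_iff₀ hs]; linarith
  obtain ⟨η, h2, h3⟩ := exists_between h1
  have hη : 0 < η := by linarith
  set w1 := w + η with hw1
  have key : ∀ N, PN N w1 ≤ 1 / (1 / s w - η) := by
    intro N
    have hmono : MonotoneOn (fun t => t - (PN N t)⁻¹ * (-1)) (Set.Icc w w1) := by
      refine monotoneOn_of_hasDerivWithinAt_nonneg (f' := fun t =>
        1 - (-(∑ n ∈ range N, dv cc n * t ^ n) / (PN N t) ^ 2) * (-1)) (convex_Icc w w1) ?_ ?_ ?_
      · intro t ht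
        have ht0 : 0 ≤ t := hw.trans ht.1
        have hp : PN N t ≠ 0 := by have := PN_ge_one N ht0; linarith
        exact ((hasDerivAt_id t).sub (((PN_hasDeriv N t).inv hp).mul_const (-1))).continuousAt.continuousWithinAt
      · intro t ht
        rw [interior_Icc] at ht
        have ht0 : 0 ≤ t := hw.trans ht.1.le
        have hp : PN N t ≠ 0 := by have := PN_ge_one N ht0; linarith
        exact ((hasDerivAt_id t).sub (((PN_hasDeriv N t).inv hp).mul_const (-1))).hasDerivWithinAt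
      · intro t ht
        rw [interior_Icc] at ht
        have ht0 : 0 ≤ t := hw.trans ht.1.le
        have hp := PN_ge_one N ht0
        have h5 := PN_deriv_le N ht0
        have h6 : (∑ n ∈ range N, dv cc n * t ^ n) / (PN N t) ^ 2 ≤ 1 := by
          rw [div_le_one (by positivity)]; exact h5
        have h7 : -(∑ n ∈ range N, dv cc n * t ^ n) / (PN N t) ^ 2 =
          -((∑ n ∈ range N, dv cc n * t ^ n) / (PN N t) ^ 2) := by ring
        rw [h7]; linarith
    have h4 := hmono (Set.left_mem_Icc.2 (by linarith)) (Set.right_mem_Icc.2 (by linarith))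
      (by linarith : w ≤ w1)
    simp only at h4
    have h5 : (PN N w)⁻¹ ≥ 1 / s w := by
      rw [ge_iff_le, one_div]
      exact inv_anti₀ (by have := PN_ge_one N hw; linarith) (PN_le_s N hw hw')
    have h6 : (PN N w1)⁻¹ ≥ 1 / s w - η := by linarith
    have h7 : 0 < 1 / s w - η := by linarith
    have h8 : 0 < PN N w1 := by have := PN_ge_one N (hw.trans (by linarith : w ≤ w1)); linarith
    rw [le_div_iff₀ h7]
    calc PN N w1 * (1 / s w - η) ≤ PN N w1 * (PN N w1)⁻¹ := by gcongr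
      _ = 1 := mul_inv_cancel₀ h8.ne'
  have hsum : Summable (fun n => cc n * w1 ^ n) := by
    refine summable_of_sum_range_le (c := 1 / (1 / s w - η))
      (fun n => mul_nonneg (cc_nonneg n) (by positivity)) fun n => ?_
    refine le_trans ?_ (key n)
    unfold PN
    rw [Finset.sum_range_succ]
    have : 0 ≤ cc n * w1 ^ n := mul_nonneg (cc_nonneg n) (by positivity)
    linarith
  have := le_rho (by linarith) hsum
  linarith

end Pool.Agent.T6.H85.Srtd
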