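import Mathlib
import Pool.Agent.T6.H85.Srtd.Rho

/-!
# The behaviour of the generating function at the radius of convergence
-/

set_option autoImplicit false

namespace Pool.Agent.T6.H85.Srtd

open Finset Filter Topology
open Pool.Agent.H44R2.Stk (wds)

/-! ### Vanishing and positivity of small values -/

theorem X_eq_zero : ∀ (k : ℕ) (S : Finset ℕ), S.card < k → X k S = 0 := by
  intro k
  induction k with
  | zero => intro S h; omega
  | succ k ih =>
    intro S h
    unfold X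
    refine Finset.sum_eq_zero fun σ hσ => ?_
    rw [mem_U] at hσ
    by_cases h1 : σ = []
    · rw [if_neg (fun h' => h'.1 h1)]
    · have h2 : (S \ σ.toFinset).card < k := by
        obtain ⟨x, l, rfl⟩ := List.exists_cons_of_ne_nil h1
        have h3 : x ∈ S := hσ.2 x (by simp)
        have h4 : S \ (x :: l).toFinset ⊆ S.erase x := by
          intro y hy
          rw [Finset.mem_sdiff] at hy
          rw [Finset.mem_erase]
          refine ⟨?_, hy.1⟩
          rintro rfl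
          exact hy.2 (by simp)
        have h5 := Finset.card_le_card h4
        rw [Finset.card_erase_of_mem h3] at h5
        have h6 : 0 < S.card := Finset.card_pos.2 ⟨x, h3⟩
        omega
      rw [ih _ h2]
      simp

theorem xx_eq_zero {k n : ℕ} (h : n < k) : xx k n = 0 := X_eq_zero k _ (by simpa using h)

theorem xx_diag (k : ℕ) : 1 ≤ xx k k := by
  induction k with
  | zero => rw [xx_zero_zero]
  | succ k ih =>
    have h := xx_rec k k
    rw [xx_eq_zero (show k < k + 1 by omega), xx_eq_zero (show k < k + 2 by omega)] at h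
    have h1 : k.choose 0 * (aa 0 * xx k (k - 0)) ≤
        ∑ j ∈ range (k + 1), k.choose j * (aa j * xx k (k - j)) :=
      Finset.single_le_sum (f := fun j => k.choose j * (aa j * xx k (k - j)))
        (fun _ _ => Nat.zero_le _) (Finset.mem_range.2 (by omega))
    rw [aa_zero] at h1
    simp at h1
    omega

theorem q_four : 0 < q 4 := by
  have h := q_rec 3
  have h1 : 0 ≤ cv (u 1) q 3 := cv_nonneg (u_nonneg 1) q_nonneg 3
  have h2 : 0 < u 3 3 := by
    unfold u
    have : 0 < xx 3 3 := xx_diag 3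
    positivity
  unfold dv at h
  have h3 : (3 + 1 : ℕ) = 4 := rfl
  rw [h3] at h
  push_cast at h
  nlinarith

/-! ### The functions on the real interval -/

noncomputable def x (w : ℝ) : ℝ := ev (u 1) w
noncomputable def y (w : ℝ) : ℝ := ev (u 2) w
noncomputable def z (w : ℝ) : ℝ := ev (u 3) w
noncomputable def Q (w : ℝ) : ℝ := ev q w

theorem ev_u_zero (w : ℝ) : ev (u 0) w = 1 := by
  unfold ev
  rw [tsum_eq_single 0]
  · simp [u_zero_zero]
  · intro n hn
    obtain ⟨m, rfl⟩ := Nat.exists_eq_succ_of_ne_zero hn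
    simp [u_zero_succ]

theorem ev_nonneg {f : ℕ → ℝ} (hf : ∀ n, 0 ≤ f n) {w : ℝ} (hw : 0 ≤ w) : 0 ≤ ev f w :=
  tsum_nonneg fun n => mul_nonneg (hf n) (by positivity)

theorem ev_mul_const (f : ℕ → ℝ) (c w : ℝ) : ev (fun n => f n * c) w = ev f w * c := by
  unfold ev
  rw [← tsum_mul_right]
  exact tsum_congr fun n => by ring

theorem Sm.mul_const {f : ℕ → ℝ} {R : ℝ} (hf : Sm f R) (c : ℝ) : Sm (fun n => f n * c) R := by
  intro r hr0 hr
  refine ((hf r hr0 hr).mul_right |c|).congr fun n => ?_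
  rw [norm_mul, Real.norm_eq_abs c]
  ring

theorem s_eq {w : ℝ} (hw : |w| < rho) : s w = 1 + x w := by
  unfold s x
  have : cc = fun i => u 0 i + u 1 i := funext cc_eq
  rw [this, ev_add Sm_u_zero Sm_u_one hw, ev_u_zero]

theorem Q_eq {w : ℝ} (hw : |w| < rho) : x w ^ 2 = Q w + 2 * y w := by
  unfold x Q y
  rw [sq, ← ev_cv Sm_u_one Sm_u_one hw, mul_comm 2, ← ev_mul_const,
    ← ev_add Sm_q ((Sm_u 1).2.mul_const 2) hw]
  congr 1
  funext n
  unfold q
  ring

theorem s_deriv {w : ℝ} (hw : |w| < rho) : HasDerivAt s (s w ^ 2 / 2 + 1 / 2 + Q w / 2) w := by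
  have h := ev_hasDerivAt Sm_cc (w := w) hw
  refine h.congr_deriv ?_
  have h1 : dv cc = fun n => (cv cc cc n * (1 / 2) + u 0 n * (1 / 2)) + q n * (1 / 2) := by
    funext n
    rw [dv_cc, cv_cc_cc, x_rec]
    ring
  rw [h1, ev_add (((Sm_cc.cv Sm_cc).mul_const _).add (Sm_u_zero.mul_const _)) (Sm_q.mul_const _) hw,
    ev_add ((Sm_cc.cv Sm_cc).mul_const _) (Sm_u_zero.mul_const _) hw,
    ev_mul_const, ev_mul_const, ev_mul_const, ev_cv Sm_cc Sm_cc hw, ev_u_zero]
  unfold s Q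
  ring

theorem Q_deriv {w : ℝ} (hw : |w| < rho) : HasDerivAt Q (2 * x w * Q w + 2 * z w) w := by
  have h := ev_hasDerivAt Sm_q (w := w) hw
  refine h.congr_deriv ?_
  have h1 : dv q = fun n => cv (u 1) q n * 2 + u 3 n * 2 := by
    funext n
    rw [q_rec]
    ring
  rw [h1, ev_add ((Sm_u_one.cv Sm_q).mul_const _) ((Sm_u 2).2.mul_const _) hw,
    ev_mul_const, ev_mul_const, ev_cv Sm_u_one Sm_q hw]
  unfold x Q z
  ring

theorem Q_nonneg {w : ℝ} (hw : 0 ≤ w) : 0 ≤ Q w := ev_nonneg q_nonneg hw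

theorem z_nonneg {w : ℝ} (hw : 0 ≤ w) : 0 ≤ z w := ev_nonneg (u_nonneg 3) hw

theorem y_nonneg {w : ℝ} (hw : 0 ≤ w) : 0 ≤ y w := ev_nonneg (u_nonneg 2) hw

theorem x_nonneg {w : ℝ} (hw : 0 ≤ w) : 0 ≤ x w := ev_nonneg (u_nonneg 1) hw

theorem Q_pos {w : ℝ} (hw : 0 < w) (hw' : w < rho) : 0 < Q w := by
  have h := Sm_q.summable (w := w) (by rwa [Real.norm_of_nonneg hw.le])
  have h1 : q 4 * w ^ 4 ≤ Q w := by
    unfold Q ev
    have := h.sum_le_tsum {4} (fun n _ => mul_nonneg (q_nonneg n) (by positivity))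
    simpa using this
  have := q_four
  have : 0 < q 4 * w ^ 4 := by positivity
  linarith

theorem Q_le {w : ℝ} (hw : 0 ≤ w) (hw' : w < rho) : Q w ≤ s w ^ 2 := by
  have h1 := Q_eq (w := w) (by rwa [abs_of_nonneg hw])
  have h2 := y_nonneg hw
  have h3 := x_nonneg hw
  rw [s_eq (by rwa [abs_of_nonneg hw])]
  nlinarith

/-- upper bound -/
theorem s_mul_le_two {w : ℝ} (hw : 0 ≤ w) (hw' : w < rho) : s w * (rho - w) ≤ 2 := by
  have hanti : AntitoneOn (fun t => (s t)⁻¹ + t / 2) (Set.Ico 0 rho) := by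
    refine antitoneOn_of_hasDerivWithinAt_nonpos (f' := fun t =>
      -(s t ^ 2 / 2 + 1 / 2 + Q t / 2) / s t ^ 2 + 1 / 2) (convex_Ico 0 rho) ?_ ?_ ?_
    · intro t ht
      have hp : s t ≠ 0 := by have := s_ge_one ht.1 ht.2; linarith
      exact (((s_deriv (by rw [abs_of_nonneg ht.1]; exact ht.2)).inv hp).add
        ((hasDerivAt_id t).div_const 2)).continuousAt.continuousWithinAt
    · intro t ht
      rw [interior_Ico] at ht
      have hp : s t ≠ 0 := by have := s_ge_one ht.1.le ht.2; linarith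
      exact (((s_deriv (by rw [abs_of_nonneg ht.1.le]; exact ht.2)).inv hp).add
        ((hasDerivAt_id t).div_const 2)).hasDerivWithinAt
    · intro t ht
      rw [interior_Ico] at ht
      have hp := s_ge_one ht.1.le ht.2
      have hQ := Q_nonneg ht.1.le
      have h5 : -(s t ^ 2 / 2 + 1 / 2 + Q t / 2) / s t ^ 2 + 1 / 2 =
          -(1 / 2 + Q t / 2) / s t ^ 2 := by field_simp; ring
      rw [h5]
      apply div_nonpos_of_nonpos_of_nonneg <;> [linarith; positivity]
  have hs := s_ge_one hw hw'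
  have key : ∀ w' ∈ Set.Ioo w rho, (w' - w) / 2 ≤ (s w)⁻¹ := by
    intro w' hw2
    have h1 := hanti ⟨hw, hw'⟩ ⟨hw.trans hw2.1.le, hw2.2⟩ hw2.1.le
    simp only at h1
    have h2 : 0 < (s w')⁻¹ := by
      have := s_ge_one (hw.trans hw2.1.le) hw2.2
      positivity
    linarith
  have h1 : (rho - w) / 2 ≤ (s w)⁻¹ := by
    refine le_of_forall_lt fun c hc => ?_
    obtain ⟨w', h2, h3⟩ := exists_between (show max w (w + 2 * c) < rho from by
      rw [max_lt_iff]; exact ⟨hw', by linarith⟩)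
    rw [max_lt_iff] at h2
    have := key w' ⟨h2.1, h3⟩
    linarith
  have h2 : s w * ((rho - w) / 2) ≤ s w * (s w)⁻¹ := by gcongr
  rw [mul_inv_cancel₀ (by linarith)] at h2
  linarith

/-- the ratio `Q / s²` -/
noncomputable def qh (w : ℝ) : ℝ := Q w / s w ^ 2

theorem qh_nonneg {w : ℝ} (hw : 0 ≤ w) : 0 ≤ qh w :=
  div_nonneg (Q_nonneg hw) (by positivity)

theorem qh_le_one {w : ℝ} (hw : 0 ≤ w) (hw' : w < rho) : qh w ≤ 1 := by
  have := s_ge_one hw hw'
  exact (div_le_one (by positivity)).2 (Q_le hw hw')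

theorem qh_deriv {w : ℝ} (hw : 0 ≤ w) (hw' : w < rho) : ∃ d, HasDerivAt qh d w ∧
    s w * qh w * (1 - qh w) - 3 * qh w ≤ d := by
  have hs := s_ge_one hw hw'
  have hab : |w| < rho := by rwa [abs_of_nonneg hw]
  have hs0 : 0 < s w := by linarith
  have h1 := (Q_deriv hab).div ((s_deriv hab).pow 2) (pow_ne_zero 2 hs0.ne')
  refine ⟨_, h1, ?_⟩
  have hz := z_nonneg hw
  have hx : x w = s w - 1 := by rw [s_eq hab]; ring
  have hQ : Q w = qh w * s w ^ 2 := by unfold qh; field_simp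
  have hq0 := qh_nonneg hw
  have hq1 := qh_le_one hw hw'
  simp only [Nat.cast_ofNat, Nat.add_one_sub_one, pow_one]
  rw [hx]
  have h5 : ((2 * (s w - 1) * Q w + 2 * z w) * s w ^ 2 -
      Q w * (2 * s w * (s w ^ 2 / 2 + 1 / 2 + Q w / 2))) / (s w ^ 2) ^ 2 =
      s w * qh w * (1 - qh w) - 2 * qh w - qh w / s w + 2 * z w / s w ^ 2 := by
    rw [hQ]
    field_simp
    ring
  have h6 : qh w / s w ≤ qh w := div_le_self hq0 hs
  have h7 : 0 ≤ 2 * z w / s w ^ 2 := by positivity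
  have h8 : ((2 * (s w - 1) * Q w + 2 * z w) * (s ^ 2) w -
      Q w * (2 * s w * (s w ^ 2 / 2 + 1 / 2 + Q w / 2))) / ((s ^ 2) w) ^ 2 =
      ((2 * (s w - 1) * Q w + 2 * z w) * s w ^ 2 -
      Q w * (2 * s w * (s w ^ 2 / 2 + 1 / 2 + Q w / 2))) / (s w ^ 2) ^ 2 := by
    simp only [Pi.pow_apply]
  rw [h8, h5]
  linarith

end Pool.Agent.T6.H85.Srtd
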