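import Mathlib
import Pool.Agent.T6.H85.Srtd.Blow

/-!
# The generating function has the behaviour of a simple pole with residue one
-/

set_option autoImplicit false

namespace Pool.Agent.T6.H85.Srtd

open Finset Filter Topology

/-- the ratio stays away from zero -/
theorem qh_lower : ∃ θ : ℝ, 0 < θ ∧ θ ≤ 1 / 4 ∧ ∀ w, 1 / 2 ≤ w → w < rho → θ ≤ qh w := by
  have h1r := one_le_rho
  have hmono : MonotoneOn (fun t => qh t * Real.exp (3 * t)) (Set.Ico (1 / 2) rho) := by
    choose! d hd1 hd2 using fun (w : ℝ) (hw : w ∈ Set.Ico (0 : ℝ) rho) => qh_deriv hw.1 hw.2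
    have hder : ∀ t ∈ Set.Ico (0 : ℝ) rho, HasDerivAt (fun t => qh t * Real.exp (3 * t))
        (d t * Real.exp (3 * t) + qh t * (Real.exp (3 * t) * (3 * 1))) t := by
      intro t ht
      exact (hd1 t ht).mul (((hasDerivAt_id t).const_mul 3).exp)
    refine monotoneOn_of_hasDerivWithinAt_nonneg (f' := fun t =>
      d t * Real.exp (3 * t) + qh t * (Real.exp (3 * t) * (3 * 1))) (convex_Ico _ _) ?_ ?_ ?_
    · intro t ht
      exact (hder t ⟨by linarith [ht.1], ht.2⟩).continuousAt.continuousWithinAt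
    · intro t ht
      rw [interior_Ico] at ht
      exact (hder t ⟨by linarith [ht.1], ht.2⟩).hasDerivWithinAt
    · intro t ht
      rw [interior_Ico] at ht
      have h0 : 0 ≤ t := by linarith [ht.1]
      have h1 := hd2 t ⟨h0, ht.2⟩
      have h2 := qh_nonneg h0
      have h3 := qh_le_one h0 ht.2
      have h4 := s_ge_one h0 ht.2
      have h5 : 0 ≤ s t * qh t * (1 - qh t) := by
        have : 0 ≤ 1 - qh t := by linarith
        positivity
      have h6 : 0 ≤ d t + 3 * qh t := by linarith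
      have h7 : d t * Real.exp (3 * t) + qh t * (Real.exp (3 * t) * (3 * 1)) =
        (d t + 3 * qh t) * Real.exp (3 * t) := by ring
      rw [h7]
      positivity
  have hq : 0 < qh (1 / 2) := by
    unfold qh
    have h1 := Q_pos (w := 1 / 2) (by norm_num) (by linarith)
    have h2 := s_ge_one (w := 1 / 2) (by norm_num) (by linarith)
    positivity
  refine ⟨min (qh (1 / 2) * Real.exp (-6)) (1 / 4), by positivity, min_le_right _ _, ?_⟩
  intro w hw hw'
  refine (min_le_left _ _).trans ?_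
  have h1 := hmono ⟨le_rfl, by linarith⟩ ⟨hw, hw'⟩ hw
  simp only at h1
  have h2 := rho_le_two
  have h3 : Real.exp (3 * w) ≤ Real.exp 6 := Real.exp_le_exp.2 (by linarith)
  have h4 : (1 : ℝ) ≤ Real.exp (3 * (1 / 2)) := Real.one_le_exp (by norm_num)
  have h5 := qh_nonneg (w := w) (by linarith)
  have h6 : qh (1 / 2) ≤ qh w * Real.exp 6 := by
    calc qh (1 / 2) ≤ qh (1 / 2) * Real.exp (3 * (1 / 2)) := le_mul_of_one_le_right hq.le h4
      _ ≤ qh w * Real.exp (3 * w) := h1
      _ ≤ qh w * Real.exp 6 := by gcongr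
  calc qh (1 / 2) * Real.exp (-6) ≤ qh w * Real.exp 6 * Real.exp (-6) := by gcongr
    _ = qh w := by rw [mul_assoc, ← Real.exp_add]; simp

theorem qh_rate : ∃ θ K : ℝ, 0 < θ ∧ ∀ w, 1 / 2 ≤ w → w < rho →
    1 - qh w ≤ K * (rho - w) ^ θ := by
  obtain ⟨θ, hθ0, hθ1, hθ⟩ := qh_lower
  have h1r := one_le_rho
  choose! d hd1 hd2 using fun (w : ℝ) (hw : w ∈ Set.Ico (0 : ℝ) rho) => qh_deriv hw.1 hw.2
  set F : ℝ → ℝ := fun t => (1 - qh t) * (rho - t) ^ (-θ) +
    3 / (1 - θ) * (rho - t) ^ (1 - θ) with hF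
  have hder : ∀ t ∈ Set.Ico (0 : ℝ) rho, HasDerivAt F
      (-(d t) * (rho - t) ^ (-θ) + (1 - qh t) * (θ * (rho - t) ^ (-θ - 1)) -
        3 * (rho - t) ^ (-θ)) t := by
    intro t ht
    have hpos : 0 < rho - t := by linarith [ht.2]
    have h1 : HasDerivAt (fun t => rho - t) (-1) t := by
      exact (hasDerivAt_id t).const_sub rho
    have h2 := h1.rpow_const (p := -θ) (Or.inl hpos.ne')
    have h3 := h1.rpow_const (p := 1 - θ) (Or.inl hpos.ne')
    have h4 : HasDerivAt (fun t => 1 - qh t) (-(d t)) t := by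
      exact (hd1 t ht).const_sub 1
    have h5 := (h4.mul h2).add (h3.const_mul (3 / (1 - θ)))
    refine h5.congr_deriv ?_
    have e1 : 1 - θ - 1 = -θ := by ring
    have e2 : 1 - θ ≠ 0 := by linarith
    rw [e1]
    field_simp
    ring
  have hanti : AntitoneOn F (Set.Ico (1 / 2) rho) := by
    refine antitoneOn_of_hasDerivWithinAt_nonpos (f' := fun t =>
      -(d t) * (rho - t) ^ (-θ) + (1 - qh t) * (θ * (rho - t) ^ (-θ - 1)) -
        3 * (rho - t) ^ (-θ)) (convex_Ico _ _) ?_ ?_ ?_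
    · intro t ht
      exact (hder t ⟨by linarith [ht.1], ht.2⟩).continuousAt.continuousWithinAt
    · intro t ht
      rw [interior_Ico] at ht
      exact (hder t ⟨by linarith [ht.1], ht.2⟩).hasDerivWithinAt
    · intro t ht
      rw [interior_Ico] at ht
      have h0 : 0 ≤ t := by linarith [ht.1]
      have hpos : 0 < rho - t := by linarith [ht.2]
      have h1 := hd2 t ⟨h0, ht.2⟩
      have h2 := qh_nonneg h0
      have h3 := qh_le_one h0 ht.2
      have h4 := one_le_s_mul h0 ht.2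
      have h5 := hθ t ht.1.le ht.2
      have e1 : (rho - t) ^ (-θ - 1) = (rho - t) ^ (-θ) / (rho - t) := by
        rw [Real.rpow_sub hpos, Real.rpow_one]
      have hp : 0 < (rho - t) ^ (-θ) := Real.rpow_pos_of_pos hpos _
      have h6 : -(d t) * (rho - t) ^ (-θ) + (1 - qh t) * (θ * (rho - t) ^ (-θ - 1)) -
        3 * (rho - t) ^ (-θ) = (rho - t) ^ (-θ) * (-(d t) + (1 - qh t) * θ / (rho - t) - 3) := by
        rw [e1]; ring
      rw [h6]
      refine mul_nonpos_of_nonneg_of_nonpos hp.le ?_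
      have h7 : θ / (rho - t) ≤ s t * qh t := by
        rw [div_le_iff₀ hpos]
        calc θ ≤ qh t * 1 := by linarith
          _ ≤ qh t * (s t * (rho - t)) := by gcongr
          _ = s t * qh t * (rho - t) := by ring
      have h8 : (1 - qh t) * θ / (rho - t) ≤ (1 - qh t) * (s t * qh t) := by
        rw [mul_div_assoc]
        exact mul_le_mul_of_nonneg_left h7 (by linarith)
      nlinarith
  refine ⟨θ, F (1 / 2), hθ0, ?_⟩
  intro w hw hw'
  have h1 := hanti ⟨le_rfl, by linarith⟩ ⟨hw, hw'⟩ hw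
  have hpos : 0 < rho - w := by linarith
  have h2 : (1 - qh w) * (rho - w) ^ (-θ) ≤ F (1 / 2) := by
    refine le_trans ?_ h1
    rw [hF]
    simp only
    have : 0 ≤ 3 / (1 - θ) * (rho - w) ^ (1 - θ) := by
      have : 0 < 1 - θ := by linarith
      positivity
    linarith
  have h3 : 0 < (rho - w) ^ θ := Real.rpow_pos_of_pos hpos _
  calc 1 - qh w = (1 - qh w) * (rho - w) ^ (-θ) * (rho - w) ^ θ := by
        rw [mul_assoc, ← Real.rpow_add hpos]; simp
    _ ≤ F (1 / 2) * (rho - w) ^ θ := by gcongr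

theorem qh_tendsto : Tendsto qh (𝓝[<] rho) (𝓝 1) := by
  obtain ⟨θ, K, hθ, h⟩ := qh_rate
  have h1r := one_le_rho
  have h1 : Tendsto (fun w => K * (rho - w) ^ θ) (𝓝[<] rho) (𝓝 0) := by
    have h2 : Tendsto (fun w : ℝ => K * (rho - w) ^ θ) (𝓝 rho) (𝓝 (K * (rho - rho) ^ θ)) := by
      have : ContinuousAt (fun w : ℝ => K * (rho - w) ^ θ) rho :=
        continuousAt_const.mul ((continuousAt_const.sub continuousAt_id).rpow_const (Or.inr hθ.le))
      exact this
    rw [sub_self, Real.zero_rpow hθ.ne', mul_zero] at h2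
    exact h2.mono_left nhdsWithin_le_nhds
  have h3 : Tendsto (fun w => 1 - qh w) (𝓝[<] rho) (𝓝 0) := by
    refine tendsto_of_tendsto_of_tendsto_of_le_of_le' tendsto_const_nhds h1 ?_ ?_
    · filter_upwards [Ioo_mem_nhdsLT (show (1 / 2 : ℝ) < rho by linarith)] with w hw
      have := qh_le_one (w := w) (by linarith [hw.1]) hw.2
      linarith
    · filter_upwards [Ioo_mem_nhdsLT (show (1 / 2 : ℝ) < rho by linarith)] with w hw
      exact h w hw.1.le hw.2
  have h4 := h3.const_sub 1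
  simpa using h4

/-- `s (w) (ρ - w) → 1` -/
theorem s_residue : Tendsto (fun w => s w * (rho - w)) (𝓝[<] rho) (𝓝 1) := by
  have h1r := one_le_rho
  rw [Metric.tendsto_nhds]
  intro ε hε
  set δ := min (ε / (2 + 2 * ε)) (1 / 2) with hδ
  have hδ0 : 0 < δ := by positivity
  have hδ1 : δ ≤ 1 / 2 := min_le_right _ _
  have hδ2 : 1 / (1 - δ) < 1 + ε := by
    have h5 : δ ≤ ε / (2 + 2 * ε) := min_le_left _ _
    rw [div_lt_iff₀ (by linarith)]
    have h6 : (1 + ε) * (ε / (2 + 2 * ε)) = ε / 2 := by field_simp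
    nlinarith
  have h1 := qh_tendsto.eventually (lt_mem_nhds (show 1 - δ < 1 by linarith))
  obtain ⟨l, hl, hl2⟩ := (mem_nhdsLT_iff_exists_Ioo_subset' (show (0 : ℝ) < rho by linarith)).1 h1
  set l' := max l (1 / 2) with hl'
  have hl'r : l' < rho := by rw [hl', max_lt_iff]; exact ⟨hl, by linarith⟩
  have hanti : AntitoneOn (fun t => (s t)⁻¹ + (1 - δ) * t) (Set.Ioo l' rho) := by
    have hder : ∀ t ∈ Set.Ioo l' rho, HasDerivAt (fun t => (s t)⁻¹ + (1 - δ) * t)
      (-(s t ^ 2 / 2 + 1 / 2 + Q t / 2) / s t ^ 2 + (1 - δ) * 1) t := by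
      intro t ht
      have h0 : 0 ≤ t := by
        have : (1 : ℝ) / 2 ≤ l' := le_max_right _ _
        linarith [ht.1]
      have hp : s t ≠ 0 := by have := s_ge_one h0 ht.2; linarith
      exact ((s_deriv (by rw [abs_of_nonneg h0]; exact ht.2)).inv hp).add
        ((hasDerivAt_id t).const_mul (1 - δ))
    refine antitoneOn_of_hasDerivWithinAt_nonpos (f' := fun t =>
      -(s t ^ 2 / 2 + 1 / 2 + Q t / 2) / s t ^ 2 + (1 - δ) * 1) (convex_Ioo _ _) ?_ ?_ ?_
    · intro t ht
      exact (hder t ht).continuousAt.continuousWithinAt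
    · intro t ht
      rw [interior_Ioo] at ht
      exact (hder t ht).hasDerivWithinAt
    · intro t ht
      rw [interior_Ioo] at ht
      have h0 : 0 ≤ t := by
        have : (1 : ℝ) / 2 ≤ l' := le_max_right _ _
        linarith [ht.1]
      have hp := s_ge_one h0 ht.2
      have h5 : 1 - δ < qh t := hl2 ⟨lt_of_le_of_lt (le_max_left _ _) ht.1, ht.2⟩
      have h6 : -(s t ^ 2 / 2 + 1 / 2 + Q t / 2) / s t ^ 2 = -1 / 2 - 1 / (2 * s t ^ 2) - qh t / 2 := by
        unfold qh; field_simp; ring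
      have h7 : 0 ≤ 1 / (2 * s t ^ 2) := by positivity
      rw [h6]
      linarith
  have hev : ∀ᶠ w in 𝓝[<] rho, w ∈ Set.Ioo l' rho := Ioo_mem_nhdsLT hl'r
  filter_upwards [hev] with w hw
  have h0 : 0 ≤ w := by
    have : (1 : ℝ) / 2 ≤ l' := le_max_right _ _
    linarith [hw.1]
  have hs := s_ge_one h0 hw.2
  have h2 := one_le_s_mul h0 hw.2
  have h3 : (1 - δ) * (rho - w) ≤ (s w)⁻¹ := by
    have key : ∀ w' ∈ Set.Ioo w rho, (1 - δ) * (w' - w) ≤ (s w)⁻¹ := by
      intro w' hw2
      have h1 := hanti hw ⟨hw.1.trans hw2.1, hw2.2⟩ hw2.1.le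
      simp only at h1
      have h2 : 0 < (s w')⁻¹ := by
        have := s_ge_one (h0.trans hw2.1.le) hw2.2
        positivity
      linarith
    refine le_of_forall_lt fun c hc => ?_
    have hc2 : w + c / (1 - δ) < rho := by
      have : c / (1 - δ) < rho - w := by rw [div_lt_iff₀ (by linarith)]; linarith
      linarith
    obtain ⟨w', h2, h3⟩ := exists_between (show max w (w + c / (1 - δ)) < rho from by
      rw [max_lt_iff]; exact ⟨hw.2, hc2⟩)
    rw [max_lt_iff] at h2
    have h4 := key w' ⟨h2.1, h3⟩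
    have h5 : c / (1 - δ) < w' - w := by linarith
    rw [div_lt_iff₀ (by linarith)] at h5
    linarith
  have h4 : s w * (rho - w) ≤ 1 / (1 - δ) := by
    rw [le_div_iff₀ (by linarith)]
    have : s w * ((1 - δ) * (rho - w)) ≤ s w * (s w)⁻¹ := by gcongr
    rw [mul_inv_cancel₀ (by linarith)] at this
    linarith
  rw [Real.dist_eq, abs_lt]
  constructor <;> linarith

theorem s_tendsto : Tendsto s (𝓝[<] rho) atTop := by
  have h1r := one_le_rho
  have h1 : Tendsto (fun w : ℝ => (rho - w)⁻¹) (𝓝[<] rho) atTop := by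
    apply tendsto_inv_nhdsGT_zero.comp
    rw [tendsto_nhdsWithin_iff]
    constructor
    · have : Tendsto (fun w : ℝ => rho - w) (𝓝 rho) (𝓝 (rho - rho)) :=
        (continuous_const.sub continuous_id).tendsto rho
      rw [sub_self] at this
      exact this.mono_left nhdsWithin_le_nhds
    · filter_upwards [self_mem_nhdsWithin] with w hw
      have : w < rho := hw
      simp only [Set.mem_Ioi]
      linarith
  refine tendsto_atTop_mono' _ ?_ h1
  filter_upwards [Ioo_mem_nhdsLT rho_pos] with w hw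
  have h2 := one_le_s_mul hw.1.le hw.2
  have h3 : 0 < rho - w := by linarith [hw.2]
  rw [inv_eq_one_div, div_le_iff₀ h3]
  exact h2

end Pool.Agent.T6.H85.Srtd
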