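import Mathlib
import Pool.Agent.T6.H85.Srtd.Blow

/-!
# The integral equation
-/

set_option autoImplicit false

namespace Pool.Agent.T6.H85.Srtd

open Finset Filter Topology
open Pool.Agent.H44R2.Stk (wds)

/-! ### A combinatorial inequality -/

open scoped Classical in
theorem X_le (k : ℕ) (S : Finset ℕ) :
    X (k + 2) S + X (k + 1) S ≤ ∑ B ∈ S.powerset, A B * X (k + 1) (S \ B) := by
  rw [← sum_U S (X (k + 1))]
  have h3 : X (k + 1) S = ∑ β ∈ U S, (if β = [] then X (k + 1) S else 0) := by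
    rw [Finset.sum_ite_eq' (U S) [] (fun _ => X (k + 1) S), if_pos]
    rw [mem_U]; simp
  have h6 : X (k + 2) S = ∑ β ∈ U S, (if (β ≠ [] ∧ Sd β ∧ ∀ x ∈ S \ β.toFinset, Sd (x :: β)) then
        X (k + 1) (S \ β.toFinset) else 0) := by
    conv_lhs => unfold X
  rw [h6]
  conv_lhs => rw [h3]
  rw [← Finset.sum_add_distrib]
  refine Finset.sum_le_sum fun β _ => ?_
  by_cases h4 : β = []
  · subst h4
    simp [Sd.nil]
  · by_cases h5 : Sd β
    · simp only [h4, h5, if_true, if_false, add_zero]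
      split_ifs <;> simp
    · simp [h4, h5]

theorem xx_le (k n : ℕ) : xx (k + 2) n + xx (k + 1) n ≤
    ∑ j ∈ range (n + 1), n.choose j * (aa j * xx (k + 1) (n - j)) := by
  have h1 := X_le k (range n)
  rw [rhs_eq n (fun j _ => card_inv j) (range n) (by simp)] at h1
  exact h1

theorem u_le (k n : ℕ) : u (k + 2) n ≤ cv (u 1) (u (k + 1)) n := by
  have h1 := xx_le k n
  have h2 : ((xx (k + 2) n + xx (k + 1) n : ℕ) : ℝ) / (n.factorial : ℝ) ≤
      ((∑ j ∈ range (n + 1), n.choose j * (aa j * xx (k + 1) (n - j)) : ℕ) : ℝ) /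
        (n.factorial : ℝ) := by
    gcongr
  rw [Nat.cast_add, add_div, cv_scaled aa (xx (k + 1))] at h2
  have h3 := cv_cc (u (k + 1)) n
  have h4 : cv (fun i => (aa i : ℝ) / (i.factorial : ℝ))
    (fun i => (xx (k + 1) i : ℝ) / (i.factorial : ℝ)) n = cv cc (u (k + 1)) n := rfl
  rw [h4, h3] at h2
  unfold u at h2 ⊢
  linarith

/-! ### The functions -/

/-- generating functions of chains -/
noncomputable def ch (k : ℕ) (w : ℝ) : ℝ := ev (u k) w

theorem ch_nonneg (k : ℕ) {w : ℝ} (hw : 0 ≤ w) : 0 ≤ ch k w := ev_nonneg (u_nonneg k) hw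

theorem ev_mono_coef {f g : ℕ → ℝ} {R : ℝ} (hf : Sm f R) (hg : Sm g R) (h : ∀ n, f n ≤ g n)
    {w : ℝ} (hw : 0 ≤ w) (hw' : w < R) : ev f w ≤ ev g w := by
  unfold ev
  refine (hf.summable (by rwa [Real.norm_of_nonneg hw])).tsum_le_tsum (fun n => ?_)
    (hg.summable (by rwa [Real.norm_of_nonneg hw]))
  exact mul_le_mul_of_nonneg_right (h n) (by positivity)

theorem ev_mono {f : ℕ → ℝ} {R : ℝ} (hf : Sm f R) (h0 : ∀ n, 0 ≤ f n)
    {w w' : ℝ} (hw : 0 ≤ w) (hww : w ≤ w') (hw' : w' < R) : ev f w ≤ ev f w' := by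
  unfold ev
  refine (hf.summable (by rw [Real.norm_of_nonneg hw]; linarith)).tsum_le_tsum (fun n => ?_)
    (hf.summable (by rwa [Real.norm_of_nonneg (hw.trans hww)]))
  exact mul_le_mul_of_nonneg_left (pow_le_pow_left₀ hw hww n) (h0 n)

theorem ch_le (k : ℕ) {w : ℝ} (hw : 0 ≤ w) (hw' : w < rho) : ch k w ≤ x w ^ k := by
  have hab : ‖w‖ < rho := by rwa [Real.norm_of_nonneg hw]
  have key : ∀ k, ch (k + 1) w ≤ x w ^ (k + 1) := by
    intro k
    induction k with
    | zero => simp [ch, x]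
    | succ k ih =>
      have h1 := ev_mono_coef (Sm_u (k + 2)).1 (Sm_u_one.cv (Sm_u (k + 1)).1) (u_le k) hw hw'
      rw [ev_cv Sm_u_one (Sm_u (k + 1)).1 hab] at h1
      have h2 : ev (u 1) w = x w := rfl
      rw [h2] at h1
      have h3 : x w * ch (k + 1) w ≤ x w * x w ^ (k + 1) :=
        mul_le_mul_of_nonneg_left ih (x_nonneg hw)
      calc ch (k + 1 + 1) w ≤ x w * ch (k + 1) w := h1
        _ ≤ x w * x w ^ (k + 1) := h3
        _ = x w ^ (k + 1 + 1) := by ring
  cases k with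
  | zero => simp [ch, ev_u_zero]
  | succ k => exact key k

theorem ch_zero (w : ℝ) : ch 0 w = 1 := ev_u_zero w

theorem ch_succ_at_zero (k : ℕ) : ch (k + 1) 0 = 0 := by
  unfold ch ev
  have : (fun n => u (k + 1) n * (0 : ℝ) ^ n) = fun _ => 0 := by
    funext n
    cases n with
    | zero => simp [u_succ_zero]
    | succ n => simp
  rw [this, tsum_zero]

theorem ch_deriv (k : ℕ) {w : ℝ} (hw : |w| < rho) :
    HasDerivAt (ch (k + 1)) (s w * ch k w + s w * ch (k + 1) w - ch (k + 1) w - ch (k + 2) w) w := by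
  have h := ev_hasDerivAt (Sm_u (k + 1)).1 (w := w) hw
  refine h.congr_deriv ?_
  have h1 : dv (u (k + 1)) = fun n => ((cv cc (u k) n + cv cc (u (k + 1)) n) +
      u (k + 1) n * (-1)) + u (k + 2) n * (-1) := by
    funext n
    have := u_rec k n
    linarith
  have s0 := Sm_cc.cv (Sm_u k).1
  have s1 := Sm_cc.cv (Sm_u (k + 1)).1
  have s2 := ((Sm_u (k + 1)).1).mul_const (-1)
  have s3 := ((Sm_u (k + 2)).1).mul_const (-1)
  rw [h1, ev_add ((s0.add s1).add s2) s3 hw, ev_add (s0.add s1) s2 hw, ev_add s0 s1 hw,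
    ev_cv Sm_cc (Sm_u k).1 hw, ev_cv Sm_cc (Sm_u (k + 1)).1 hw, ev_mul_const, ev_mul_const]
  unfold s ch
  ring

/-- coefficients of the antiderivative -/
noncomputable def sc : ℕ → ℝ
  | 0 => 0
  | (n + 1) => cc n / ((n : ℝ) + 1)

theorem sc_nonneg (n : ℕ) : 0 ≤ sc n := by
  cases n with
  | zero => simp [sc]
  | succ n => unfold sc; have := cc_nonneg n; positivity

theorem Sm_sc : Sm sc rho := by
  intro r hr0 hr
  rw [← summable_nat_add_iff 1]
  refine Summable.of_nonneg_of_le (fun n => by positivity) (fun n => ?_)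
    ((Sm_cc r hr0 hr).mul_left r)
  have h1 : ‖sc (n + 1)‖ ≤ ‖cc n‖ := by
    unfold sc
    rw [norm_div]
    apply div_le_self (norm_nonneg _)
    rw [Real.norm_of_nonneg (by positivity)]
    linarith [(Nat.cast_nonneg n : (0 : ℝ) ≤ n)]
  calc ‖sc (n + 1)‖ * r ^ (n + 1) ≤ ‖cc n‖ * r ^ (n + 1) := by gcongr
    _ = r * (‖cc n‖ * r ^ n) := by ring

theorem dv_sc (n : ℕ) : dv sc n = cc n := by
  unfold dv sc
  have : ((n : ℝ) + 1) ≠ 0 := by positivity
  field_simp

/-- `S(w) = ∑ a_n w^{n+1}/(n+1)!` -/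
noncomputable def Sf (w : ℝ) : ℝ := ev sc w

theorem Sf_deriv {w : ℝ} (hw : |w| < rho) : HasDerivAt Sf (s w) w := by
  have h := ev_hasDerivAt Sm_sc (w := w) hw
  refine h.congr_deriv ?_
  have : dv sc = cc := funext dv_sc
  rw [this]; rfl

theorem Sf_zero : Sf 0 = 0 := by
  unfold Sf ev
  have : (fun n => sc n * (0 : ℝ) ^ n) = fun _ => 0 := by
    funext n
    cases n with
    | zero => simp [sc]
    | succ n => simp
  rw [this, tsum_zero]

theorem Sf_nonneg {w : ℝ} (hw : 0 ≤ w) : 0 ≤ Sf w := ev_nonneg sc_nonneg hw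

/-- `h(w) = exp (w - S(w))` -/
noncomputable def h (w : ℝ) : ℝ := Real.exp (w - Sf w)

theorem h_deriv {w : ℝ} (hw : |w| < rho) : HasDerivAt h ((1 - s w) * h w) w := by
  have h1 := (((hasDerivAt_id w).sub (Sf_deriv hw)).exp)
  refine h1.congr_deriv ?_
  unfold h
  simp only [Pi.sub_apply, id]
  ring

/-- `Φ_k = h χ_k` -/
noncomputable def Ph (k : ℕ) (w : ℝ) : ℝ := h w * ch k w

theorem Ph_zero_deriv {w : ℝ} (hw : |w| < rho) : HasDerivAt (Ph 0) (-(Ph 1 w)) w := by
  have e : Ph 0 = h := by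
    funext t
    unfold Ph
    rw [ch_zero, mul_one]
  rw [e]
  refine (h_deriv hw).congr_deriv ?_
  unfold Ph
  have : ch 1 w = x w := rfl
  rw [this, s_eq hw]
  ring

theorem Ph_deriv (k : ℕ) {w : ℝ} (hw : |w| < rho) :
    HasDerivAt (Ph (k + 1)) (s w * Ph k w - Ph (k + 2) w) w := by
  refine ((h_deriv hw).mul (ch_deriv k hw)).congr_deriv ?_
  unfold Ph
  ring

/-! ### Bessel type functions -/

/-- coefficients -/
noncomputable def b (l j : ℕ) : ℝ := 1 / ((j.factorial : ℝ) * ((j + l).factorial : ℝ))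

/-- `B_l(v) = ∑ v^j / (j! (j+l)!)` -/
noncomputable def B (l : ℕ) (v : ℝ) : ℝ := ∑' j : ℕ, v ^ j / ((j.factorial : ℝ) * ((j + l).factorial : ℝ))

theorem B_eq (l : ℕ) (v : ℝ) : B l v = ev (b l) v := by
  unfold B ev b
  exact tsum_congr fun j => by ring

theorem b_nonneg (l j : ℕ) : 0 ≤ b l j := by unfold b; positivity

theorem b_le (l j : ℕ) : b l j ≤ 1 / (l.factorial : ℝ) * (1 / (j.factorial : ℝ)) := by
  unfold b
  rw [one_div_mul_one_div, mul_comm (l.factorial : ℝ)]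
  gcongr
  omega

theorem Sm_b (l : ℕ) (R : ℝ) : Sm (b l) R := by
  intro r hr0 hr
  refine Summable.of_nonneg_of_le (fun n => by positivity) (fun n => ?_)
    ((Real.summable_pow_div_factorial r).mul_left (1 / (l.factorial : ℝ)))
  rw [Real.norm_of_nonneg (b_nonneg l n)]
  calc b l n * r ^ n ≤ (1 / (l.factorial : ℝ) * (1 / (n.factorial : ℝ))) * r ^ n := by
        gcongr; exact b_le l n
    _ = _ := by ring

theorem B_le {l : ℕ} {v : ℝ} (hv : 0 ≤ v) : B l v ≤ Real.exp v / (l.factorial : ℝ) := by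
  rw [B_eq, Real.exp_eq_exp_ℝ, NormedSpace.exp_eq_tsum_div, ev, ← tsum_div_const]
  refine ((Sm_b l (v + 1)).summable (by rw [Real.norm_of_nonneg hv]; linarith)).tsum_le_tsum
    (fun n => ?_) ((Real.summable_pow_div_factorial v).div_const _)
  calc b l n * v ^ n ≤ (1 / (l.factorial : ℝ) * (1 / (n.factorial : ℝ))) * v ^ n := by
        gcongr; exact b_le l n
    _ = _ := by ring

theorem B_nonneg {l : ℕ} {v : ℝ} (hv : 0 ≤ v) : 0 ≤ B l v := by
  rw [B_eq]; exact ev_nonneg (b_nonneg l) hv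

theorem B_deriv (l : ℕ) (v : ℝ) : HasDerivAt (B l) (B (l + 1) v) v := by
  have h1 := ev_hasDerivAt (Sm_b l (|v| + 1)) (w := v) (by rw [Real.norm_eq_abs]; linarith)
  have e : B l = ev (b l) := funext (B_eq l)
  rw [e, B_eq]
  refine h1.congr_deriv ?_
  congr 1
  funext j
  unfold dv b
  rw [Nat.factorial_succ, show j + 1 + l = j + (l + 1) by ring]
  push_cast
  field_simp

theorem B_at_zero (l : ℕ) : B l 0 = 1 / (l.factorial : ℝ) := by
  unfold B
  rw [tsum_eq_single 0]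
  · simp
  · intro j hj
    simp [hj]

theorem B_rec (l : ℕ) (v : ℝ) : B l v = ((l : ℝ) + 1) * B (l + 1) v + v * B (l + 2) v := by
  have s1 := Sm_b (l + 1) (|v| + 1)
  have s2 := Sm_b (l + 2) (|v| + 1)
  have hv : ‖v‖ < |v| + 1 := by rw [Real.norm_eq_abs]; linarith
  rw [B_eq, B_eq, B_eq]
  unfold ev
  have t0 := (Sm_b l (|v| + 1)).summable hv
  have t1 := s1.summable hv
  have t2 := s2.summable hv
  rw [t0.tsum_eq_zero_add, t1.tsum_eq_zero_add, ← tsum_mul_left, mul_add, ← tsum_mul_left, add_assoc,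
    ← ((((summable_nat_add_iff 1).2 t1).mul_left _).tsum_add (t2.mul_left _))]
  congr 1
  · unfold b
    rw [zero_add, zero_add, Nat.factorial_succ]
    push_cast
    field_simp
  · refine tsum_congr fun j => ?_
    unfold b
    rw [show j + 1 + (l + 1) = (j + 1 + l) + 1 by ring, show j + (l + 2) = (j + 1 + l) + 1 by ring,
      Nat.factorial_succ (j + 1 + l), Nat.factorial_succ j]
    push_cast
    field_simp
    ring

theorem B_continuous (l : ℕ) : Continuous (B l) :=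
  continuous_iff_continuousAt.2 fun v => (B_deriv l v).continuousAt

end Pool.Agent.T6.H85.Srtd
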