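import Mathlib
import Pool.Agent.T6.H85.Srtd.Volt
import Pool.Agent.T6.H85.Srtd.Blow2

/-!
# Bounds on the real axis near the singularity
-/

set_option autoImplicit false

namespace Pool.Agent.T6.H85.Srtd

open Filter Topology

theorem h_pos (w : ℝ) : 0 < h w := Real.exp_pos _

theorem h_le_one {w : ℝ} (hw : 0 ≤ w) (hw' : w < rho) : h w ≤ 1 := by
  have hanti : AntitoneOn h (Set.Ico 0 rho) := by
    refine antitoneOn_of_hasDerivWithinAt_nonpos (f' := fun t => (1 - s t) * h t)
      (convex_Ico 0 rho) ?_ ?_ ?_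
    · intro t ht
      exact (h_deriv (by rw [abs_of_nonneg ht.1]; exact ht.2)).continuousAt.continuousWithinAt
    · intro t ht
      rw [interior_Ico] at ht
      exact (h_deriv (by rw [abs_of_nonneg ht.1.le]; exact ht.2)).hasDerivWithinAt
    · intro t ht
      rw [interior_Ico] at ht
      have hs := s_ge_one ht.1.le ht.2
      have := h_pos t
      nlinarith
  have h1 := hanti ⟨le_rfl, rho_pos⟩ ⟨hw, hw'⟩ hw
  have h0 : h 0 = 1 := by unfold h; rw [Sf_zero]; simp
  linarith

theorem Ph_nonneg (k : ℕ) {w : ℝ} (hw : 0 ≤ w) : 0 ≤ Ph k w :=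
  mul_nonneg (h_pos w).le (ch_nonneg k hw)

theorem Ph_one_le {w : ℝ} (hw : 0 ≤ w) (hw' : w < rho) : Ph 1 w ≤ 3 := by
  have hanti : AntitoneOn (fun t => Ph 1 t + h t - t) (Set.Ico 0 rho) := by
    refine antitoneOn_of_hasDerivWithinAt_nonpos (f' := fun t => (s t * Ph 0 t - Ph 2 t) +
      (1 - s t) * h t - 1)
      (convex_Ico 0 rho) ?_ ?_ ?_
    · intro t ht
      have hab : |t| < rho := by rw [abs_of_nonneg ht.1]; exact ht.2
      exact (((Ph_deriv 0 hab).add (h_deriv hab)).sub (hasDerivAt_id t)).continuousAt.continuousWithinAt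
    · intro t ht
      rw [interior_Ico] at ht
      have hab : |t| < rho := by rw [abs_of_nonneg ht.1.le]; exact ht.2
      exact (((Ph_deriv 0 hab).add (h_deriv hab)).sub (hasDerivAt_id t)).hasDerivWithinAt
    · intro t ht
      rw [interior_Ico] at ht
      have h1 := Ph_nonneg 2 ht.1.le
      have h2 := h_le_one ht.1.le ht.2
      have h3 : Ph 0 t = h t := by unfold Ph; rw [ch_zero, mul_one]
      rw [h3]
      nlinarith
  have h1 := hanti ⟨le_rfl, rho_pos⟩ ⟨hw, hw'⟩ hw
  have h0 : h 0 = 1 := by unfold h; rw [Sf_zero]; simp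
  have h2 : Ph 1 0 = 0 := by unfold Ph; rw [ch_succ_at_zero, mul_zero]
  simp only [h0, h2] at h1
  have h3 := h_pos w
  have h4 := rho_le_two
  linarith

theorem Ph_two_le {w : ℝ} (hw : 0 ≤ w) (hw' : w < rho) : Ph 2 w ≤ 3 * Sf w := by
  have hanti : AntitoneOn (fun t => Ph 2 t - 3 * Sf t) (Set.Ico 0 rho) := by
    refine antitoneOn_of_hasDerivWithinAt_nonpos (f' := fun t => (s t * Ph 1 t - Ph 3 t) -
      3 * s t)
      (convex_Ico 0 rho) ?_ ?_ ?_
    · intro t ht
      have hab : |t| < rho := by rw [abs_of_nonneg ht.1]; exact ht.2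
      exact ((Ph_deriv 1 hab).sub ((Sf_deriv hab).const_mul 3)).continuousAt.continuousWithinAt
    · intro t ht
      rw [interior_Ico] at ht
      have hab : |t| < rho := by rw [abs_of_nonneg ht.1.le]; exact ht.2
      exact ((Ph_deriv 1 hab).sub ((Sf_deriv hab).const_mul 3)).hasDerivWithinAt
    · intro t ht
      rw [interior_Ico] at ht
      have h1 := Ph_nonneg 3 ht.1.le
      have h2 := Ph_one_le ht.1.le ht.2
      have h3 := s_ge_one ht.1.le ht.2
      nlinarith
  have h1 := hanti ⟨le_rfl, rho_pos⟩ ⟨hw, hw'⟩ hw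
  have h2 : Ph 2 0 = 0 := by unfold Ph; rw [ch_succ_at_zero, mul_zero]
  simp only [h2, Sf_zero] at h1
  linarith

theorem Sf_mono {v w : ℝ} (hv : 0 ≤ v) (h : v ≤ w) (hw : w < rho) : Sf v ≤ Sf w :=
  ev_mono Sm_sc sc_nonneg hv h hw

theorem Sf_log : ∃ C : ℝ, ∀ w, 0 ≤ w → w < rho → Sf w ≤ C - 9 / 8 * Real.log (rho - w) := by
  have h1 : ∀ᶠ w in 𝓝[<] rho, s w * (rho - w) < 9 / 8 :=
    s_residue.eventually_lt_const (by norm_num)
  have h2 : ∀ᶠ w in 𝓝[<] rho, 0 ≤ w := by
    filter_upwards [Ioo_mem_nhdsLT rho_pos] with w hw using hw.1.le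
  obtain ⟨w0, hw0, hI⟩ := (mem_nhdsLT_iff_exists_Ioo_subset).1 (h1.and h2)
  -- choose a point inside
  obtain ⟨w1, hw1, hw2⟩ := exists_between (show max w0 0 < rho from max_lt hw0 rho_pos)
  rw [max_lt_iff] at hw1
  refine ⟨Sf w1 + 9 / 8 * |Real.log (rho - w1)| + 9 / 8 * |Real.log rho|, ?_⟩
  intro w hw hw'
  have ha : -|Real.log (rho - w1)| ≤ Real.log (rho - w1) := neg_abs_le _
  have hb : Real.log rho ≤ |Real.log rho| := le_abs_self _
  have hb0 := abs_nonneg (Real.log rho)
  have ha0 := abs_nonneg (Real.log (rho - w1))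
  rcases le_or_gt w w1 with h | h
  · have h3 := Sf_mono hw h hw2
    have h4 : Real.log (rho - w) ≤ Real.log rho := Real.log_le_log (by linarith) (by linarith)
    linarith
  · have hanti : AntitoneOn (fun t => Sf t + 9 / 8 * Real.log (rho - t)) (Set.Ico w1 rho) := by
      have hd : ∀ t ∈ Set.Ico w1 rho, HasDerivAt (fun t => Sf t + 9 / 8 * Real.log (rho - t))
          (s t + 9 / 8 * ((-1) / (rho - t))) t := by
        intro t ht
        have hab : |t| < rho := by rw [abs_of_nonneg (hw1.2.le.trans ht.1)]; exact ht.2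
        have h5 : rho - t ≠ 0 := by have := ht.2; linarith
        exact (Sf_deriv hab).add ((((hasDerivAt_id t).const_sub rho).log h5).const_mul (9 / 8))
      refine antitoneOn_of_hasDerivWithinAt_nonpos (f' := fun t => s t + 9 / 8 * ((-1) / (rho - t)))
        (convex_Ico w1 rho) ?_ ?_ ?_
      · intro t ht
        exact (hd t ht).continuousAt.continuousWithinAt
      · intro t ht
        rw [interior_Ico] at ht
        exact (hd t ⟨ht.1.le, ht.2⟩).hasDerivWithinAt
      · intro t ht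
        rw [interior_Ico] at ht
        have h6 := (hI ⟨hw1.1.trans ht.1, ht.2⟩).1
        have h7 : 0 < rho - t := by have := ht.2; linarith
        have h8 : s t ≤ 9 / 8 / (rho - t) := by rw [le_div_iff₀ h7]; exact h6.le
        have h9 : 9 / 8 * ((-1) / (rho - t)) = -(9 / 8 / (rho - t)) := by ring
        rw [h9]; linarith
    have h5 := hanti ⟨le_rfl, hw2⟩ ⟨h.le, hw'⟩ h.le
    simp only at h5
    have h6 : Real.log (rho - w1) ≤ |Real.log (rho - w1)| := le_abs_self _
    linarith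

/-- fourth root of the distance to the singularity -/
noncomputable def qq (w : ℝ) : ℝ := (rho - w) ^ (1 / 4 : ℝ)

theorem qq_pos {w : ℝ} (hw : w < rho) : 0 < qq w := Real.rpow_pos_of_pos (by linarith) _

theorem qq_pow {w : ℝ} (hw : w < rho) : qq w ^ 4 = rho - w := by
  unfold qq
  rw [← Real.rpow_natCast, ← Real.rpow_mul (by linarith)]
  norm_num

theorem y_eq_ch (w : ℝ) : y w = ch 2 w := rfl

theorem y_bound : ∃ K : ℝ, 1 ≤ K ∧ ∀ w, 0 ≤ w → w < rho → y w ≤ K / qq w ^ 5 := by
  obtain ⟨C, hC⟩ := Sf_log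
  refine ⟨27 * Real.exp (10 / 9 * C) + 1, by have := Real.exp_pos (10 / 9 * C); linarith, ?_⟩
  intro w hw hw'
  have h1 : y w = Ph 2 w * Real.exp (Sf w - w) := by
    unfold Ph h
    rw [y_eq_ch, mul_comm (Real.exp _), mul_assoc, ← Real.exp_add]
    simp
  have hS := Sf_nonneg hw
  have h2 : Real.exp (Sf w - w) ≤ Real.exp (Sf w) := Real.exp_le_exp.2 (by linarith)
  have h3 : Sf w / 9 + 1 ≤ Real.exp (Sf w / 9) := Real.add_one_le_exp _
  have h4 : y w ≤ 27 * Real.exp (10 / 9 * Sf w) := by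
    rw [h1]
    have h5 := Ph_two_le hw hw'
    have h6 := Ph_nonneg 2 hw
    calc Ph 2 w * Real.exp (Sf w - w) ≤ (3 * Sf w) * Real.exp (Sf w) := by gcongr
      _ ≤ (27 * Real.exp (Sf w / 9)) * Real.exp (Sf w) :=
          mul_le_mul_of_nonneg_right (by linarith) (Real.exp_pos _).le
      _ = 27 * Real.exp (10 / 9 * Sf w) := by
          rw [mul_assoc, ← Real.exp_add]; congr 2; ring
  have h5 : Real.exp (10 / 9 * Sf w) ≤ Real.exp (10 / 9 * C) / qq w ^ 5 := by
    have hpos : 0 < rho - w := by linarith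
    have h6 : qq w ^ 5 = Real.exp (5 / 4 * Real.log (rho - w)) := by
      unfold qq
      rw [← Real.rpow_natCast, ← Real.rpow_mul hpos.le, Real.rpow_def_of_pos hpos]
      congr 1
      push_cast; ring
    rw [h6, ← Real.exp_sub]
    apply Real.exp_le_exp.2
    have := hC w hw hw'
    linarith
  have h6 : (27 * Real.exp (10 / 9 * C) + 1) / qq w ^ 5 =
      27 * (Real.exp (10 / 9 * C) / qq w ^ 5) + 1 / qq w ^ 5 := by ring
  rw [h6]
  have := qq_pos hw'
  have h7 : 0 < 1 / qq w ^ 5 := by positivity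
  linarith

end Pool.Agent.T6.H85.Srtd
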