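import Mathlib
import Pool.Agent.T6.H85.Srtd.System

/-!
# Inserting a smallest letter into a sorted word

A sorted word with `n ≥ 1` letters has at least `(n + 1) / 2` places where a new smallest letter can
be inserted so that the word remains sorted. Hence `a_{n+1} ≥ (n + 1) / 2 * a_n`.
-/

set_option autoImplicit false

namespace Pool.Agent.T6.H85.Srtd

open Finset Pool.Agent.H44R2.Stk Pool.Agent.H409R2.Stk
open scoped Classical

/-- insertion of `z` at place `i` -/
def ins (z : ℕ) (w : List ℕ) (i : ℕ) : List ℕ := w.take i ++ z :: w.drop i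

/-- places where `z` can be inserted -/
noncomputable def Ipl (z : ℕ) (w : List ℕ) : Finset ℕ :=
  (range w.length).filter fun i => Sd (ins z w i)

theorem ins_append_left {z : ℕ} {α γ : List ℕ} {i : ℕ} (hi : i < α.length) :
    ins z (α ++ γ) i = ins z α i ++ γ := by
  unfold ins
  rw [List.take_append_of_le_length hi.le, List.drop_append_of_le_length hi.le]
  simp

theorem ins_append_right {z : ℕ} {α γ : List ℕ} (j : ℕ) :
    ins z (α ++ γ) (α.length + j) = α ++ ins z γ j := by
  unfold ins
  rw [List.take_length_add_append, List.drop_length_add_append]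
  simp

theorem mem_ins {z : ℕ} {w : List ℕ} {i x : ℕ} : x ∈ ins z w i ↔ x = z ∨ x ∈ w := by
  unfold ins
  conv_rhs => rw [← List.take_append_drop i w]
  simp only [List.mem_append, List.mem_cons]
  tauto

theorem card_Ipl_one {z m : ℕ} {γ : List ℕ} (h : Sd γ) (hm : ∀ x ∈ γ, x < m) (hz : z < m)
    (hc : γ.length + 1 ≤ 2 * (Ipl z γ).card) :
    (γ ++ [m]).length + 1 ≤ 2 * (Ipl z (γ ++ [m])).card := by
  have h1 : insert γ.length (Ipl z γ) ⊆ Ipl z (γ ++ [m]) := by
    intro i hi
    rw [mem_insert] at hi
    unfold Ipl
    rw [mem_filter, mem_range]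
    rcases hi with rfl | hi
    · refine ⟨by simp, ?_⟩
      have := ins_append_right (z := z) (α := γ) (γ := [m]) 0
      rw [add_zero] at this
      rw [this]
      exact Sd.node γ [z] m h (Sd.singleton z) hm (by simpa using hz)
    · unfold Ipl at hi
      rw [mem_filter, mem_range] at hi
      refine ⟨by rw [List.length_append]; omega, ?_⟩
      rw [ins_append_left hi.1]
      have := Sd.node (ins z γ i) [] m hi.2 Sd.nil (by
        intro x hx
        rw [mem_ins] at hx
        rcases hx with rfl | hx
        · exact hz
        · exact hm x hx) (by simp)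
      simpa using this
  have h2 : γ.length ∉ Ipl z γ := by
    unfold Ipl; simp
  have h3 := card_le_card h1
  rw [card_insert_of_notMem h2] at h3
  rw [List.length_append, List.length_singleton]
  omega

theorem Sd.card_Ipl {w : List ℕ} (h : Sd w) : ∀ z, (∀ x ∈ w, z < x) → w ≠ [] →
    w.length + 1 ≤ 2 * (Ipl z w).card := by
  induction h with
  | nil => intro z _ h; exact absurd rfl h
  | node α β m hα hβ h1 h2 ihα ihβ =>
    intro z hz _
    have hzm : z < m := hz m (by simp)
    by_cases hα0 : α = []
    · subst hα0
      by_cases hβ0 : β = []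
      · subst hβ0
        have : 0 ∈ Ipl z ([] ++ ([] ++ [m])) := by
          unfold Ipl
          rw [mem_filter]
          refine ⟨by simp, ?_⟩
          exact Sd.node [z] [] m (Sd.singleton z) Sd.nil (by simpa using hzm) (by simp)
        have h3 : 1 ≤ (Ipl z ([] ++ ([] ++ [m]))).card := card_pos.2 ⟨0, this⟩
        have h4 : ([] ++ ([] ++ [m]) : List ℕ).length = 1 := by simp
        omega
      · rw [List.nil_append]
        exact card_Ipl_one hβ h2 hzm (ihβ z (fun x hx => hz x (by simp [hx])) hβ0)
    · by_cases hβ0 : β = []
      · subst hβ0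
        rw [List.nil_append]
        exact card_Ipl_one hα h1 hzm (ihα z (fun x hx => hz x (by simp [hx])) hα0)
      · have c1 := ihα z (fun x hx => hz x (by simp [hx])) hα0
        have c2 := ihβ z (fun x hx => hz x (by simp [hx])) hβ0
        have h3 : Ipl z α ∪ (Ipl z β).image (fun j => α.length + j) ⊆ Ipl z (α ++ (β ++ [m])) := by
          intro i hi
          rw [mem_union, mem_image] at hi
          unfold Ipl
          rw [mem_filter, mem_range]
          rcases hi with hi | ⟨j, hj, rfl⟩
          · unfold Ipl at hi
            rw [mem_filter, mem_range] at hi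
            refine ⟨by simp only [List.length_append]; omega, ?_⟩
            rw [ins_append_left hi.1]
            exact Sd.node _ _ _ hi.2 hβ (by
              intro x hx
              rw [mem_ins] at hx
              rcases hx with rfl | hx
              · exact hzm
              · exact h1 x hx) h2
          · unfold Ipl at hj
            rw [mem_filter, mem_range] at hj
            refine ⟨by simp only [List.length_append]; omega, ?_⟩
            rw [ins_append_right, ins_append_left hj.1]
            exact Sd.node _ _ _ hα hj.2 h1 (by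
              intro x hx
              rw [mem_ins] at hx
              rcases hx with rfl | hx
              · exact hzm
              · exact h2 x hx)
        have h4 : Disjoint (Ipl z α) ((Ipl z β).image (fun j => α.length + j)) := by
          rw [disjoint_left]
          intro i hi hi'
          unfold Ipl at hi
          rw [mem_filter, mem_range] at hi
          rw [mem_image] at hi'
          obtain ⟨j, -, rfl⟩ := hi'
          omega
        have h5 := card_le_card h3
        rw [card_union_of_disjoint h4, card_image_of_injective _ (add_right_injective _)] at h5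
        simp only [List.length_append, List.length_singleton]
        omega

theorem ins_inj {w w' : List ℕ} {i i' : ℕ} {z : ℕ} (hi : i < w.length) (hi' : i' < w'.length)
    (hw : z ∉ w) (hw' : z ∉ w') (h : ins z w i = ins z w' i') : w = w' ∧ i = i' := by
  have e1 : (ins z w i).erase z = w := by
    unfold ins
    rw [List.erase_append_right _ (fun hh => hw (List.mem_of_mem_take hh))]
    simp
  have e2 : (ins z w' i').erase z = w' := by
    unfold ins
    rw [List.erase_append_right _ (fun hh => hw' (List.mem_of_mem_take hh))]
    simp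
  have f1 : (ins z w i).idxOf z = i := by
    unfold ins
    rw [List.idxOf_append_of_notMem (fun hh => hw (List.mem_of_mem_take hh))]
    simp; omega
  have f2 : (ins z w' i').idxOf z = i' := by
    unfold ins
    rw [List.idxOf_append_of_notMem (fun hh => hw' (List.mem_of_mem_take hh))]
    simp; omega
  constructor
  · rw [← e1, ← e2, h]
  · rw [← f1, ← f2, h]

theorem nodup_ins {z : ℕ} {w : List ℕ} {i : ℕ} (hw : w.Nodup) (hz : z ∉ w) : (ins z w i).Nodup := by
  unfold ins
  rw [List.nodup_middle, List.take_append_drop]
  exact List.nodup_cons.2 ⟨hz, hw⟩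

theorem aa_ge (n : ℕ) (hn : 1 ≤ n) : (n + 1) * aa n ≤ 2 * aa (n + 1) := by
  have hc : (Icc 1 n).card = n := by simp
  have hA : A (Icc 1 n) = aa n := (card_inv n (Icc 1 n) hc).1
  set F := (wds (Icc 1 n)).filter Sd with hF
  set F' := (wds (range (n + 1))).filter Sd with hF'
  have hcF : F.card = aa n := by rw [← hA]; rfl
  have hcF' : F'.card = aa (n + 1) := rfl
  have hprop : ∀ w ∈ F, Sd w ∧ w.Nodup ∧ w.toFinset = Icc 1 n ∧ w.length = n ∧ 0 ∉ w := by
    intro w hw
    rw [hF, mem_filter, mem_wds] at hw
    refine ⟨hw.2, hw.1.1, hw.1.2, ?_, ?_⟩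
    · rw [← List.toFinset_card_of_nodup hw.1.1, hw.1.2, hc]
    · intro h0
      rw [← List.mem_toFinset, hw.1.2] at h0
      simp at h0
  have h1 : ∑ w ∈ F, (Ipl 0 w).card ≤ F'.card := by
    rw [← card_sigma]
    refine card_le_card_of_injOn (fun p : (_ : List ℕ) × ℕ => ins 0 p.1 p.2) ?_ ?_
    · rintro ⟨w, i⟩ hp
      rw [mem_coe, mem_sigma] at hp
      simp only at hp
      obtain ⟨h1, h2, h3, h4, h5⟩ := hprop w hp.1
      have hi := hp.2
      unfold Ipl at hi
      rw [mem_filter, mem_range] at hi
      rw [mem_coe, hF', mem_filter, mem_wds]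
      refine ⟨⟨nodup_ins h2 h5, ?_⟩, hi.2⟩
      ext x
      rw [List.mem_toFinset]
      simp only [mem_ins]
      rw [← List.mem_toFinset, h3, mem_Icc, mem_range]
      omega
    · rintro ⟨w, i⟩ hp ⟨w', i'⟩ hp' he
      rw [mem_coe, mem_sigma] at hp hp'
      simp only at hp hp' he
      obtain ⟨h1, h2, h3, h4, h5⟩ := hprop w hp.1
      obtain ⟨h1', h2', h3', h4', h5'⟩ := hprop w' hp'.1
      have hi := hp.2
      have hi' := hp'.2
      unfold Ipl at hi hi'
      rw [mem_filter, mem_range] at hi hi'
      obtain ⟨rfl, rfl⟩ := ins_inj hi.1 hi'.1 h5 h5' he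
      rfl
  have h2 : (n + 1) * aa n ≤ 2 * ∑ w ∈ F, (Ipl 0 w).card := by
    rw [mul_comm (n + 1), ← hcF, ← smul_eq_mul, mul_sum, ← sum_const]
    refine sum_le_sum fun w hw => ?_
    obtain ⟨h1, h2, h3, h4, h5⟩ := hprop w hw
    have := h1.card_Ipl 0 (fun x hx => by
      rw [← List.mem_toFinset, h3, mem_Icc] at hx; omega) (by
      intro h; rw [h] at h4; simp at h4; omega)
    rw [h4] at this
    exact this
  rw [← hcF']
  omega

theorem cc_half (n : ℕ) : cc n / 2 ≤ cc (n + 1) := by
  rcases Nat.eq_zero_or_pos n with h0 | hpos
  · subst h0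
    have h1 : cc 1 = 1 := by
      have h2 := rec_x 0
      unfold dv at h2
      rw [u_succ_zero, u_zero_zero, u_succ_zero] at h2
      simp [cv, u_succ_zero] at h2
      rw [cc_eq, u_zero_succ, zero_add, h2]
    rw [cc_zero]; norm_num
    rw [h1]; norm_num
  · have h := aa_ge n hpos
    unfold cc
    rw [Nat.factorial_succ]
    have h2 : ((n : ℝ) + 1) * aa n ≤ 2 * aa (n + 1) := by exact_mod_cast h
    push_cast
    rw [div_div, div_le_div_iff₀ (by positivity) (by positivity)]
    have h3 : (0 : ℝ) < n.factorial := by positivity
    nlinarith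
end Pool.Agent.T6.H85.Srtd
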