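import Mathlib
import Pool.Agent.T6.H85.Srtd.Ins
import Pool.Agent.T6.H85.Srtd.Asy

/-!
# The generating functions in the complex disc
-/

set_option autoImplicit false

namespace Pool.Agent.T6.H85.Srtd

open Filter Topology

/-- complex coefficients -/
noncomputable def cx (f : ℕ → ℝ) (n : ℕ) : ℂ := (f n : ℂ)

theorem Sm.cx {f : ℕ → ℝ} {R : ℝ} (hf : Sm f R) : Sm (cx f) R := by
  intro r h0 hr
  refine (hf r h0 hr).congr fun n => ?_
  unfold Srtd.cx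
  rw [Complex.norm_real]

theorem cv_cx (f g : ℕ → ℝ) (n : ℕ) : cv (cx f) (cx g) n = cx (cv f g) n := by
  unfold cv cx
  push_cast
  rfl

theorem dv_cx (f : ℕ → ℝ) (n : ℕ) : dv (cx f) n = cx (dv f) n := by
  unfold dv cx
  push_cast
  rfl

theorem norm_ev_cx_le {f : ℕ → ℝ} {R : ℝ} (hf : Sm f R) (h0 : ∀ n, 0 ≤ f n) {w : ℂ} (hw : ‖w‖ < R) :
    ‖ev (cx f) w‖ ≤ ev f ‖w‖ := by
  unfold ev
  have h1 := hf.cx.norm_summable hw
  refine (norm_tsum_le_tsum_norm h1).trans (le_of_eq (tsum_congr fun n => ?_))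
  unfold cx
  rw [norm_mul, norm_pow, Complex.norm_real, Real.norm_of_nonneg (h0 n)]

theorem ev_cx_real {f : ℕ → ℝ} (r : ℝ) : ev (cx f) (r : ℂ) = ((ev f r : ℝ) : ℂ) := by
  unfold ev cx
  rw [Complex.ofReal_tsum]
  exact tsum_congr fun n => by push_cast; rfl

theorem ev_neg {𝕜 : Type*} [RCLike 𝕜] (u : ℕ → 𝕜) (w : 𝕜) : ev (fun n => - u n) w = - ev u w := by
  unfold ev
  rw [← tsum_neg]
  exact tsum_congr fun n => by ring

theorem Sm.neg {𝕜 : Type*} [RCLike 𝕜] {u : ℕ → 𝕜} {R : ℝ} (h : Sm u R) : Sm (fun n => - u n) R := by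
  intro r h0 hr
  refine (h r h0 hr).congr fun n => ?_
  rw [norm_neg]

/-- `s` in the complex disc -/
noncomputable def sC (w : ℂ) : ℂ := ev (cx cc) w

/-- `y` in the complex disc -/
noncomputable def yC (w : ℂ) : ℂ := ev (cx (u 2)) w

theorem dv_cc_eq (n : ℕ) : dv cc n = cv cc cc n - cc n + u 0 n - u 2 n := by
  have h1 : dv cc n = dv (u 1) n := by
    unfold dv
    rw [cc_eq, u_zero_succ, zero_add]
  have h2 := rec_x n
  have h3 := cv_cc cc n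
  have h4 : cv (u 1) cc n = cv cc (u 1) n := cv_comm _ _ _
  have h5 := cv_cc (u 1) n
  have h6 := cc_eq n
  linarith

theorem sC_deriv {w : ℂ} (hw : ‖w‖ < rho) : HasDerivAt sC (sC w ^ 2 - sC w + 1 - yC w) w := by
  have h := ev_hasDerivAt Sm_cc.cx (w := w) hw
  refine h.congr_deriv ?_
  have h1 : dv (cx cc) = fun n => ((cv (cx cc) (cx cc) n + -(cx cc n)) + cx (u 0) n) + -(cx (u 2) n) := by
    funext n
    rw [dv_cx, cv_cx]
    unfold cx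
    rw [dv_cc_eq]
    push_cast
    ring
  have s1 := Sm_cc.cx.cv Sm_cc.cx
  have s2 := Sm_cc.cx.neg
  have s3 := Sm_u_zero.cx
  have s4 := (Sm_u 2).1.cx.neg
  rw [h1, ev_add ((s1.add s2).add s3) s4 hw, ev_add (s1.add s2) s3 hw, ev_add s1 s2 hw,
    ev_cv Sm_cc.cx Sm_cc.cx hw, ev_neg, ev_neg]
  have h0 : ev (cx (u 0)) w = 1 := by
    unfold ev
    rw [tsum_eq_single 0]
    · simp [cx, u_zero_zero]
    · intro n hn
      obtain ⟨m, rfl⟩ := Nat.exists_eq_succ_of_ne_zero hn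
      simp [cx, u_zero_succ]
  rw [h0]
  unfold sC yC
  ring

theorem norm_sC_le {w : ℂ} (hw : ‖w‖ < rho) : ‖sC w‖ ≤ s ‖w‖ := norm_ev_cx_le Sm_cc cc_nonneg hw

theorem norm_yC_le {w : ℂ} (hw : ‖w‖ < rho) : ‖yC w‖ ≤ y ‖w‖ :=
  norm_ev_cx_le (Sm_u 2).1 (u_nonneg 2) hw

theorem sC_real (r : ℝ) : sC (r : ℂ) = ((s r : ℝ) : ℂ) := ev_cx_real r

/-- coefficients of `(1 - w / 2) s` -/
noncomputable def g2 : ℕ → ℝ
  | 0 => cc 0
  | (n + 1) => cc (n + 1) - cc n / 2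

theorem g2_nonneg (n : ℕ) : 0 ≤ g2 n := by
  cases n with
  | zero => exact cc_nonneg 0
  | succ n => unfold g2; have := cc_half n; linarith

theorem g2_le (n : ℕ) : g2 n ≤ cc n := by
  cases n with
  | zero => exact le_rfl
  | succ n => unfold g2; have := cc_nonneg n; linarith

theorem Sm_g2 : Sm g2 rho := Sm_of_le Sm_cc g2_nonneg g2_le

theorem g2_zero : g2 0 = cc 0 := rfl

theorem g2_succ (n : ℕ) : g2 (n + 1) = cc (n + 1) - cc n / 2 := rfl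

theorem ev_g2 {𝕜 : Type*} [RCLike 𝕜] {w : 𝕜} (hs : Summable (fun n => ((cc n : ℝ) : 𝕜) * w ^ n)) :
    ∑' n, ((g2 n : ℝ) : 𝕜) * w ^ n = (1 - w / 2) * ∑' n, ((cc n : ℝ) : 𝕜) * w ^ n := by
  have hsh : Summable (fun n => ((cc (n + 1) : ℝ) : 𝕜) * w ^ (n + 1)) :=
    (summable_nat_add_iff (f := fun n => ((cc n : ℝ) : 𝕜) * w ^ n) 1).2 hs
  have hs2 : Summable (fun n => (w / 2) * (((cc n : ℝ) : 𝕜) * w ^ n)) := hs.mul_left _
  have e : ∀ n, ((g2 (n + 1) : ℝ) : 𝕜) * w ^ (n + 1) = ((cc (n + 1) : ℝ) : 𝕜) * w ^ (n + 1) -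
      (w / 2) * (((cc n : ℝ) : 𝕜) * w ^ n) := by
    intro n
    rw [g2_succ]
    push_cast
    ring
  have hsg : Summable (fun n => ((g2 (n + 1) : ℝ) : 𝕜) * w ^ (n + 1)) := by
    simp_rw [e]
    exact hsh.sub hs2
  have hsg' : Summable (fun n => ((g2 n : ℝ) : 𝕜) * w ^ n) :=
    (summable_nat_add_iff (f := fun n => ((g2 n : ℝ) : 𝕜) * w ^ n) 1).1 hsg
  rw [hsg'.tsum_eq_zero_add]
  simp_rw [e]
  rw [hsh.tsum_sub hs2, tsum_mul_left]
  have h2 := hs.tsum_eq_zero_add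
  rw [g2_zero]
  linear_combination -h2

theorem sC_half {w : ℂ} (hw : ‖w‖ < rho) : ‖sC w‖ * ‖1 - w / 2‖ ≤ s ‖w‖ * (1 - ‖w‖ / 2) := by
  have h1 := ev_g2 (𝕜 := ℂ) (w := w) (Sm_cc.cx.summable hw)
  have hn : ‖(‖w‖ : ℝ)‖ < rho := by rwa [norm_norm]
  have h2 := ev_g2 (𝕜 := ℝ) (w := ‖w‖) (Sm_cc.summable hn)
  have h3 : ‖ev (cx g2) w‖ ≤ ev g2 ‖w‖ := norm_ev_cx_le Sm_g2 g2_nonneg hw
  have h4 : ev (cx g2) w = (1 - w / 2) * sC w := h1
  have h5 : ev g2 ‖w‖ = (1 - ‖w‖ / 2) * s ‖w‖ := h2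
  rw [h4, h5, norm_mul] at h3
  linarith

end Pool.Agent.T6.H85.Srtd
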