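import Mathlib
import Pool.Agent.T6.H85.Srtd.Cplx

/-!
# Behaviour near the singularity, off the real axis
-/

set_option autoImplicit false

namespace Pool.Agent.T6.H85.Srtd

open Filter Topology Complex

theorem qq_tendsto : Tendsto qq (𝓝[<] rho) (𝓝 0) := by
  have h1 : ContinuousAt qq rho := by
    unfold qq
    exact (continuousAt_const.sub continuousAt_id).rpow_const (Or.inr (by norm_num))
  have h2 : qq rho = 0 := by
    unfold qq
    rw [sub_self, Real.zero_rpow (by norm_num)]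
  have h3 := h1.tendsto
  rw [h2] at h3
  exact h3.mono_left nhdsWithin_le_nhds

theorem ev_lt_rho : ∀ᶠ r in 𝓝[<] rho, 1 / 2 < r ∧ r < rho := by
  have : (1 / 2 : ℝ) < rho := lt_of_lt_of_le (by norm_num) one_le_rho
  exact Ioo_mem_nhdsLT this

/-- points of the circle of radius `r` -/
noncomputable def pt (r θ : ℝ) : ℂ := (r : ℂ) * exp ((θ : ℂ) * I)

theorem norm_pt {r θ : ℝ} (hr : 0 ≤ r) : ‖pt r θ‖ = r := by
  unfold pt
  rw [norm_mul, norm_exp_ofReal_mul_I, mul_one, norm_real, Real.norm_of_nonneg hr]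

theorem pt_zero (r : ℝ) : pt r 0 = (r : ℂ) := by unfold pt; simp

theorem pt_deriv (r ς t : ℝ) : HasDerivAt (fun t : ℝ => pt r (ς * t)) (((ς : ℂ) * I) * pt r (ς * t)) t := by
  unfold pt
  have h0 : HasDerivAt (fun t : ℝ => ((ς * t : ℝ) : ℂ) * I) ((ς : ℂ) * I) t := by
    have h1 : HasDerivAt (fun t : ℝ => ((t : ℝ) : ℂ)) 1 t := by
      exact ofRealCLM.hasDerivAt (x := t)
    have h2 := (h1.const_mul (ς : ℂ)).mul_const I
    simp only [mul_one] at h2
    refine h2.congr_of_eventuallyEq (Eventually.of_forall fun t => ?_)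
    push_cast; ring
  have h3 := (h0.cexp).const_mul (r : ℂ)
  refine h3.congr_deriv ?_
  ring

theorem dist_pt {r θ : ℝ} (hr : 0 ≤ r) : rho - r ≤ ‖(rho : ℂ) - pt r θ‖ := by
  have h1 : ‖(rho : ℂ)‖ - ‖pt r θ‖ ≤ ‖(rho : ℂ) - pt r θ‖ := norm_sub_norm_le _ _
  rwa [norm_pt hr, norm_real, Real.norm_of_nonneg rho_pos.le] at h1

theorem near_aux {K : ℝ} (hK : ∀ w, 0 ≤ w → w < rho → y w ≤ K / qq w ^ 5) (hK1 : 1 ≤ K)
    {r A ε : ℝ} (hr0 : 0 ≤ r) (hr : r < rho) (hA : 0 < A) (hε : 0 < ε) (hε1 : ε ≤ 1)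
    (hq1 : qq r ≤ 1) (hq2 : (3 + K) * qq r ^ 3 ≤ ε * Real.exp (-(9 * A)))
    (hs : |s r * (rho - r) - 1| ≤ ε * Real.exp (-(9 * A))) {ς : ℝ} (hς : |ς| = 1)
    {t : ℝ} (ht : t ∈ Set.Icc 0 (A * (rho - r))) :
    ‖sC (pt r (ς * t)) - ((rho : ℂ) - pt r (ς * t))⁻¹‖ ≤ ε / (rho - r) := by
  set δ := rho - r with hδ
  have hδ0 : 0 < δ := by linarith
  set q := qq r with hq
  have hq0 : 0 < q := qq_pos hr
  have hq4 : q ^ 4 = δ := qq_pow hr
  set ε₂ := ε * Real.exp (-(9 * A)) with hε₂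
  have hε₂0 : 0 < ε₂ := by positivity
  set f : ℝ → ℂ := fun t => sC (pt r (ς * t)) - ((rho : ℂ) - pt r (ς * t))⁻¹ with hf
  set f' : ℝ → ℂ := fun t => ((ς : ℂ) * I * pt r (ς * t)) *
    ((sC (pt r (ς * t)) ^ 2 - sC (pt r (ς * t)) + 1 - yC (pt r (ς * t))) -
      (((rho : ℂ) - pt r (ς * t))⁻¹) ^ 2) with hf'
  have hnpt : ∀ t : ℝ, ‖pt r (ς * t)‖ = r := fun t => norm_pt hr0
  have hne : ∀ t : ℝ, (rho : ℂ) - pt r (ς * t) ≠ 0 := by
    intro t h0
    have := dist_pt (r := r) (θ := ς * t) hr0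
    rw [h0, norm_zero] at this
    linarith
  have hder : ∀ t : ℝ, HasDerivAt f (f' t) t := by
    intro t
    have h1 := pt_deriv r ς t
    have h2 := (sC_deriv (w := pt r (ς * t)) (by rw [hnpt]; exact hr)).comp t h1
    have h3 := ((h1.const_sub (rho : ℂ)).inv (hne t))
    refine (h2.sub h3).congr_deriv ?_
    have := hne t
    simp only [hf']
    field_simp
  have hbound : ∀ t : ℝ, ‖f' t‖ ≤ 2 * (‖f t‖ ^ 2 + 2 * ‖f t‖ / δ + (2 / δ + 1 + K / q ^ 5)) := by
    intro t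
    set w := pt r (ς * t) with hw
    set g := ((rho : ℂ) - w)⁻¹ with hg
    have hgn : ‖g‖ ≤ 1 / δ := by
      rw [hg, norm_inv, ← one_div]
      exact one_div_le_one_div_of_le hδ0 (dist_pt hr0)
    have hwn : ‖w‖ = r := hnpt t
    have hsn : ‖sC w‖ ≤ 2 / δ := by
      refine (norm_sC_le (by rw [hwn]; exact hr)).trans ?_
      rw [hwn, le_div_iff₀ hδ0]
      exact s_mul_le_two hr0 hr
    have hyn : ‖yC w‖ ≤ K / q ^ 5 := by
      refine (norm_yC_le (by rw [hwn]; exact hr)).trans ?_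
      rw [hwn]
      exact hK r hr0 hr
    have hft : f t = sC w - g := rfl
    have h1 : (sC w ^ 2 - sC w + 1 - yC w) - g ^ 2 =
        f t * (f t + 2 * g) + (1 - sC w - yC w) := by rw [hft]; ring
    have h2 : ‖f' t‖ = ‖(ς : ℂ) * I * w‖ * ‖(sC w ^ 2 - sC w + 1 - yC w) - g ^ 2‖ := by
      rw [← norm_mul]
    have h3 : ‖(ς : ℂ) * I * w‖ ≤ 2 := by
      rw [norm_mul, norm_mul, norm_I, hwn, norm_real, Real.norm_eq_abs, hς]
      linarith [rho_le_two]
    have h4 : ‖f t * (f t + 2 * g) + (1 - sC w - yC w)‖ ≤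
        ‖f t‖ ^ 2 + 2 * ‖f t‖ / δ + (2 / δ + 1 + K / q ^ 5) := by
      have a1 : ‖f t * (f t + 2 * g)‖ ≤ ‖f t‖ * (‖f t‖ + 2 * (1 / δ)) := by
        rw [norm_mul]
        gcongr
        refine (norm_add_le _ _).trans ?_
        gcongr
        rw [norm_mul]
        simpa using hgn
      have a2 : ‖(1 - sC w - yC w)‖ ≤ 1 + 2 / δ + K / q ^ 5 := by
        refine (norm_sub_le _ _).trans ?_
        refine add_le_add ((norm_sub_le _ _).trans ?_) hyn
        rw [norm_one]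
        linarith
      refine (norm_add_le _ _).trans ?_
      have a3 : ‖f t‖ * (‖f t‖ + 2 * (1 / δ)) = ‖f t‖ ^ 2 + 2 * ‖f t‖ / δ := by ring
      linarith
    rw [h2, h1]
    have h5 := norm_nonneg (f t * (f t + 2 * g) + (1 - sC w - yC w))
    calc ‖(ς : ℂ) * I * w‖ * ‖f t * (f t + 2 * g) + (1 - sC w - yC w)‖
        ≤ 2 * ‖f t * (f t + 2 * g) + (1 - sC w - yC w)‖ := by gcongr
      _ ≤ _ := by gcongr
  have hB : ∀ t : ℝ, HasDerivAt (fun t => ε₂ / δ * Real.exp (9 / δ * t))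
      (ε₂ / δ * (Real.exp (9 / δ * t) * (9 / δ * 1))) t := by
    intro t
    exact (((hasDerivAt_id t).const_mul (9 / δ)).exp).const_mul (ε₂ / δ)
  have hBle : ∀ t ∈ Set.Icc 0 (A * δ), ε₂ / δ * Real.exp (9 / δ * t) ≤ ε / δ := by
    intro t ht
    have h1 : 9 / δ * t ≤ 9 * A := by
      rw [div_mul_eq_mul_div, div_le_iff₀ hδ0]
      linarith [ht.2]
    have h2 : Real.exp (9 / δ * t) ≤ Real.exp (9 * A) := Real.exp_le_exp.2 h1
    calc ε₂ / δ * Real.exp (9 / δ * t) ≤ ε₂ / δ * Real.exp (9 * A) := by gcongr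
      _ = ε / δ * (Real.exp (-(9 * A)) * Real.exp (9 * A)) := by rw [hε₂]; ring
      _ = ε / δ := by rw [← Real.exp_add]; simp
  have hfin := image_norm_le_of_norm_deriv_right_lt_deriv_boundary (f := f) (f' := f')
    (a := 0) (b := A * δ) (B := fun t => ε₂ / δ * Real.exp (9 / δ * t))
    (B' := fun t => ε₂ / δ * (Real.exp (9 / δ * t) * (9 / δ * 1)))
    (fun t _ => (hder t).continuousAt.continuousWithinAt)
    (fun t _ => (hder t).hasDerivWithinAt) ?_ hB ?_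
  · exact (hfin ht).trans (hBle t ht)
  · -- start
    have h1 : f 0 = ((s r - 1 / δ : ℝ) : ℂ) := by
      simp only [hf, mul_zero, pt_zero]
      rw [sC_real]
      push_cast
      rw [hδ]
      push_cast
      ring
    simp only [mul_zero, Real.exp_zero, mul_one]
    rw [h1, norm_real, Real.norm_eq_abs]
    have h2 : s r - 1 / δ = (s r * δ - 1) / δ := by field_simp
    rw [h2, abs_div, abs_of_pos hδ0]
    gcongr
  · intro t ht hfB
    have htI : t ∈ Set.Icc 0 (A * δ) := ⟨ht.1, ht.2.le⟩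
    set B := ε₂ / δ * Real.exp (9 / δ * t) with hBdef
    have h1 := hbound t
    rw [hfB] at h1
    refine lt_of_le_of_lt h1 ?_
    have hB1 : B ≤ 1 / δ := (hBle t htI).trans (by gcongr)
    have hB0 : 0 < B := by positivity
    have hB2 : ε₂ / δ ≤ B := by
      rw [hBdef]
      have : (1 : ℝ) ≤ Real.exp (9 / δ * t) := Real.one_le_exp (mul_nonneg (by positivity) ht.1)
      exact le_mul_of_one_le_right (by positivity) this
    have e1 : ε₂ / δ * (Real.exp (9 / δ * t) * (9 / δ * 1)) = 9 * (B / δ) := by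
      rw [hBdef]; ring
    rw [e1]
    have e2 : B ^ 2 ≤ B / δ := by
      rw [sq, div_eq_mul_one_div]
      exact mul_le_mul_of_nonneg_left hB1 hB0.le
    have e3 : 2 / δ + 1 + K / q ^ 5 ≤ B / δ := by
      have f1 : ε₂ / δ / δ ≤ B / δ := by gcongr
      refine le_trans ?_ f1
      have f2 : ε₂ / δ / δ = ε₂ / q ^ 8 := by
        rw [← hq4, div_div]; ring
      have f3 : 2 / δ + 1 + K / q ^ 5 ≤ (3 + K) / q ^ 5 := by
        have g1 : 1 / δ ≤ 1 / q ^ 5 := by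
          rw [← hq4]
          apply one_div_le_one_div_of_le (by positivity)
          calc q ^ 5 = q ^ 4 * q := by ring
            _ ≤ q ^ 4 * 1 := by gcongr
            _ = q ^ 4 := by ring
        have g2 : 1 ≤ 1 / q ^ 5 := by
          rw [le_div_iff₀ (by positivity), one_mul]
          exact pow_le_one₀ hq0.le hq1
        have g3 : 2 / δ = 2 * (1 / δ) := by ring
        have g4 : (3 + K) / q ^ 5 = 2 * (1 / q ^ 5) + 1 / q ^ 5 + K / q ^ 5 := by ring
        rw [g3, g4]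
        linarith
      refine f3.trans ?_
      rw [f2, div_le_div_iff₀ (by positivity) (by positivity)]
      calc (3 + K) * q ^ 8 = ((3 + K) * q ^ 3) * q ^ 5 := by ring
        _ ≤ ε₂ * q ^ 5 := by gcongr
    have e4 : 2 * B / δ = 2 * (B / δ) := by ring
    have e5 : 0 < B / δ := by positivity
    rw [e4]
    linarith

/-- `s (w) = 1 / (ρ - w) + o (1 / (ρ - |w|))` in sectors at `ρ`. -/
theorem near_pole (A ε : ℝ) (hA : 0 < A) (hε : 0 < ε) (hε1 : ε ≤ 1) :
    ∀ᶠ r in 𝓝[<] rho, ∀ θ : ℝ, |θ| ≤ A * (rho - r) →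
      ‖sC (pt r θ) - ((rho : ℂ) - pt r θ)⁻¹‖ ≤ ε / (rho - r) := by
  obtain ⟨K, hK1, hK⟩ := y_bound
  have hε₂0 : 0 < ε * Real.exp (-(9 * A)) := by positivity
  have h1 : ∀ᶠ r in 𝓝[<] rho, qq r < 1 := qq_tendsto.eventually_lt_const (by norm_num)
  have h2 : ∀ᶠ r in 𝓝[<] rho, (3 + K) * qq r ^ 3 < ε * Real.exp (-(9 * A)) := by
    have : Tendsto (fun r => (3 + K) * qq r ^ 3) (𝓝[<] rho) (𝓝 ((3 + K) * 0 ^ 3)) :=
      (qq_tendsto.pow 3).const_mul _
    refine this.eventually_lt_const ?_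
    simpa using hε₂0
  have h3 : ∀ᶠ r in 𝓝[<] rho, |s r * (rho - r) - 1| < ε * Real.exp (-(9 * A)) := by
    have := (Metric.tendsto_nhds.1 s_residue) _ hε₂0
    filter_upwards [this] with r hr
    rwa [Real.dist_eq] at hr
  filter_upwards [h1, h2, h3, ev_lt_rho] with r g1 g2 g3 g4 θ hθ
  have hr0 : 0 ≤ r := by linarith [g4.1]
  rcases le_or_gt 0 θ with h | h
  · rw [abs_of_nonneg h] at hθ
    have := near_aux hK hK1 hr0 g4.2 hA hε hε1 g1.le g2.le g3.le (ς := 1) (by simp)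
      (t := θ) ⟨h, hθ⟩
    rwa [one_mul] at this
  · rw [abs_of_neg h] at hθ
    have := near_aux hK hK1 hr0 g4.2 hA hε hε1 g1.le g2.le g3.le (ς := -1) (by simp)
      (t := -θ) ⟨by linarith, hθ⟩
    have e : (-1 : ℝ) * -θ = θ := by ring
    rwa [e] at this

end Pool.Agent.T6.H85.Srtd
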