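import Mathlib
import Pool.Agent.T6.H85.Srtd.Near

/-!
# A Riccati comparison along rays
-/

set_option autoImplicit false

namespace Pool.Agent.T6.H85.Srtd

open Filter Topology Complex

theorem qq_deriv {t : ℝ} (ht : t < rho) : HasDerivAt qq (-(1 / (4 * qq t ^ 3))) t := by
  have h0 : rho - t ≠ 0 := by linarith
  have h1 := ((hasDerivAt_id t).const_sub rho).rpow_const (p := (1 / 4 : ℝ)) (Or.inl h0)
  refine h1.congr_deriv ?_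
  have hq := qq_pos ht
  have hq4 := qq_pow ht
  have h2 : (rho - t) ^ ((1 / 4 : ℝ) - 1) = qq t / (rho - t) := by
    rw [Real.rpow_sub_one h0]; rfl
  simp only [id]
  rw [h2, ← hq4]
  field_simp

theorem qq_anti {t t' : ℝ} (h : t ≤ t') (h' : t' < rho) : qq t' ≤ qq t := by
  unfold qq
  exact Real.rpow_le_rpow (by linarith) (by linarith) (by norm_num)

theorem ray_deriv (θ t : ℝ) : HasDerivAt (fun t : ℝ => pt t θ) (exp ((θ : ℂ) * I)) t := by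
  unfold pt
  have h1 : HasDerivAt (fun t : ℝ => ((t : ℝ) : ℂ)) 1 t := ofRealCLM.hasDerivAt (x := t)
  refine (h1.mul_const _).congr_deriv ?_
  ring

theorem norm_f_deriv {K : ℝ} (hK : ∀ w, 0 ≤ w → w < rho → y w ≤ K / qq w ^ 5) {θ t : ℝ}
    (ht0 : 0 ≤ t) (ht : t < rho) :
    HasDerivAt (fun t => sC (pt t θ)) ((sC (pt t θ) ^ 2 - sC (pt t θ) + 1 - yC (pt t θ)) *
      exp ((θ : ℂ) * I)) t ∧
    ‖(sC (pt t θ) ^ 2 - sC (pt t θ) + 1 - yC (pt t θ)) * exp ((θ : ℂ) * I)‖ ≤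
      ‖sC (pt t θ)‖ ^ 2 + ‖sC (pt t θ)‖ + 1 + K / qq t ^ 5 := by
  have hn : ‖pt t θ‖ = t := norm_pt ht0
  refine ⟨(sC_deriv (w := pt t θ) (by rw [hn]; exact ht)).comp t (ray_deriv θ t), ?_⟩
  rw [norm_mul, norm_exp_ofReal_mul_I, mul_one]
  have hy : ‖yC (pt t θ)‖ ≤ K / qq t ^ 5 := by
    refine (norm_yC_le (by rw [hn]; exact ht)).trans ?_
    rw [hn]; exact hK t ht0 ht
  refine (norm_sub_le _ _).trans (add_le_add ?_ hy)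
  refine (norm_add_le _ _).trans ?_
  rw [norm_one]
  have := norm_sub_le (sC (pt t θ) ^ 2) (sC (pt t θ))
  rw [norm_pow] at this
  linarith

theorem ric_ineq {K κ δ₁ q q₁ d L : ℝ} (hK1 : 1 ≤ K) (hκ0 : 0 < κ) (hκ1 : κ ≤ 1) (hδ₁0 : 0 < δ₁)
    (hq : 0 < q) (hq₁0 : 0 < q₁) (hDt : 0 < d) (hq₁4 : q₁ ^ 4 = δ₁) (hqle : q ≤ q₁)
    (hd1 : κ * δ₁ ≤ d) (hd2 : d ≤ 2 * δ₁) (hL : L = 64 * K)
    (hc1 : L ^ 2 * q₁ ^ 3 ≤ κ ^ 2) (hc2 : 4 * q₁ ≤ κ) :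
    (d⁻¹ + L * δ₁ ^ 2 * (q⁻¹ * (d ^ 2)⁻¹)) ^ 2 + (d⁻¹ + L * δ₁ ^ 2 * (q⁻¹ * (d ^ 2)⁻¹)) + 1 +
      K / q ^ 5 < 1 / d ^ 2 + L * δ₁ ^ 2 *
      (1 / (4 * q ^ 5) * (d ^ 2)⁻¹ + q⁻¹ * (2 / d ^ 3)) := by
  have hL0 : 64 ≤ L := by linarith
  set T := δ₁ ^ 2 / (q ^ 5 * d ^ 2) with hT
  have hT0 : 0 < T := by positivity
  have hT1 : 1 / q ^ 5 ≤ 4 * T := by
    rw [hT, ← mul_div_assoc, div_le_div_iff₀ (by positivity) (by positivity)]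
    have : d ^ 2 ≤ 4 * δ₁ ^ 2 := by nlinarith
    nlinarith [pow_pos hq 5]
  have e1 : 1 / d ^ 2 + L * δ₁ ^ 2 *
    (1 / (4 * q ^ 5) * (d ^ 2)⁻¹ + q⁻¹ * (2 / d ^ 3)) = 1 / d ^ 2 + L * T / 4 + 2 * L * δ₁ ^ 2 / (q * d ^ 3) := by
    rw [hT]; field_simp; try ring
  have e2 : (d⁻¹ + L * δ₁ ^ 2 * (q⁻¹ * (d ^ 2)⁻¹)) ^ 2 = 1 / d ^ 2 + 2 * L * δ₁ ^ 2 / (q * d ^ 3) +
      L ^ 2 * δ₁ ^ 4 / (q ^ 2 * d ^ 4) := by
    field_simp; try ring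
  have e3 : L ^ 2 * δ₁ ^ 4 / (q ^ 2 * d ^ 4) ≤ T := by
    have f1 : L ^ 2 * δ₁ ^ 4 / (q ^ 2 * d ^ 4) = T * (L ^ 2 * q ^ 3 * (δ₁ ^ 2 / d ^ 2)) := by
      rw [hT]; field_simp
    rw [f1]
    refine mul_le_of_le_one_right hT0.le ?_
    have f2 : δ₁ ^ 2 / d ^ 2 ≤ 1 / κ ^ 2 := by
      rw [div_le_div_iff₀ (by positivity) (by positivity)]
      have : (κ * δ₁) ^ 2 ≤ d ^ 2 := by gcongr
      linarith [this, mul_pow κ δ₁ 2]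
    calc L ^ 2 * q ^ 3 * (δ₁ ^ 2 / d ^ 2) ≤ L ^ 2 * q₁ ^ 3 * (1 / κ ^ 2) := by gcongr
      _ ≤ κ ^ 2 * (1 / κ ^ 2) := by gcongr
      _ = 1 := by field_simp
  have hq1le : q₁ ≤ 1 / 4 := by linarith
  have e4 : (1 : ℝ) ≤ T := by
    have f1 : (4 : ℝ) ≤ 1 / q ^ 5 := by
      rw [le_div_iff₀ (by positivity)]
      have : q ^ 5 ≤ (1 / 4) ^ 5 := by gcongr; linarith
      linarith [show ((1 : ℝ) / 4) ^ 5 ≤ 1 / 4 by norm_num]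
    linarith
  have e5 : d⁻¹ ≤ T := by
    have f1 : d⁻¹ ≤ 1 / (κ * δ₁) := by
      rw [← one_div]; exact one_div_le_one_div_of_le (by positivity) hd1
    have f2 : 1 / (κ * δ₁) ≤ 1 / (4 * q ^ 5) := by
      apply one_div_le_one_div_of_le (by positivity)
      calc 4 * q ^ 5 ≤ 4 * q₁ ^ 5 := by gcongr
        _ = (4 * q₁) * q₁ ^ 4 := by ring
        _ ≤ κ * δ₁ := by rw [hq₁4]; gcongr
    have f3 : 1 / (4 * q ^ 5) = (1 / q ^ 5) / 4 := by field_simp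
    linarith
  have e6 : L * δ₁ ^ 2 * (q⁻¹ * (d ^ 2)⁻¹) ≤ T := by
    have f1 : L * δ₁ ^ 2 * (q⁻¹ * (d ^ 2)⁻¹) = T * (L * q ^ 4) := by
      rw [hT]; field_simp
    rw [f1]
    refine mul_le_of_le_one_right hT0.le ?_
    calc L * q ^ 4 ≤ L * q₁ ^ 4 := by gcongr
      _ = (L * q₁) * q₁ ^ 3 := by ring
      _ ≤ (L * L) * q₁ ^ 3 := by gcongr; linarith
      _ = L ^ 2 * q₁ ^ 3 := by ring
      _ ≤ κ ^ 2 := hc1
      _ ≤ 1 := pow_le_one₀ hκ0.le hκ1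
  have e7 : K / q ^ 5 ≤ 4 * K * T := by
    have : K / q ^ 5 = K * (1 / q ^ 5) := by ring
    rw [this]
    nlinarith
  rw [e1, e2]
  have e8 : L * T / 4 = 16 * K * T := by rw [hL]; ring
  rw [e8]
  have e9 : T ≤ K * T := by nlinarith
  nlinarith

theorem ric {K : ℝ} (hK : ∀ w, 0 ≤ w → w < rho → y w ≤ K / qq w ^ 5) (hK1 : 1 ≤ K)
    {κ r₁ θ : ℝ} (hκ0 : 0 < κ) (hκ1 : κ ≤ 1) (hr0 : 0 ≤ r₁) (hr1 : r₁ < rho)
    (hc1 : (64 * K) ^ 2 * qq r₁ ^ 3 ≤ κ ^ 2) (hc2 : 4 * qq r₁ ≤ κ)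
    (hstart : ‖sC (pt r₁ θ)‖ ≤ 1 / ((1 + κ) * (rho - r₁))) :
    ∀ r, r₁ ≤ r → r < rho → ‖sC (pt r θ)‖ ≤ 1 / (κ * (rho - r₁)) + 64 * K / κ ^ 2 / qq r := by
  intro r hr hr'
  set δ₁ := rho - r₁ with hδ₁
  set q₁ := qq r₁ with hq₁
  have hq₁0 : 0 < q₁ := qq_pos hr1
  have hq₁4 : q₁ ^ 4 = δ₁ := qq_pow hr1
  have hδ₁0 : 0 < δ₁ := by linarith
  set L := 64 * K with hL
  have hL0 : 64 ≤ L := by linarith
  set D : ℝ → ℝ := fun t => (rho - t) + κ * δ₁ with hD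
  set B : ℝ → ℝ := fun t => (D t)⁻¹ + L * δ₁ ^ 2 * ((qq t)⁻¹ * ((D t) ^ 2)⁻¹) with hB
  set B' : ℝ → ℝ := fun t => 1 / D t ^ 2 + L * δ₁ ^ 2 *
    (1 / (4 * qq t ^ 5) * ((D t) ^ 2)⁻¹ + (qq t)⁻¹ * (2 / D t ^ 3)) with hB'
  have hDpos : ∀ t, t < rho → 0 < D t := by
    intro t ht
    simp only [hD]
    have : 0 < κ * δ₁ := by positivity
    linarith
  have hDd : ∀ t, HasDerivAt D (-1) t := by
    intro t
    have := ((hasDerivAt_id t).const_sub rho).add_const (κ * δ₁)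
    exact this
  have hBd : ∀ t, t < rho → HasDerivAt B (B' t) t := by
    intro t ht
    have hDt := (hDpos t ht)
    have hq := qq_pos ht
    have h1 := (hDd t).inv hDt.ne'
    have h2 := (qq_deriv ht).inv hq.ne'
    have h3 := ((hDd t).pow 2).inv (pow_ne_zero 2 hDt.ne')
    have h4 := h1.add ((h2.mul h3).const_mul (L * δ₁ ^ 2))
    refine h4.congr_deriv ?_
    simp only [hB', Pi.inv_apply, Pi.pow_apply]
    field_simp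
    ring
  have hfin := image_norm_le_of_norm_deriv_right_lt_deriv_boundary' (f := fun t => sC (pt t θ))
    (f' := fun t => (sC (pt t θ) ^ 2 - sC (pt t θ) + 1 - yC (pt t θ)) * exp ((θ : ℂ) * I))
    (a := r₁) (b := r) (B := B) (B' := B')
    (fun t ht => (norm_f_deriv hK (hr0.trans ht.1) (lt_of_le_of_lt ht.2 hr')).1.continuousAt.continuousWithinAt)
    (fun t ht => (norm_f_deriv hK (hr0.trans ht.1) (ht.2.trans hr')).1.hasDerivWithinAt) ?_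
    (fun t ht => (hBd t (lt_of_le_of_lt ht.2 hr')).continuousAt.continuousWithinAt)
    (fun t ht => (hBd t (ht.2.trans hr')).hasDerivWithinAt) ?_
  · have h1 := hfin ⟨hr, le_rfl⟩
    refine h1.trans ?_
    have hq := qq_pos hr'
    have hDr := hDpos r hr'
    have hD1 : κ * δ₁ ≤ D r := by simp only [hD]; linarith
    have h2 : (D r)⁻¹ ≤ 1 / (κ * δ₁) := by
      rw [← one_div]
      exact one_div_le_one_div_of_le (by positivity) hD1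
    have h3 : L * δ₁ ^ 2 * ((qq r)⁻¹ * ((D r) ^ 2)⁻¹) ≤ L / κ ^ 2 / qq r := by
      have h4 : ((D r) ^ 2)⁻¹ ≤ ((κ * δ₁) ^ 2)⁻¹ := by
        apply inv_anti₀ (by positivity)
        gcongr
      calc L * δ₁ ^ 2 * ((qq r)⁻¹ * ((D r) ^ 2)⁻¹) ≤
          L * δ₁ ^ 2 * ((qq r)⁻¹ * ((κ * δ₁) ^ 2)⁻¹) := by gcongr
        _ = L / κ ^ 2 / qq r := by field_simp
    simp only [hB]
    linarith
  · -- start
    refine hstart.trans ?_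
    simp only [hB, hD]
    have h1 : 1 / ((1 + κ) * δ₁) = (rho - r₁ + κ * δ₁)⁻¹ := by
      rw [one_div, ← hδ₁]; congr 1; ring
    rw [h1]
    have h2 : 0 ≤ L * δ₁ ^ 2 * ((qq r₁)⁻¹ * ((rho - r₁ + κ * δ₁) ^ 2)⁻¹) := by positivity
    linarith
  · intro t ht hfB
    have htr : t < rho := ht.2.trans hr'
    have hq := qq_pos htr
    have hq4 := qq_pow htr
    have hqle : qq t ≤ q₁ := qq_anti ht.1 htr
    have hDt := hDpos t htr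
    have h1 := (norm_f_deriv hK (θ := θ) (hr0.trans ht.1) htr).2
    have hfB' : ‖sC (pt t θ)‖ = B t := hfB
    rw [hfB'] at h1
    refine lt_of_le_of_lt h1 ?_
    set q := qq t with hqdef
    set d := D t with hddef
    have hd1 : κ * δ₁ ≤ d := by simp only [hddef, hD]; linarith
    have hd2 : d ≤ 2 * δ₁ := by
      simp only [hddef, hD]
      have : rho - t ≤ δ₁ := by rw [hδ₁]; linarith [ht.1]
      nlinarith
    have hBt : B t = d⁻¹ + L * δ₁ ^ 2 * (q⁻¹ * (d ^ 2)⁻¹) := rfl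
    have hB't : B' t = 1 / d ^ 2 + L * δ₁ ^ 2 *
      (1 / (4 * q ^ 5) * (d ^ 2)⁻¹ + q⁻¹ * (2 / d ^ 3)) := rfl
    rw [hBt, hB't]
    exact ric_ineq hK1 hκ0 hκ1 hδ₁0 hq hq₁0 hDt hq₁4 hqle hd1 hd2 hL hc1 hc2
end Pool.Agent.T6.H85.Srtd
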