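import Mathlib
import Pool.Agent.T6.H85.Srtd.Ric

/-!
# Bounds for `s` on circles, away from the real axis
-/

set_option autoImplicit false

namespace Pool.Agent.T6.H85.Srtd

open Filter Topology Complex

theorem one_sub_cos_ge {θ : ℝ} (h : |θ| ≤ Real.pi) : θ ^ 2 / 5 ≤ 1 - Real.cos θ := by
  have h1 := Real.cos_le_one_sub_mul_cos_sq h
  have h2 : (1 : ℝ) / 5 ≤ 2 / Real.pi ^ 2 := by
    rw [div_le_div_iff₀ (by norm_num) (by positivity)]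
    have := Real.pi_lt_d2
    have := Real.pi_pos
    nlinarith
  have h3 : θ ^ 2 / 5 ≤ 2 / Real.pi ^ 2 * θ ^ 2 := by
    have : θ ^ 2 / 5 = 1 / 5 * θ ^ 2 := by ring
    rw [this]
    gcongr
  linarith

theorem normSq_sub (a r θ : ℝ) : ‖(a : ℂ) - pt r θ‖ ^ 2 = (a - r) ^ 2 + 2 * a * r * (1 - Real.cos θ) := by
  rw [← normSq_eq_norm_sq]
  unfold pt
  rw [exp_mul_I, normSq_apply]
  simp only [sub_re, sub_im, mul_re, mul_im, add_re, add_im, ofReal_re, ofReal_im, I_re, I_im,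
    cos_ofReal_re, sin_ofReal_re, cos_ofReal_im, sin_ofReal_im]
  have := Real.sin_sq_add_cos_sq θ
  ring_nf
  nlinarith

theorem dist_pt_sq {r θ : ℝ} (hr : 1 / 2 ≤ r) (h : |θ| ≤ Real.pi) :
    (rho - r) ^ 2 + θ ^ 2 / 5 ≤ ‖(rho : ℂ) - pt r θ‖ ^ 2 := by
  rw [normSq_sub]
  have h1 := one_sub_cos_ge h
  have h2 := one_le_rho
  have h3 : 1 ≤ 2 * rho * r := by nlinarith
  have h4 : 0 ≤ θ ^ 2 / 5 := by positivity
  nlinarith

theorem mid_range : ∃ θ₀ C : ℝ, 0 < θ₀ ∧ θ₀ ≤ 1 ∧ 0 < C ∧ ∀ θ : ℝ, 0 < |θ| → |θ| < θ₀ → ∀ r, r < rho →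
    rho - r ≤ |θ| → ‖sC (pt r θ)‖ ≤ C / |θ| + C / qq r := by
  obtain ⟨K, hK1, hK⟩ := y_bound
  have h1 := near_pole 1 (1 / 100) one_pos (by norm_num) (by norm_num)
  have h2 : ∀ᶠ r in 𝓝[<] rho, (64 * K) ^ 2 * qq r ^ 3 < (1 / 20) ^ 2 := by
    have : Tendsto (fun r => (64 * K) ^ 2 * qq r ^ 3) (𝓝[<] rho) (𝓝 ((64 * K) ^ 2 * 0 ^ 3)) :=
      (qq_tendsto.pow 3).const_mul _
    refine this.eventually_lt_const ?_
    norm_num
  have h3 : ∀ᶠ r in 𝓝[<] rho, 4 * qq r < 1 / 20 := by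
    have : Tendsto (fun r => 4 * qq r) (𝓝[<] rho) (𝓝 (4 * 0)) := qq_tendsto.const_mul _
    refine this.eventually_lt_const ?_
    norm_num
  obtain ⟨a, ha, hI⟩ := (mem_nhdsLT_iff_exists_Ioo_subset).1
    (((h1.and h2).and h3).and ev_lt_rho)
  have ha' : a < rho := ha
  refine ⟨min (rho - a) 1, max 20 (64 * K / (1 / 20) ^ 2), lt_min (by linarith) one_pos,
    min_le_right _ _, by positivity, ?_⟩
  intro θ hθ0 hθ1 r hr hrθ
  set r₁ := rho - |θ| with hr₁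
  have hδ₁ : rho - r₁ = |θ| := by rw [hr₁]; ring
  have hθa : |θ| < rho - a := lt_of_lt_of_le hθ1 (min_le_left _ _)
  have hθ2 : |θ| < 1 := lt_of_lt_of_le hθ1 (min_le_right _ _)
  obtain ⟨⟨⟨g1, g2⟩, g3⟩, g4⟩ := hI ⟨(by linarith : a < r₁), (by linarith : r₁ < rho)⟩
  have g2' : (64 * K) ^ 2 * qq r₁ ^ 3 < (1 / 20) ^ 2 := g2
  have g3' : 4 * qq r₁ < 1 / 20 := g3
  have g5 := g1 θ (by rw [hδ₁, one_mul])
  rw [hδ₁] at g5
  have hpi : |θ| ≤ Real.pi := by linarith [Real.pi_gt_three]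
  have g6 := dist_pt_sq (r := r₁) (θ := θ) g4.1.le hpi
  rw [hδ₁, sq_abs] at g6
  have g7 : 109 / 100 * |θ| ≤ ‖(rho : ℂ) - pt r₁ θ‖ := by
    apply le_of_sq_le_sq _ (norm_nonneg _)
    have : (109 / 100 * |θ|) ^ 2 = (109 / 100) ^ 2 * θ ^ 2 := by rw [mul_pow, sq_abs]
    rw [this]
    nlinarith [sq_nonneg θ]
  have g8 : ‖((rho : ℂ) - pt r₁ θ)⁻¹‖ ≤ 1 / (109 / 100 * |θ|) := by
    rw [norm_inv, ← one_div]
    exact one_div_le_one_div_of_le (by positivity) g7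
  have hstart : ‖sC (pt r₁ θ)‖ ≤ 1 / ((1 + 1 / 20) * (rho - r₁)) := by
    rw [hδ₁]
    have e1 : sC (pt r₁ θ) = (sC (pt r₁ θ) - ((rho : ℂ) - pt r₁ θ)⁻¹) + ((rho : ℂ) - pt r₁ θ)⁻¹ := by
      ring
    rw [e1]
    refine (norm_add_le _ _).trans ((add_le_add g5 g8).trans ?_)
    have e2 : 1 / 100 / |θ| + 1 / (109 / 100 * |θ|) = (1 / 100 + 100 / 109) / |θ| := by
      field_simp
    have e3 : 1 / ((1 + 1 / 20) * |θ|) = (20 / 21) / |θ| := by field_simp; norm_num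
    rw [e2, e3]
    gcongr
    norm_num
  have := ric hK hK1 (κ := 1 / 20) (by norm_num) (by norm_num) (by linarith [g4.1]) g4.2 g2'.le g3'.le
    hstart r (by linarith) hr
  refine this.trans ?_
  rw [hδ₁]
  have hq := qq_pos hr
  refine add_le_add ?_ ?_
  · have e1 : 1 / (1 / 20 * |θ|) = 20 / |θ| := by field_simp
    rw [e1]
    gcongr
    exact le_max_left _ _
  · gcongr
    exact le_max_right _ _

theorem far_range {θ₀ : ℝ} (h0 : 0 < θ₀) (h1 : θ₀ ≤ 1) : ∃ C : ℝ, 0 < C ∧ ∀ᶠ r in 𝓝[<] rho,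
    ∀ θ : ℝ, θ₀ ≤ |θ| → |θ| ≤ Real.pi → ‖sC (pt r θ)‖ ≤ C / qq r := by
  obtain ⟨K, hK1, hK⟩ := y_bound
  set κ := θ₀ ^ 2 / 150 with hκ
  have hκ0 : 0 < κ := by positivity
  have hκ1 : κ ≤ 1 := by rw [hκ]; nlinarith
  have e1 : ∀ᶠ r in 𝓝[<] rho, s r * (rho - r) < 1 + κ :=
    s_residue.eventually_lt_const (by linarith)
  have e2 : ∀ᶠ r in 𝓝[<] rho, (64 * K) ^ 2 * qq r ^ 3 < κ ^ 2 := by
    have : Tendsto (fun r => (64 * K) ^ 2 * qq r ^ 3) (𝓝[<] rho) (𝓝 ((64 * K) ^ 2 * 0 ^ 3)) :=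
      (qq_tendsto.pow 3).const_mul _
    refine this.eventually_lt_const ?_
    simpa using pow_pos hκ0 2
  have e3 : ∀ᶠ r in 𝓝[<] rho, 4 * qq r < κ := by
    have : Tendsto (fun r => 4 * qq r) (𝓝[<] rho) (𝓝 (4 * 0)) := qq_tendsto.const_mul _
    refine this.eventually_lt_const ?_
    simpa using hκ0
  obtain ⟨r₁, ⟨⟨⟨g1, g2⟩, g3⟩, g4⟩⟩ := (((e1.and e2).and e3).and ev_lt_rho).exists
  have hδ₁ : 0 < rho - r₁ := by linarith [g4.2]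
  have hstart : ∀ θ : ℝ, θ₀ ≤ |θ| → |θ| ≤ Real.pi →
      ‖sC (pt r₁ θ)‖ ≤ 1 / ((1 + κ) * (rho - r₁)) := by
    intro θ hθ0 hθ1
    have hr0 : 0 ≤ r₁ := by linarith [g4.1]
    have hn : ‖pt r₁ θ‖ = r₁ := norm_pt hr0
    have f1 := sC_half (w := pt r₁ θ) (by rw [hn]; exact g4.2)
    rw [hn] at f1
    have f2 : ‖1 - pt r₁ θ / 2‖ ^ 2 = (1 - r₁ / 2) ^ 2 + r₁ * (1 - Real.cos θ) := by
      have a1 : 1 - pt r₁ θ / 2 = ((1 : ℝ) : ℂ) - pt (r₁ / 2) θ := by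
        unfold pt; push_cast; ring
      rw [a1, normSq_sub]
      ring
    have f3 := one_sub_cos_ge hθ1
    have f4 : θ₀ ^ 2 ≤ θ ^ 2 := by
      rw [← sq_abs θ]; gcongr
    have hr2 : r₁ < 2 := lt_of_lt_of_le g4.2 rho_le_two
    have f5 : (1 + κ) ^ 2 * (1 - r₁ / 2) ≤ ‖1 - pt r₁ θ / 2‖ := by
      apply le_of_sq_le_sq _ (norm_nonneg _)
      rw [f2]
      have b1 : r₁ * (1 - Real.cos θ) ≥ θ₀ ^ 2 / 10 := by
        have : (1 / 2 : ℝ) * (θ₀ ^ 2 / 5) ≤ r₁ * (1 - Real.cos θ) := by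
          apply mul_le_mul g4.1.le (by linarith) (by positivity) hr0
        linarith
      have b2 : (1 + κ) ^ 4 - 1 ≤ 15 * κ := by
        have : κ ^ 2 ≤ κ := by nlinarith
        have : κ ^ 3 ≤ κ := by nlinarith [sq_nonneg κ]
        have : κ ^ 4 ≤ κ := by nlinarith [sq_nonneg κ, pow_pos hκ0 3]
        nlinarith
      have b3 : 0 ≤ (1 - r₁ / 2) ^ 2 := by positivity
      have b4 : (1 - r₁ / 2) ^ 2 ≤ 1 := by nlinarith
      have b5 : ((1 + κ) ^ 2 * (1 - r₁ / 2)) ^ 2 = (1 - r₁ / 2) ^ 2 + ((1 + κ) ^ 4 - 1) * (1 - r₁ / 2) ^ 2 := by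
        ring
      have b6 : 0 ≤ (1 + κ) ^ 4 - 1 := by
        have : 1 ≤ (1 + κ) ^ 4 := one_le_pow₀ (by linarith)
        linarith
      rw [b5]
      have b7 : ((1 + κ) ^ 4 - 1) * (1 - r₁ / 2) ^ 2 ≤ (15 * κ) * 1 := by
        apply mul_le_mul b2 b4 b3 (by positivity)
      have b8 : 15 * κ = θ₀ ^ 2 / 10 := by rw [hκ]; ring
      linarith
    have hpos : 0 < 1 - r₁ / 2 := by linarith
    have f6 : ‖sC (pt r₁ θ)‖ * ((1 + κ) ^ 2 * (1 - r₁ / 2)) ≤ s r₁ * (1 - r₁ / 2) :=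
      le_trans (by gcongr) f1
    have f7 : ‖sC (pt r₁ θ)‖ * (1 + κ) ^ 2 ≤ s r₁ := by
      by_contra hc
      push Not at hc
      have := mul_lt_mul_of_pos_right hc hpos
      linarith
    rw [le_div_iff₀ (by positivity)]
    have f8 : ‖sC (pt r₁ θ)‖ * (1 + κ) ^ 2 * (rho - r₁) ≤ s r₁ * (rho - r₁) := by gcongr
    have f9 : (‖sC (pt r₁ θ)‖ * ((1 + κ) * (rho - r₁))) * (1 + κ) ≤ 1 * (1 + κ) := by
      calc _ = ‖sC (pt r₁ θ)‖ * (1 + κ) ^ 2 * (rho - r₁) := by ring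
        _ ≤ s r₁ * (rho - r₁) := f8
        _ ≤ 1 * (1 + κ) := by linarith
    exact le_of_mul_le_mul_right f9 (by positivity)
  refine ⟨1 / (κ * (rho - r₁)) + 64 * K / κ ^ 2, by positivity, ?_⟩
  have e4 : ∀ᶠ r in 𝓝[<] rho, r₁ < r := by
    filter_upwards [Ioo_mem_nhdsLT g4.2] with r hr using hr.1
  have e5 : ∀ᶠ r in 𝓝[<] rho, qq r < 1 := qq_tendsto.eventually_lt_const (by norm_num)
  filter_upwards [e4, e5, ev_lt_rho] with r hr hqr hlt θ hθ0 hθ1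
  have := ric hK hK1 hκ0 hκ1 (by linarith [g4.1]) g4.2 g2.le g3.le (hstart θ hθ0 hθ1) r hr.le hlt.2
  refine this.trans ?_
  have hq := qq_pos hlt.2
  rw [add_div]
  refine add_le_add ?_ le_rfl
  rw [le_div_iff₀ hq]
  exact mul_le_of_le_one_right (by positivity) hqr.le

end Pool.Agent.T6.H85.Srtd
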