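import Mathlib
import Pool.Agent.T6.H85.Srtd.Ranges

/-!
# Coefficients as integrals over circles
-/

set_option autoImplicit false

namespace Pool.Agent.T6.H85.Srtd

open Filter Topology Complex

theorem pt_pow (r θ : ℝ) (m : ℕ) : pt r θ ^ m = (r : ℂ) ^ m * exp ((m : ℂ) * (θ * I)) := by
  unfold pt
  rw [mul_pow, ← Complex.exp_nat_mul]

theorem integral_exp_int (k : ℤ) : ∫ θ in (-Real.pi)..Real.pi, exp ((k : ℂ) * (θ * I)) =
    if k = 0 then 2 * (Real.pi : ℂ) else 0 := by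
  by_cases hk : k = 0
  · subst hk
    simp
    ring
  · rw [if_neg hk]
    have hc : (k : ℂ) * I ≠ 0 := mul_ne_zero (by exact_mod_cast hk) I_ne_zero
    have h1 : ∀ θ : ℝ, exp ((k : ℂ) * (θ * I)) = exp (((k : ℂ) * I) * θ) := by
      intro θ; congr 1; ring
    simp_rw [h1]
    rw [integral_exp_mul_complex hc]
    have h2 : exp ((k : ℂ) * I * (Real.pi : ℝ)) = exp ((k : ℂ) * I * ((-Real.pi : ℝ) : ℂ)) := by
      rw [Complex.exp_eq_exp_iff_exists_int]
      refine ⟨k, ?_⟩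
      push_cast
      ring
    rw [h2, sub_self, zero_div]

theorem coef_integral {u : ℕ → ℂ} {r : ℝ} (hr : 0 ≤ r) (hs : Summable (fun n => ‖u n‖ * r ^ n)) (n : ℕ) :
    ∫ θ in (-Real.pi)..Real.pi, ev u (pt r θ) * exp (-(n : ℂ) * (θ * I)) =
      2 * (Real.pi : ℂ) * (u n * (r : ℂ) ^ n) := by
  let f : ℕ → C(ℝ, ℂ) := fun m => ⟨fun θ => (u m * (r : ℂ) ^ m) * exp ((((m : ℤ) - (n : ℤ) : ℤ) : ℂ) * (θ * I)),
    by fun_prop⟩
  have hf : ∀ m θ, f m θ = (u m * (r : ℂ) ^ m) * exp ((((m : ℤ) - (n : ℤ) : ℤ) : ℂ) * (θ * I)) :=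
    fun m θ => rfl
  have hnorm : ∀ m (θ : ℝ), ‖f m θ‖ = ‖u m‖ * r ^ m := by
    intro m θ
    rw [hf, norm_mul, norm_mul, norm_pow, norm_real, Real.norm_of_nonneg hr]
    have : (((m : ℤ) - (n : ℤ) : ℤ) : ℂ) * (θ * I) = (((((m : ℤ) - (n : ℤ) : ℤ) : ℝ) * θ : ℝ) : ℂ) * I := by
      push_cast; ring
    rw [this, norm_exp_ofReal_mul_I, mul_one]
  have hsum : Summable fun m : ℕ => ‖(f m).restrict
      (⟨Set.uIcc (-Real.pi) Real.pi, isCompact_uIcc⟩ : TopologicalSpace.Compacts ℝ)‖ := by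
    refine Summable.of_nonneg_of_le (fun m => norm_nonneg _) (fun m => ?_) hs
    rw [ContinuousMap.norm_le _ (by positivity)]
    rintro ⟨θ, hθ⟩
    exact (hnorm m θ).le
  have h1 := intervalIntegral.hasSum_intervalIntegral_of_summable_norm hsum
  have h2 : ∀ θ : ℝ, ∑' m, f m θ = ev u (pt r θ) * exp (-(n : ℂ) * (θ * I)) := by
    intro θ
    unfold ev
    rw [← tsum_mul_right]
    refine tsum_congr fun m => ?_
    rw [hf, pt_pow, mul_assoc, mul_assoc, mul_assoc, ← Complex.exp_add]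
    congr 3
    push_cast; ring
  simp_rw [h2] at h1
  have h3 : ∀ m, ∫ θ in (-Real.pi)..Real.pi, f m θ =
      if m = n then 2 * (Real.pi : ℂ) * (u n * (r : ℂ) ^ n) else 0 := by
    intro m
    simp_rw [hf]
    rw [intervalIntegral.integral_const_mul, integral_exp_int]
    by_cases hmn : m = n
    · subst hmn
      simp
      ring
    · rw [if_neg hmn, if_neg (by omega), mul_zero]
  simp_rw [h3] at h1
  have h4 := hasSum_ite_eq n (2 * (Real.pi : ℂ) * (u n * (r : ℂ) ^ n))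
  exact h1.unique h4

theorem coef_bound {u : ℕ → ℂ} {r : ℝ} (hr : 0 ≤ r) (hs : Summable (fun n => ‖u n‖ * r ^ n)) (n : ℕ) :
    2 * Real.pi * (‖u n‖ * r ^ n) ≤ ∫ θ in (-Real.pi)..Real.pi, ‖ev u (pt r θ)‖ := by
  have h1 := coef_integral hr hs n
  have h2 : ‖2 * (Real.pi : ℂ) * (u n * (r : ℂ) ^ n)‖ = 2 * Real.pi * (‖u n‖ * r ^ n) := by
    rw [norm_mul, norm_mul, norm_mul, norm_pow, norm_real, norm_real, Real.norm_of_nonneg hr,
      Real.norm_of_nonneg Real.pi_pos.le]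
    simp
  rw [← h2, ← h1]
  refine (intervalIntegral.norm_integral_le_integral_norm (by linarith [Real.pi_pos])).trans (le_of_eq ?_)
  refine intervalIntegral.integral_congr fun θ _ => ?_
  have : -(n : ℂ) * (θ * I) = ((-(n : ℝ) * θ : ℝ) : ℂ) * I := by push_cast; ring
  rw [norm_mul, this, norm_exp_ofReal_mul_I, mul_one]

/-- coefficients of `1 / (ρ - w)` -/
noncomputable def geo (n : ℕ) : ℝ := (rho⁻¹) ^ (n + 1)

theorem geo_nonneg (n : ℕ) : 0 ≤ geo n := by
  unfold geo; have := rho_pos; positivity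

theorem Sm_geo : Sm geo rho := by
  intro r h0 hr
  have hρ := rho_pos
  have h1 : r / rho < 1 := (div_lt_one hρ).2 hr
  have h2 := (summable_geometric_of_lt_one (by positivity) h1).mul_left rho⁻¹
  refine h2.congr fun n => ?_
  rw [Real.norm_of_nonneg (geo_nonneg n)]
  unfold geo
  rw [div_eq_mul_inv, mul_pow, pow_succ]
  ring

theorem ev_geo {w : ℂ} (hw : ‖w‖ < rho) : ev (cx geo) w = ((rho : ℂ) - w)⁻¹ := by
  have hρ := rho_pos
  have hρC : (rho : ℂ) ≠ 0 := by exact_mod_cast hρ.ne'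
  have h1 : ‖w / rho‖ < 1 := by
    rw [norm_div, norm_real, Real.norm_of_nonneg hρ.le, div_lt_one hρ]
    exact hw
  have h2 := tsum_geometric_of_norm_lt_one h1
  have h3 : ev (cx geo) w = (rho : ℂ)⁻¹ * ∑' n : ℕ, (w / rho) ^ n := by
    unfold ev
    rw [← tsum_mul_left]
    refine tsum_congr fun n => ?_
    unfold cx geo
    push_cast
    rw [div_pow, pow_succ, inv_pow]
    field_simp
  rw [h3, h2, ← mul_inv]
  congr 1
  field_simp

theorem cv_geo (n : ℕ) : cv geo geo n = ((n : ℝ) + 1) * (rho⁻¹) ^ (n + 2) := by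
  unfold cv
  have : ∀ p ∈ Finset.HasAntidiagonal.antidiagonal n, geo p.1 * geo p.2 = (rho⁻¹) ^ (n + 2) := by
    intro p hp
    rw [Finset.HasAntidiagonal.mem_antidiagonal] at hp
    unfold geo
    rw [← pow_add]
    congr 1
    omega
  rw [Finset.sum_congr rfl this, Finset.sum_const, Finset.Nat.card_antidiagonal]
  simp

/-- coefficients of `s² - 1 / (ρ - w)²` -/
noncomputable def gd (n : ℕ) : ℝ := cv cc cc n + -(cv geo geo n)

theorem Sm_gd : Sm gd rho := (Sm_cc.cv Sm_cc).add (Sm_geo.cv Sm_geo).neg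

theorem ev_gd {w : ℂ} (hw : ‖w‖ < rho) : ev (cx gd) w = sC w ^ 2 - (((rho : ℂ) - w)⁻¹) ^ 2 := by
  have e : cx gd = fun n => cv (cx cc) (cx cc) n + -(cv (cx geo) (cx geo) n) := by
    funext n
    rw [cv_cx, cv_cx]
    unfold cx gd
    push_cast
    rfl
  have s1 := Sm_cc.cx.cv Sm_cc.cx
  have s2 := Sm_geo.cx.cv Sm_geo.cx
  rw [e, ev_add s1 s2.neg hw, ev_neg, ev_cv Sm_cc.cx Sm_cc.cx hw, ev_cv Sm_geo.cx Sm_geo.cx hw,
    ev_geo hw]
  unfold sC
  ring

theorem gd_bound {r : ℝ} (hr : 0 ≤ r) (hr' : r < rho) (n : ℕ) :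
    2 * Real.pi * (|gd n| * r ^ n) ≤ ∫ θ in (-Real.pi)..Real.pi,
      ‖sC (pt r θ) ^ 2 - (((rho : ℂ) - pt r θ)⁻¹) ^ 2‖ := by
  have h1 := coef_bound (u := cx gd) hr (Sm_gd.cx r hr hr') n
  have h2 : ‖cx gd n‖ = |gd n| := by unfold cx; rw [norm_real, Real.norm_eq_abs]
  rw [h2] at h1
  refine h1.trans (le_of_eq (intervalIntegral.integral_congr fun θ _ => ?_))
  rw [ev_gd (by rw [norm_pt hr]; exact hr')]

theorem integral_sq_bound {a b C D : ℝ} (hab : a ≤ b) (h0 : ∀ x ∈ Set.Icc a b, x ≠ 0) :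
    ∫ θ in a..b, (C / θ ^ 2 + D) = C / a - C / b + D * (b - a) := by
  have hd : ∀ x ∈ Set.uIcc a b, HasDerivAt (fun θ : ℝ => -(C / θ) + D * θ) (C / x ^ 2 + D) x := by
    intro x hx
    rw [Set.uIcc_of_le hab] at hx
    have hx0 := h0 x hx
    have h1 := (((hasDerivAt_id x).inv hx0).const_mul C).neg.add ((hasDerivAt_id x).const_mul D)
    refine (h1.congr_deriv ?_).congr_of_eventuallyEq (Eventually.of_forall fun t => ?_)
    · simp only [id]; field_simp
    · simp [div_eq_mul_inv]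
  rw [intervalIntegral.integral_eq_sub_of_hasDerivAt hd]
  · ring
  · apply ContinuousOn.intervalIntegrable
    intro x hx
    rw [Set.uIcc_of_le hab] at hx
    have hx0 := h0 x hx
    exact ((continuousAt_const.div (continuousAt_id.pow 2) (pow_ne_zero 2 hx0)).add
      continuousAt_const).continuousWithinAt

end Pool.Agent.T6.H85.Srtd
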