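import Mathlib
import Pool.Agent.T6.H85.Srtd.Circ

/-!
# Strong asymptotics of the coefficients
-/

set_option autoImplicit false

namespace Pool.Agent.T6.H85.Srtd

open Filter Topology Complex

theorem F_cont {r : ℝ} (hr : 0 ≤ r) (hr' : r < rho) :
    Continuous (fun θ : ℝ => ‖sC (pt r θ) ^ 2 - (((rho : ℂ) - pt r θ)⁻¹) ^ 2‖) := by
  have hn : ∀ θ, ‖pt r θ‖ = r := fun θ => norm_pt hr
  have h1 : Continuous (pt r) := by unfold pt; fun_prop
  have h2 : Continuous (fun θ : ℝ => sC (pt r θ)) := by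
    rw [continuous_iff_continuousAt]
    intro θ
    have := (sC_deriv (w := pt r θ) (by rw [hn]; exact hr')).continuousAt
    exact ContinuousAt.comp this h1.continuousAt
  have h3 : Continuous (fun θ : ℝ => ((rho : ℂ) - pt r θ)⁻¹) := by
    refine (continuous_const.sub h1).inv₀ fun θ h0 => ?_
    have h0' : (rho : ℂ) - pt r θ = 0 := h0
    have := dist_pt (r := r) (θ := θ) hr
    rw [h0', norm_zero] at this
    linarith
  exact ((h2.pow 2).sub (h3.pow 2)).norm

theorem integral_small {ε : ℝ} (hε : 0 < ε) : ∀ᶠ r in 𝓝[<] rho,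
    ∫ θ in (-Real.pi)..Real.pi, ‖sC (pt r θ) ^ 2 - (((rho : ℂ) - pt r θ)⁻¹) ^ 2‖ ≤ ε / (rho - r) := by
  obtain ⟨θ₀, C, hθ₀, hθ₁, hC, hmid⟩ := mid_range
  obtain ⟨Cf, hCf, hfar⟩ := far_range hθ₀ hθ₁
  set C₁ := 2 * C ^ 2 + 5 with hC₁
  set C₂ := 2 * C ^ 2 + Cf ^ 2 with hC₂
  have hC₁0 : 0 < C₁ := by positivity
  have hC₂0 : 0 < C₂ := by positivity
  set A := 1 + 6 * C₁ / ε with hA
  have hA1 : 1 ≤ A := by
    have : 0 < 6 * C₁ / ε := by positivity
    linarith
  have hA0 : 0 < A := by linarith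
  set ε₁ := min 1 (ε / (18 * A)) with hε₁
  have hε₁0 : 0 < ε₁ := lt_min one_pos (by positivity)
  have hnear := near_pole A ε₁ hA0 hε₁0 (min_le_left _ _)
  have e1 : ∀ᶠ r in 𝓝[<] rho, A * (rho - r) < θ₀ := by
    have : Tendsto (fun r => A * (rho - r)) (𝓝[<] rho) (𝓝 (A * (rho - rho))) := by
      have : Continuous (fun r : ℝ => A * (rho - r)) := by fun_prop
      exact (this.tendsto rho).mono_left nhdsWithin_le_nhds
    refine this.eventually_lt_const ?_
    simpa using hθ₀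
  have e2 : ∀ᶠ r in 𝓝[<] rho, 2 * Real.pi * C₂ * qq r ^ 2 < ε / 3 := by
    have : Tendsto (fun r => 2 * Real.pi * C₂ * qq r ^ 2) (𝓝[<] rho) (𝓝 (2 * Real.pi * C₂ * 0 ^ 2)) :=
      (qq_tendsto.pow 2).const_mul _
    refine this.eventually_lt_const ?_
    simpa using hε
  filter_upwards [hnear, hfar, e1, e2, ev_lt_rho] with r g1 g2 g3 g4 g5
  have hr0 : 0 ≤ r := by linarith [g5.1]
  set δ := rho - r with hδ
  have hδ0 : 0 < δ := by linarith [g5.2]
  set a := A * δ with ha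
  have ha0 : 0 < a := by positivity
  have hδa : δ ≤ a := by rw [ha]; nlinarith
  have hpi : (3 : ℝ) < Real.pi := Real.pi_gt_three
  have haπ : a < Real.pi := by linarith
  set q := qq r with hq
  have hq0 : 0 < q := qq_pos g5.2
  have hq4 : q ^ 4 = δ := qq_pow g5.2
  set F : ℝ → ℝ := fun θ => ‖sC (pt r θ) ^ 2 - (((rho : ℂ) - pt r θ)⁻¹) ^ 2‖ with hF
  have hFc : Continuous F := F_cont hr0 g5.2
  have hFi : ∀ b c, IntervalIntegrable F MeasureTheory.volume b c := fun b c => hFc.intervalIntegrable b c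
  -- central part
  have hcen : ∫ θ in (-a)..a, F θ ≤ 6 * A * ε₁ / δ := by
    have h1 : ∀ θ ∈ Set.Icc (-a) a, F θ ≤ 3 * ε₁ / δ ^ 2 := by
      intro θ hθ
      have h2 := g1 θ (abs_le.2 hθ)
      set g := ((rho : ℂ) - pt r θ)⁻¹ with hg
      have hgn : ‖g‖ ≤ 1 / δ := by
        rw [hg, norm_inv, ← one_div]
        exact one_div_le_one_div_of_le hδ0 (dist_pt hr0)
      have h3 : sC (pt r θ) ^ 2 - g ^ 2 = (sC (pt r θ) - g) * ((sC (pt r θ) - g) + 2 * g) := by ring
      simp only [hF]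
      rw [h3, norm_mul]
      have h4 : ‖(sC (pt r θ) - g) + 2 * g‖ ≤ 3 / δ := by
        refine (norm_add_le _ _).trans ?_
        rw [norm_mul]
        have h5 : ε₁ / δ ≤ 1 / δ := by gcongr; exact min_le_left _ _
        have h6 : ‖(2 : ℂ)‖ = 2 := by simp
        rw [h6]
        have h7 : 3 / δ = 1 / δ + 2 * (1 / δ) := by ring
        rw [h7]
        exact add_le_add (h2.trans h5) (by gcongr)
      calc ‖sC (pt r θ) - g‖ * ‖(sC (pt r θ) - g) + 2 * g‖ ≤ (ε₁ / δ) * (3 / δ) := by gcongr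
        _ = 3 * ε₁ / δ ^ 2 := by field_simp
    have h2 := intervalIntegral.integral_mono_on (a := -a) (b := a) (f := F)
      (g := fun _ => 3 * ε₁ / δ ^ 2) (μ := MeasureTheory.volume) (by linarith) (hFi _ _)
      intervalIntegrable_const h1
    refine h2.trans (le_of_eq ?_)
    rw [intervalIntegral.integral_const, smul_eq_mul, ha]
    field_simp
    ring
  -- outer part
  have hout : ∀ θ, a ≤ |θ| → |θ| ≤ Real.pi → F θ ≤ C₁ / θ ^ 2 + C₂ / q ^ 2 := by
    intro θ h1 h2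
    have hθ0 : 0 < |θ| := lt_of_lt_of_le ha0 h1
    have hθ2 : 0 < θ ^ 2 := by rw [← sq_abs]; positivity
    have hg : ‖(((rho : ℂ) - pt r θ)⁻¹) ^ 2‖ ≤ 5 / θ ^ 2 := by
      have h3 := dist_pt_sq (r := r) (θ := θ) g5.1.le h2
      have h4 : θ ^ 2 / 5 ≤ ‖(rho : ℂ) - pt r θ‖ ^ 2 := by
        have := sq_nonneg (rho - r); linarith
      rw [norm_pow, norm_inv, inv_pow]
      have h5 : 5 / θ ^ 2 = (θ ^ 2 / 5)⁻¹ := by rw [inv_div]
      rw [h5]
      exact inv_anti₀ (by positivity) h4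
    have hs2 : ‖sC (pt r θ) ^ 2‖ ≤ 2 * C ^ 2 / θ ^ 2 + C₂ / q ^ 2 := by
      rw [norm_pow]
      rcases lt_or_ge |θ| θ₀ with h3 | h3
      · have h4 := hmid θ hθ0 h3 r g5.2 (by linarith)
        calc ‖sC (pt r θ)‖ ^ 2 ≤ (C / |θ| + C / q) ^ 2 := by gcongr
          _ ≤ 2 * (C / |θ|) ^ 2 + 2 * (C / q) ^ 2 := by nlinarith [sq_nonneg (C / |θ| - C / q)]
          _ = 2 * C ^ 2 / θ ^ 2 + 2 * C ^ 2 / q ^ 2 := by rw [div_pow, div_pow, sq_abs]; ring
          _ ≤ _ := by
              gcongr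
              rw [hC₂]; linarith [sq_nonneg Cf]
      · have h4 := g2 θ h3 h2
        calc ‖sC (pt r θ)‖ ^ 2 ≤ (Cf / q) ^ 2 := by gcongr
          _ = Cf ^ 2 / q ^ 2 := by rw [div_pow]
          _ ≤ C₂ / q ^ 2 := by
              gcongr
              rw [hC₂]; linarith [sq_nonneg C]
          _ ≤ _ := by
              have : 0 ≤ 2 * C ^ 2 / θ ^ 2 := by positivity
              linarith
    simp only [hF]
    refine (norm_sub_le _ _).trans ?_
    have e : C₁ / θ ^ 2 = 2 * C ^ 2 / θ ^ 2 + 5 / θ ^ 2 := by rw [hC₁]; ring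
    rw [e]
    linarith
  have hcontI : ∀ b c : ℝ, (∀ x ∈ Set.uIcc b c, x ≠ 0) →
      IntervalIntegrable (fun θ : ℝ => C₁ / θ ^ 2 + C₂ / q ^ 2) MeasureTheory.volume b c := by
    intro b c hbc
    apply ContinuousOn.intervalIntegrable
    intro x hx
    exact ((continuousAt_const.div (continuousAt_id.pow 2) (pow_ne_zero 2 (hbc x hx))).add
      continuousAt_const).continuousWithinAt
  have hright : ∫ θ in a..Real.pi, F θ ≤ C₁ / a + C₂ / q ^ 2 * Real.pi := by
    have hne : ∀ x ∈ Set.Icc a Real.pi, x ≠ 0 := fun x hx => (lt_of_lt_of_le ha0 hx.1).ne'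
    have h2 := intervalIntegral.integral_mono_on (a := a) (b := Real.pi) (f := F)
      (g := fun θ => C₁ / θ ^ 2 + C₂ / q ^ 2) (μ := MeasureTheory.volume) haπ.le (hFi _ _)
      (hcontI _ _ (by rw [Set.uIcc_of_le haπ.le]; exact hne)) (fun θ hθ => hout θ
        (by rw [abs_of_pos (lt_of_lt_of_le ha0 hθ.1)]; exact hθ.1)
        (by rw [abs_of_pos (lt_of_lt_of_le ha0 hθ.1)]; exact hθ.2))
    refine h2.trans ?_
    rw [integral_sq_bound haπ.le hne]
    have h3 : 0 ≤ C₁ / Real.pi := by positivity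
    have h4 : 0 < C₂ / q ^ 2 := by positivity
    nlinarith
  have hleft : ∫ θ in (-Real.pi)..(-a), F θ ≤ C₁ / a + C₂ / q ^ 2 * Real.pi := by
    have hne : ∀ x ∈ Set.Icc (-Real.pi) (-a), x ≠ 0 := fun x hx => by
      have h := hx.2
      intro h0
      rw [h0] at h
      linarith
    have hle : -Real.pi ≤ -a := by linarith
    have h2 := intervalIntegral.integral_mono_on (a := -Real.pi) (b := -a) (f := F)
      (g := fun θ => C₁ / θ ^ 2 + C₂ / q ^ 2) (μ := MeasureTheory.volume) hle (hFi _ _)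
      (hcontI _ _ (by rw [Set.uIcc_of_le hle]; exact hne)) (fun θ hθ => by
        have hneg : θ < 0 := by linarith [hθ.2]
        exact hout θ (by rw [abs_of_neg hneg]; linarith [hθ.2])
          (by rw [abs_of_neg hneg]; linarith [hθ.1]))
    refine h2.trans ?_
    rw [integral_sq_bound hle hne]
    have h3 : 0 ≤ C₁ / Real.pi := by positivity
    have h4 : 0 < C₂ / q ^ 2 := by positivity
    rw [div_neg, div_neg]
    nlinarith
  have hsplit : ∫ θ in (-Real.pi)..Real.pi, F θ =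
      (∫ θ in (-Real.pi)..(-a), F θ) + (∫ θ in (-a)..a, F θ) + ∫ θ in a..Real.pi, F θ := by
    rw [intervalIntegral.integral_add_adjacent_intervals (hFi _ _) (hFi _ _),
      intervalIntegral.integral_add_adjacent_intervals (hFi _ _) (hFi _ _)]
  rw [hsplit]
  have t1 : 2 * (C₁ / a) ≤ ε / 3 / δ := by
    have h1 : 2 * (C₁ / a) = (2 * C₁ / A) / δ := by rw [ha]; field_simp
    rw [h1]
    apply div_le_div_of_nonneg_right _ hδ0.le
    rw [div_le_iff₀ hA0]
    have : ε / 3 * A = ε / 3 + 2 * C₁ := by rw [hA]; field_simp; ring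
    rw [this]
    linarith
  have t2 : 2 * (C₂ / q ^ 2 * Real.pi) ≤ ε / 3 / δ := by
    have h1 : 2 * (C₂ / q ^ 2 * Real.pi) = (2 * Real.pi * C₂ * q ^ 2) / δ := by
      rw [← hq4]; field_simp
    rw [h1]
    gcongr
  have t3 : 6 * A * ε₁ / δ ≤ ε / 3 / δ := by
    apply div_le_div_of_nonneg_right _ hδ0.le
    have h1 : ε₁ ≤ ε / (18 * A) := min_le_right _ _
    calc 6 * A * ε₁ ≤ 6 * A * (ε / (18 * A)) := by gcongr
      _ = ε / 3 := by field_simp; norm_num
  have t4 : ε / δ = ε / 3 / δ + ε / 3 / δ + ε / 3 / δ := by ring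
  rw [t4]
  linarith

/-- radii tending to `ρ` -/
noncomputable def rad (n : ℕ) : ℝ := rho * (n / (n + 1))

theorem rad_sub (n : ℕ) : rho - rad n = rho / (n + 1) := by
  unfold rad; field_simp; ring

theorem rad_lt (n : ℕ) : rad n < rho := by
  have h := rad_sub n
  have h2 := rho_pos
  have : 0 < rho / ((n : ℝ) + 1) := by positivity
  linarith

theorem rad_nonneg (n : ℕ) : 0 ≤ rad n := by
  unfold rad; have := rho_pos; positivity

theorem rad_tendsto : Tendsto rad atTop (𝓝[<] rho) := by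
  rw [tendsto_nhdsWithin_iff]
  refine ⟨?_, Eventually.of_forall rad_lt⟩
  have h1 : Tendsto (fun n : ℕ => (n : ℝ) / ((n : ℝ) + 1)) atTop (𝓝 1) :=
    tendsto_natCast_div_add_atTop 1
  have h2 := h1.const_mul rho
  rwa [mul_one] at h2

theorem rad_pow (n : ℕ) : rho ^ n ≤ 3 * rad n ^ n := by
  unfold rad
  rw [mul_pow, div_pow]
  have h1 : ((n : ℝ) + 1) ^ n ≤ 3 * (n : ℝ) ^ n := by
    rcases Nat.eq_zero_or_pos n with h0 | hpos
    · subst h0; norm_num
    · have hn : (0 : ℝ) < n := by exact_mod_cast hpos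
      have h2 : (1 + 1 / (n : ℝ)) ^ n ≤ 3 := by
        have h3 : 1 + 1 / (n : ℝ) ≤ Real.exp (1 / n) := by
          have := Real.add_one_le_exp (1 / (n : ℝ)); linarith
        calc (1 + 1 / (n : ℝ)) ^ n ≤ Real.exp (1 / n) ^ n := by gcongr
          _ = Real.exp 1 := by rw [← Real.exp_nat_mul]; congr 1; field_simp
          _ ≤ 3 := by have := Real.exp_one_lt_d9; linarith
      have h4 : ((n : ℝ) + 1) ^ n = (1 + 1 / (n : ℝ)) ^ n * (n : ℝ) ^ n := by
        rw [← mul_pow]; congr 1; field_simp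
      rw [h4]
      gcongr
  have h2 : (0 : ℝ) < ((n : ℝ) + 1) ^ n := by positivity
  have h3 : 1 ≤ 3 * ((n : ℝ) ^ n / ((n : ℝ) + 1) ^ n) := by
    rw [← mul_div_assoc, le_div_iff₀ h2, one_mul]
    exact h1
  have h4 : 0 ≤ rho ^ n := by have := rho_pos; positivity
  nlinarith

theorem gd_small {ε : ℝ} (hε : 0 < ε) : ∀ᶠ n : ℕ in atTop, |gd n| * rho ^ (n + 2) ≤ ε * (n + 1) := by
  filter_upwards [rad_tendsto.eventually (integral_small hε)] with n hn
  have h1 := gd_bound (rad_nonneg n) (rad_lt n) n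
  have h2 := h1.trans hn
  rw [rad_sub] at h2
  have hρ := rho_pos
  have hρ2 := rho_le_two
  have h3 := rad_pow n
  have hpi : (3 : ℝ) < Real.pi := Real.pi_gt_three
  have h4 : ε / (rho / ((n : ℝ) + 1)) = ε * (n + 1) / rho := by field_simp
  rw [h4] at h2
  have h5 : 0 ≤ |gd n| := abs_nonneg _
  have h6 : |gd n| * rho ^ n ≤ 3 * (|gd n| * rad n ^ n) := by nlinarith
  have h7 : 6 * (|gd n| * rad n ^ n) ≤ ε * (n + 1) / rho := by
    have : 0 ≤ |gd n| * rad n ^ n := mul_nonneg h5 (pow_nonneg (rad_nonneg n) n)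
    nlinarith
  have h8 : |gd n| * rho ^ n * rho ≤ ε * (n + 1) / 2 := by
    rw [le_div_iff₀ hρ] at h7
    nlinarith
  have h9 : |gd n| * rho ^ (n + 2) = (|gd n| * rho ^ n * rho) * rho := by ring
  rw [h9]
  have h10 : 0 ≤ |gd n| * rho ^ n * rho := by positivity
  nlinarith

theorem cv_tendsto : Tendsto (fun n : ℕ => cv cc cc n * rho ^ (n + 2) / ((n : ℝ) + 1)) atTop (𝓝 1) := by
  rw [Metric.tendsto_nhds]
  intro ε hε
  filter_upwards [gd_small (half_pos hε)] with n hn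
  rw [Real.dist_eq]
  have hρ := rho_pos
  have hn1 : (0 : ℝ) < (n : ℝ) + 1 := by positivity
  have h1 : cv cc cc n * rho ^ (n + 2) / ((n : ℝ) + 1) - 1 = gd n * rho ^ (n + 2) / ((n : ℝ) + 1) := by
    unfold gd
    rw [cv_geo]
    have : (rho⁻¹) ^ (n + 2) * rho ^ (n + 2) = 1 := by
      rw [← mul_pow, inv_mul_cancel₀ hρ.ne', one_pow]
    have h2 : (cv cc cc n + -(((n : ℝ) + 1) * (rho⁻¹) ^ (n + 2))) * rho ^ (n + 2) =
        cv cc cc n * rho ^ (n + 2) - ((n : ℝ) + 1) := by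
      linear_combination (-((n : ℝ) + 1)) * this
    rw [h2, sub_div, div_self hn1.ne']
  rw [h1, abs_div, abs_mul, abs_of_pos (pow_pos hρ (n + 2)), abs_of_pos hn1]
  calc _ ≤ ε / 2 * (n + 1) / (n + 1) := by gcongr
    _ = ε / 2 := by field_simp
    _ < ε := by linarith

end Pool.Agent.T6.H85.Srtd
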