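import Mathlib
import Pool.Agent.T6.H85.Srtd.Strong

/-!
# `a_n ~ n! / ρ ^ (n + 1)`
-/

set_option autoImplicit false

namespace Pool.Agent.T6.H85.Srtd

open Filter Topology

theorem cc_bdd : ∃ F : ℝ, 1 ≤ F ∧ ∀ n, cc n * rho ^ (n + 1) ≤ F := by
  obtain ⟨M, hM⟩ := cv_tendsto.bddAbove_range
  refine ⟨max M 2, le_trans (by norm_num) (le_max_right _ _), fun n => ?_⟩
  cases n with
  | zero =>
    rw [cc_zero, one_mul, zero_add, pow_one]
    exact rho_le_two.trans (le_max_right _ _)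
  | succ n =>
    refine le_trans ?_ (le_max_left _ _)
    refine le_trans ?_ (hM ⟨n, rfl⟩)
    have h1 := dv_cc_le n
    unfold dv at h1
    have hn : (0 : ℝ) < (n : ℝ) + 1 := by positivity
    simp only
    rw [le_div_iff₀ hn]
    have h2 : 0 ≤ rho ^ (n + 2) := by have := rho_pos; positivity
    calc cc (n + 1) * rho ^ (n + 1 + 1) * ((n : ℝ) + 1) =
        (((n : ℝ) + 1) * cc (n + 1)) * rho ^ (n + 2) := by ring
      _ ≤ cv cc cc n * rho ^ (n + 2) := by gcongr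

theorem rad_pow' {n j : ℕ} (hj : j ≤ n) : rho ^ j ≤ 3 * rad n ^ j := by
  have h1 := rad_pow n
  have hρ := rho_pos
  have hr := rad_nonneg n
  have hle : rad n ≤ rho := (rad_lt n).le
  obtain ⟨k, rfl⟩ := Nat.exists_eq_add_of_le hj
  rw [pow_add, pow_add] at h1
  have h2 : rad (j + k) ^ k ≤ rho ^ k := by gcongr
  have h3 : 0 < rho ^ k := by positivity
  have h4 : 0 ≤ rad (j + k) ^ j := by positivity
  have h5 : rho ^ j * rho ^ k ≤ (3 * rad (j + k) ^ j) * rho ^ k := by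
    calc _ ≤ 3 * (rad (j + k) ^ j * rad (j + k) ^ k) := h1
      _ ≤ 3 * (rad (j + k) ^ j * rho ^ k) := by gcongr
      _ = _ := by ring
  exact le_of_mul_le_mul_right h5 h3

theorem sum_u2 {K : ℝ} (hK : ∀ w, 0 ≤ w → w < rho → y w ≤ K / qq w ^ 5) (n : ℕ) :
    ∑ j ∈ Finset.range (n + 1), u 2 j * rho ^ j ≤ 3 * (K / qq (rad n) ^ 5) := by
  have h1 : ∑ j ∈ Finset.range (n + 1), u 2 j * rho ^ j ≤
      3 * ∑ j ∈ Finset.range (n + 1), u 2 j * rad n ^ j := by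
    rw [Finset.mul_sum]
    refine Finset.sum_le_sum fun j hj => ?_
    rw [Finset.mem_range] at hj
    have := rad_pow' (n := n) (j := j) (by omega)
    have h2 := u_nonneg 2 j
    nlinarith
  refine h1.trans ?_
  have hr := rad_nonneg n
  have h2 : ∑ j ∈ Finset.range (n + 1), u 2 j * rad n ^ j ≤ y (rad n) := by
    have hs := (Sm_u 2).1.summable (w := rad n) (by rw [Real.norm_of_nonneg hr]; exact rad_lt n)
    exact hs.sum_le_tsum _ (fun j _ => mul_nonneg (u_nonneg 2 j) (by positivity))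
  have h3 := hK (rad n) hr (rad_lt n)
  linarith

theorem u2_bound {K F : ℝ} (hK : ∀ w, 0 ≤ w → w < rho → y w ≤ K / qq w ^ 5) (hF1 : 1 ≤ F)
    (hF : ∀ n, cc n * rho ^ (n + 1) ≤ F) (n : ℕ) :
    ((n : ℝ) + 1) * (u 2 (n + 1) * rho ^ n) ≤ F + F ^ 2 * (n + 1) + F * (3 * (K / qq (rad n) ^ 5)) := by
  have hρ := rho_pos
  have hρ1 := one_le_rho
  have hu1 : ∀ j, u 1 j * rho ^ j ≤ F := by
    intro j
    have h1 : u 1 j ≤ cc j := by rw [cc_eq]; have := u_nonneg 0 j; linarith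
    have h2 : 0 ≤ cc j * rho ^ j := mul_nonneg (cc_nonneg j) (by positivity)
    calc u 1 j * rho ^ j ≤ cc j * rho ^ j := by gcongr
      _ ≤ (cc j * rho ^ j) * rho := le_mul_of_one_le_right h2 hρ1
      _ = cc j * rho ^ (j + 1) := by ring
      _ ≤ F := hF j
  have hu1n : ∀ j, 0 ≤ u 1 j * rho ^ j := fun j => mul_nonneg (u_nonneg 1 j) (by positivity)
  have h1 := rec_y n
  unfold dv at h1
  have h3 := u_nonneg 3 n
  have h4 : (((n : ℝ) + 1) * u 2 (n + 1)) * rho ^ n ≤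
      (u 1 n + cv (u 1) (u 1) n + cv (u 1) (u 2) n) * rho ^ n := by
    gcongr; linarith
  have h5 : cv (u 1) (u 1) n * rho ^ n ≤ F ^ 2 * (n + 1) := by
    rw [cv_pow]
    refine (Finset.sum_le_card_nsmul _ _ (F ^ 2) fun p _ => ?_).trans (le_of_eq ?_)
    · rw [sq]
      exact mul_le_mul (hu1 _) (hu1 _) (hu1n _) (by linarith)
    · rw [Finset.Nat.card_antidiagonal, nsmul_eq_mul]
      push_cast; ring
  have h6 : cv (u 1) (u 2) n * rho ^ n ≤ F * (3 * (K / qq (rad n) ^ 5)) := by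
    rw [cv_pow]
    calc ∑ p ∈ Finset.HasAntidiagonal.antidiagonal n, (u 1 p.1 * rho ^ p.1) * (u 2 p.2 * rho ^ p.2)
        ≤ ∑ p ∈ Finset.HasAntidiagonal.antidiagonal n, F * (u 2 p.2 * rho ^ p.2) := by
          refine Finset.sum_le_sum fun p _ => ?_
          exact mul_le_mul_of_nonneg_right (hu1 _) (mul_nonneg (u_nonneg 2 _) (by positivity))
      _ = F * ∑ p ∈ Finset.HasAntidiagonal.antidiagonal n, u 2 p.2 * rho ^ p.2 := by rw [Finset.mul_sum]
      _ = F * ∑ j ∈ Finset.range (n + 1), u 2 j * rho ^ j := by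
          congr 1
          rw [← Finset.Nat.sum_antidiagonal_swap, Finset.Nat.sum_antidiagonal_eq_sum_range_succ_mk]
          rfl
      _ ≤ _ := by gcongr; exact sum_u2 hK n
  have h7 := hu1 n
  calc _ = (((n : ℝ) + 1) * u 2 (n + 1)) * rho ^ n := by ring
    _ ≤ _ := h4
    _ = u 1 n * rho ^ n + cv (u 1) (u 1) n * rho ^ n + cv (u 1) (u 2) n * rho ^ n := by ring
    _ ≤ _ := by linarith

theorem u2_small : Tendsto (fun n : ℕ => u 2 n * rho ^ (n + 2) / ((n : ℝ) + 1)) atTop (𝓝 0) := by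
  obtain ⟨K, hK1, hK⟩ := y_bound
  obtain ⟨F, hF1, hF⟩ := cc_bdd
  have hρ := rho_pos
  have hρ2 := rho_le_two
  rw [← tendsto_add_atTop_iff_nat 1]
  have hbd : ∀ n : ℕ, u 2 (n + 1) * rho ^ (n + 1 + 2) / (((n + 1 : ℕ) : ℝ) + 1) ≤
      8 * (F * (1 / ((n : ℝ) + 1)) + F ^ 2 * (1 / ((n : ℝ) + 1)) + 3 * F * K * qq (rad n) ^ 3) := by
    intro n
    have h1 := u2_bound hK hF1 hF n
    set q := qq (rad n) with hq
    have hq0 : 0 < q := qq_pos (rad_lt n)
    have hq4 : q ^ 4 = rho / (n + 1) := by rw [← rad_sub]; exact qq_pow (rad_lt n)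
    have hn : (0 : ℝ) < (n : ℝ) + 1 := by positivity
    have hn1 : (1 : ℝ) ≤ (n : ℝ) + 1 := by linarith [(Nat.cast_nonneg n : (0 : ℝ) ≤ n)]
    have hu := u_nonneg 2 (n + 1)
    have h2 : u 2 (n + 1) * rho ^ n / ((n : ℝ) + 1) ≤
        F * (1 / ((n : ℝ) + 1)) + F ^ 2 * (1 / ((n : ℝ) + 1)) + 3 * F * K * q ^ 3 := by
      have h3 : u 2 (n + 1) * rho ^ n / ((n : ℝ) + 1) =
          (((n : ℝ) + 1) * (u 2 (n + 1) * rho ^ n)) / ((n : ℝ) + 1) ^ 2 := by field_simp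
      rw [h3]
      have h4 : (F + F ^ 2 * ((n : ℝ) + 1) + F * (3 * (K / q ^ 5))) / ((n : ℝ) + 1) ^ 2 =
          F * (1 / ((n : ℝ) + 1) ^ 2) + F ^ 2 * (1 / ((n : ℝ) + 1)) + 3 * F * K *
            (1 / (q ^ 5 * ((n : ℝ) + 1) ^ 2)) := by field_simp
      have h5 : 1 / (q ^ 5 * ((n : ℝ) + 1) ^ 2) ≤ q ^ 3 := by
        rw [div_le_iff₀ (by positivity)]
        have h6 : q ^ 3 * (q ^ 5 * ((n : ℝ) + 1) ^ 2) = (q ^ 4) ^ 2 * ((n : ℝ) + 1) ^ 2 := by ring
        rw [h6, hq4, div_pow, div_mul_cancel₀ _ (by positivity)]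
        have := one_le_rho
        nlinarith
      have h7 : 1 / ((n : ℝ) + 1) ^ 2 ≤ 1 / ((n : ℝ) + 1) := by
        apply one_div_le_one_div_of_le hn
        nlinarith
      calc _ ≤ (F + F ^ 2 * ((n : ℝ) + 1) + F * (3 * (K / q ^ 5))) / ((n : ℝ) + 1) ^ 2 := by gcongr
        _ = _ := h4
        _ ≤ _ := by gcongr
    have h8 : u 2 (n + 1) * rho ^ (n + 1 + 2) / (((n + 1 : ℕ) : ℝ) + 1) ≤
        8 * (u 2 (n + 1) * rho ^ n / ((n : ℝ) + 1)) := by
      have h9 : rho ^ 3 ≤ 8 := by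
        calc rho ^ 3 ≤ 2 ^ 3 := by gcongr
          _ = 8 := by norm_num
      have h10 : u 2 (n + 1) * rho ^ (n + 1 + 2) = rho ^ 3 * (u 2 (n + 1) * rho ^ n) := by ring
      rw [h10, ← mul_div_assoc]
      push_cast
      have h11 : 0 ≤ u 2 (n + 1) * rho ^ n := by positivity
      gcongr
      linarith
    refine h8.trans ?_
    gcongr
  have hlim : Tendsto (fun n : ℕ => 8 * (F * (1 / ((n : ℝ) + 1)) + F ^ 2 * (1 / ((n : ℝ) + 1)) +
      3 * F * K * qq (rad n) ^ 3)) atTop (𝓝 (8 * (F * 0 + F ^ 2 * 0 + 3 * F * K * 0 ^ 3))) := by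
    have h1 := tendsto_one_div_add_atTop_nhds_zero_nat (𝕜 := ℝ)
    have h2 : Tendsto (fun n : ℕ => qq (rad n)) atTop (𝓝 0) := qq_tendsto.comp rad_tendsto
    exact (((h1.const_mul F).add (h1.const_mul (F ^ 2))).add ((h2.pow 3).const_mul _)).const_mul 8
  have e0 : 8 * (F * 0 + F ^ 2 * 0 + 3 * F * K * 0 ^ 3) = 0 := by ring
  rw [e0] at hlim
  refine squeeze_zero (fun n => ?_) hbd hlim
  have hu := u_nonneg 2 (n + 1)
  positivity

/-- `a_n / n! ~ ρ ^ (-(n + 1))` -/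
theorem cc_strong : Tendsto (fun n : ℕ => cc n * rho ^ (n + 1)) atTop (𝓝 1) := by
  obtain ⟨F, hF1, hF⟩ := cc_bdd
  have hρ := rho_pos
  rw [← tendsto_add_atTop_iff_nat 1]
  have h1 : Tendsto (fun n : ℕ => cc n * rho ^ (n + 2) / ((n : ℝ) + 1)) atTop (𝓝 0) := by
    have hlim : Tendsto (fun n : ℕ => F * rho * (1 / ((n : ℝ) + 1))) atTop (𝓝 (F * rho * 0)) :=
      (tendsto_one_div_add_atTop_nhds_zero_nat (𝕜 := ℝ)).const_mul _
    rw [mul_zero] at hlim
    refine squeeze_zero (fun n => ?_) (fun n => ?_) hlim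
    · have := cc_nonneg n; positivity
    · have hn : (0 : ℝ) < (n : ℝ) + 1 := by positivity
      rw [mul_one_div]
      apply div_le_div_of_nonneg_right _ hn.le
      calc cc n * rho ^ (n + 2) = (cc n * rho ^ (n + 1)) * rho := by ring
        _ ≤ F * rho := mul_le_mul_of_nonneg_right (hF n) hρ.le
  have h2 : Tendsto (fun n : ℕ => u 0 n * rho ^ (n + 2) / ((n : ℝ) + 1)) atTop (𝓝 0) := by
    refine tendsto_const_nhds.congr' ?_
    filter_upwards [eventually_ge_atTop 1] with n hn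
    obtain ⟨m, rfl⟩ := Nat.exists_eq_succ_of_ne_zero (by omega : n ≠ 0)
    rw [Nat.succ_eq_add_one, u_zero_succ, zero_mul, zero_div]
  have h3 := (((cv_tendsto.sub h1).add h2).sub u2_small)
  have e : (1 : ℝ) - 0 + 0 - 0 = 1 := by ring
  rw [e] at h3
  refine h3.congr fun n => ?_
  have h4 := dv_cc_eq n
  unfold dv at h4
  have hn : ((n : ℝ) + 1) ≠ 0 := by positivity
  have h5 : cc (n + 1) = (cv cc cc n - cc n + u 0 n - u 2 n) / ((n : ℝ) + 1) := by
    rw [← h4]; field_simp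
  rw [h5]
  ring

end Pool.Agent.T6.H85.Srtd
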