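import Mathlib
import Pool.Agent.T6.H85.Srtd.Rho

/-!
# Existence of the growth constant
-/

set_option autoImplicit false

namespace Pool.Agent.T6.H85.Srtd

open Finset Filter Topology

theorem super (m n : ℕ) : cc m * cc n / 2 ≤ ((m + n : ℕ) + 1 : ℝ) * cc (m + n + 1) := by
  have h := dv_cc_ge (m + n)
  unfold dv at h
  refine le_trans ?_ h
  gcongr
  unfold cv
  exact Finset.single_le_sum (f := fun p : ℕ × ℕ => cc p.1 * cc p.2)
    (fun p _ => mul_nonneg (cc_nonneg _) (cc_nonneg _))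
    (a := (m, n)) (Finset.HasAntidiagonal.mem_antidiagonal.2 rfl)

theorem super' {i j : ℕ} (hi : 1 ≤ i) (hj : 1 ≤ j) :
    cc (i - 1) * cc (j - 1) ≤ 2 * ((i + j : ℕ) : ℝ) * cc (i + j - 1) := by
  have h := super (i - 1) (j - 1)
  have e : i - 1 + (j - 1) + 1 = i + j - 1 := by omega
  rw [e] at h
  have h2 : (((i - 1 + (j - 1) : ℕ) : ℝ) + 1) ≤ ((i + j : ℕ) : ℝ) := by
    have : (i - 1 + (j - 1) : ℕ) + 1 ≤ i + j := by omega
    exact_mod_cast this
  have h3 := cc_nonneg (i + j - 1)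
  nlinarith

theorem doubling (m : ℕ) (hm : 1 ≤ m) (k : ℕ) : 1 ≤ k →
    (k : ℝ) ^ 2 * cc (m - 1) ^ k ≤ cc (k * m - 1) * (36 * m) ^ (k - 1) := by
  induction k using Nat.strong_induction_on with
  | _ k ih =>
    intro hk
    rcases Nat.eq_or_lt_of_le hk with h1 | h1
    · subst h1
      simp
    · set k1 := k / 2 with hk1
      set k2 := k - k1 with hk2
      have hk1' : 1 ≤ k1 := by omega
      have hk2' : 1 ≤ k2 := by omega
      have hsum : k1 + k2 = k := by omega
      have i1 := ih k1 (by omega) hk1'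
      have i2 := ih k2 (by omega) hk2'
      have hkm1 : 1 ≤ k1 * m := Nat.mul_pos hk1' hm
      have hkm2 : 1 ≤ k2 * m := Nat.mul_pos hk2' hm
      have h3 := super' hkm1 hkm2
      have e : k1 * m + k2 * m = k * m := by rw [← add_mul, hsum]
      rw [e] at h3
      set c := cc (m - 1) with hc
      have hc0 : 0 ≤ c := cc_nonneg _
      have hm0 : (0 : ℝ) < 36 * m := by
        have : (0 : ℝ) < m := by exact_mod_cast hm
        positivity
      set D : ℝ := 36 * m with hD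
      have h4 : ((k1 : ℝ) ^ 2 * c ^ k1) * ((k2 : ℝ) ^ 2 * c ^ k2) ≤
          (cc (k1 * m - 1) * D ^ (k1 - 1)) * (cc (k2 * m - 1) * D ^ (k2 - 1)) :=
        mul_le_mul i1 i2 (by positivity) (mul_nonneg (cc_nonneg _) (by positivity))
      have h5 : (cc (k1 * m - 1) * D ^ (k1 - 1)) * (cc (k2 * m - 1) * D ^ (k2 - 1)) =
          (cc (k1 * m - 1) * cc (k2 * m - 1)) * D ^ (k - 2) := by
        have : k - 2 = (k1 - 1) + (k2 - 1) := by omega
        rw [this, pow_add]; ring
      have h6 : ((k1 : ℝ) ^ 2 * c ^ k1) * ((k2 : ℝ) ^ 2 * c ^ k2) =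
          ((k1 : ℝ) * k2) ^ 2 * c ^ k := by
        rw [← hsum, pow_add]; ring
      rw [h5, h6] at h4
      have h7 : ((k1 : ℝ) * k2) ^ 2 * c ^ k ≤ 2 * ((k * m : ℕ) : ℝ) * cc (k * m - 1) * D ^ (k - 2) :=
        h4.trans (mul_le_mul_of_nonneg_right h3 (by positivity))
      have hk0 : (2 : ℝ) ≤ k := by exact_mod_cast h1
      have h8 : (k : ℝ) ^ 3 ≤ 18 * ((k1 : ℝ) * k2) ^ 2 := by
        have h9 : (k : ℝ) ^ 2 ≤ 4 * ((k1 : ℝ) * k2) + 1 := by
          have : k ^ 2 ≤ 4 * (k1 * k2) + 1 := by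
            rcases Nat.even_or_odd' k with ⟨c', hc' | hc'⟩
            · have e1 : k1 = c' := by omega
              have e2 : k2 = c' := by omega
              rw [e1, e2, hc']; nlinarith
            · have e1 : k1 = c' := by omega
              have e2 : k2 = c' + 1 := by omega
              rw [e1, e2, hc']; nlinarith
          exact_mod_cast this
        set p : ℝ := (k1 : ℝ) * k2
        have h10 : 3 / 16 * (k : ℝ) ^ 2 ≤ p := by nlinarith
        have h11 : (3 / 16 * (k : ℝ) ^ 2) ^ 2 ≤ p ^ 2 := pow_le_pow_left₀ (by positivity) h10 2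
        have h12 : (k : ℝ) ^ 3 * 2 ≤ (k : ℝ) ^ 4 := by
          have : 0 ≤ (k : ℝ) ^ 3 := by positivity
          nlinarith
        nlinarith
      have h13 : (k : ℝ) * ((k : ℝ) ^ 2 * c ^ k) ≤ (k : ℝ) * (cc (k * m - 1) * D ^ (k - 1)) := by
        have e1 : D ^ (k - 1) = D ^ (k - 2) * D := by
          rw [← pow_succ]; congr 1; omega
        calc (k : ℝ) * ((k : ℝ) ^ 2 * c ^ k) = (k : ℝ) ^ 3 * c ^ k := by ring
          _ ≤ (18 * ((k1 : ℝ) * k2) ^ 2) * c ^ k := by gcongr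
          _ = 18 * (((k1 : ℝ) * k2) ^ 2 * c ^ k) := by ring
          _ ≤ 18 * (2 * ((k * m : ℕ) : ℝ) * cc (k * m - 1) * D ^ (k - 2)) := by gcongr
          _ = (k : ℝ) * (cc (k * m - 1) * (D ^ (k - 2) * D)) := by
              rw [hD]; push_cast; ring
          _ = (k : ℝ) * (cc (k * m - 1) * D ^ (k - 1)) := by rw [e1]
      exact le_of_mul_le_mul_left h13 (by linarith)

theorem exists_good {r : ℝ} (hr : rho < r) : ∃ m : ℕ, 1 ≤ m ∧ 36 * m * (r⁻¹) ^ m ≤ cc (m - 1) := by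
  by_contra hc
  push Not at hc
  obtain ⟨r', h1, h2⟩ := exists_between hr
  have hr'0 : 0 < r' := rho_pos.trans h1
  have hr0 : 0 < r := rho_pos.trans hr
  apply not_summable_gt h1
  have hq : ‖r' / r‖ < 1 := by
    rw [Real.norm_of_nonneg (by positivity), div_lt_one hr0]; exact h2
  have h3 := summable_pow_mul_geometric_of_norm_lt_one 1 hq
  have h4 := summable_geometric_of_norm_lt_one hq
  have h5 : Summable (fun n : ℕ => (36 / r) * (((n : ℝ) + 1) * (r' / r) ^ n)) := by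
    refine Summable.mul_left _ ((h3.add h4).congr fun n => ?_)
    simp only [pow_one]
    ring
  refine Summable.of_nonneg_of_le (fun n => mul_nonneg (cc_nonneg n) (by positivity))
    (fun n => ?_) h5
  have h6 := (hc (n + 1) (by omega)).le
  simp only [Nat.add_sub_cancel] at h6
  calc cc n * r' ^ n ≤ (36 * ((n + 1 : ℕ) : ℝ) * (r⁻¹) ^ (n + 1)) * r' ^ n := by gcongr
    _ = (36 / r) * (((n : ℝ) + 1) * (r' / r) ^ n) := by
      rw [div_pow, inv_pow, pow_succ]
      push_cast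
      field_simp

theorem cc_lower {r : ℝ} (hr : rho < r) : ∃ κ : ℝ, 0 < κ ∧ ∀ n : ℕ,
    κ / ((n : ℝ) + 1) * (r⁻¹) ^ n ≤ cc n := by
  obtain ⟨m, hm, hgood⟩ := exists_good hr
  have hr1 : 1 < r := lt_of_le_of_lt one_le_rho hr
  have hr0 : 0 < r := by linarith
  have hinv1 : r⁻¹ ≤ 1 := inv_le_one_of_one_le₀ hr1.le
  have hinv0 : 0 < r⁻¹ := by positivity
  refine ⟨(1 / 2) ^ m / 2 * r⁻¹, by positivity, ?_⟩
  intro n
  have hn1 : (0 : ℝ) < (n : ℝ) + 1 := by positivity
  set k := (n + 1) / m with hk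
  set j := (n + 1) % m with hj
  have hdiv : m * k + j = n + 1 := Nat.div_add_mod (n + 1) m
  have hjm : j < m := Nat.mod_lt _ hm
  have hgoal : (1 / 2) ^ m / 2 * r⁻¹ / ((n : ℝ) + 1) * (r⁻¹) ^ n =
      (1 / 2) ^ m / (2 * ((n : ℝ) + 1)) * (r⁻¹) ^ (n + 1) := by
    rw [pow_succ (r⁻¹)]; field_simp
  rw [hgoal]
  rcases Nat.eq_zero_or_pos k with h0 | h0
  · -- n + 1 < m
    have hnm : n ≤ m := by rw [h0] at hdiv; omega
    calc (1 / 2) ^ m / (2 * ((n : ℝ) + 1)) * (r⁻¹) ^ (n + 1)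
        ≤ (1 / 2) ^ m / (2 * ((n : ℝ) + 1)) * 1 := by
          gcongr
          exact pow_le_one₀ hinv0.le hinv1
      _ ≤ (1 / 2) ^ m / 1 * 1 := by
          gcongr
          linarith
      _ = (1 / 2) ^ m := by ring
      _ ≤ (1 / 2) ^ n := pow_le_pow_of_le_one (by norm_num) (by norm_num) hnm
      _ ≤ cc n := cc_ge n
  · -- k ≥ 1
    have hmain : (r⁻¹) ^ (n + 1) ≤ cc (k * m - 1) := by
      have h1 := doubling m hm k h0
      have hm0 : (0 : ℝ) < 36 * m := by
        have : (0 : ℝ) < m := by exact_mod_cast hm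
        positivity
      have hk1 : (1 : ℝ) ≤ (k : ℝ) ^ 2 := by
        have : (1 : ℝ) ≤ k := by exact_mod_cast h0
        nlinarith
      have h2 : (36 * (m : ℝ) * (r⁻¹) ^ m) ^ k ≤ cc (k * m - 1) * (36 * m) ^ (k - 1) := by
        calc (36 * (m : ℝ) * (r⁻¹) ^ m) ^ k ≤ cc (m - 1) ^ k := by
              apply pow_le_pow_left₀ (by positivity) hgood
          _ = 1 * cc (m - 1) ^ k := by ring
          _ ≤ (k : ℝ) ^ 2 * cc (m - 1) ^ k := by
              apply mul_le_mul_of_nonneg_right hk1 (pow_nonneg (cc_nonneg _) _)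
          _ ≤ _ := h1
      have h3 : (36 * (m : ℝ) * (r⁻¹) ^ m) ^ k =
          (36 * (m : ℝ)) * (r⁻¹) ^ (m * k) * (36 * m) ^ (k - 1) := by
        rw [mul_pow, ← pow_mul]
        have : (36 * (m : ℝ)) ^ k = (36 * (m : ℝ)) ^ (k - 1) * (36 * m) := by
          rw [← pow_succ]; congr 1; omega
        rw [this]; ring
      rw [h3] at h2
      have h4 : (36 * (m : ℝ)) * (r⁻¹) ^ (m * k) ≤ cc (k * m - 1) :=
        le_of_mul_le_mul_right h2 (by positivity)
      have h5 : (1 : ℝ) ≤ 36 * m := by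
        have : (1 : ℝ) ≤ m := by exact_mod_cast hm
        linarith
      calc (r⁻¹) ^ (n + 1) ≤ (r⁻¹) ^ (m * k) :=
            pow_le_pow_of_le_one hinv0.le hinv1 (by omega)
        _ = 1 * (r⁻¹) ^ (m * k) := by ring
        _ ≤ (36 * (m : ℝ)) * (r⁻¹) ^ (m * k) := by gcongr
        _ ≤ _ := h4
    rcases Nat.eq_zero_or_pos j with h1 | h1
    · have e : n = k * m - 1 := by rw [h1] at hdiv; rw [mul_comm]; omega
      have h2 : (1 / 2 : ℝ) ^ m / (2 * ((n : ℝ) + 1)) ≤ 1 := by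
        rw [div_le_one (by positivity)]
        have : (1 / 2 : ℝ) ^ m ≤ 1 := pow_le_one₀ (by norm_num) (by norm_num)
        linarith
      calc (1 / 2) ^ m / (2 * ((n : ℝ) + 1)) * (r⁻¹) ^ (n + 1)
          ≤ 1 * (r⁻¹) ^ (n + 1) := by gcongr
        _ ≤ cc (k * m - 1) := by rw [one_mul]; exact hmain
        _ = cc n := by rw [← e]
    · have h2 := super' (i := k * m) (j := j) (Nat.mul_pos h0 hm) h1
      have e : k * m + j = n + 1 := by rw [mul_comm]; exact hdiv
      rw [e, Nat.add_sub_cancel] at h2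
      have h3 : (1 / 2 : ℝ) ^ m ≤ cc (j - 1) :=
        (pow_le_pow_of_le_one (by norm_num) (by norm_num) (by omega)).trans (cc_ge (j - 1))
      have h4 : (r⁻¹) ^ (n + 1) * (1 / 2 : ℝ) ^ m ≤ 2 * ((n + 1 : ℕ) : ℝ) * cc n :=
        le_trans (mul_le_mul hmain h3 (by positivity) (cc_nonneg _)) h2
      push_cast at h4
      rw [div_mul_eq_mul_div, div_le_iff₀ (by positivity)]
      linarith

theorem cc_upper {r : ℝ} (h0 : 0 < r) (hr : r < rho) : ∃ C : ℝ, 0 < C ∧ ∀ n : ℕ,
    cc n ≤ C * (r⁻¹) ^ n := by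
  have h1 := Sm_cc r h0.le hr
  obtain ⟨C, hC⟩ := h1.tendsto_atTop_zero.bddAbove_range
  refine ⟨max C 1, by positivity, fun n => ?_⟩
  have h2 : ‖cc n‖ * r ^ n ≤ C := hC ⟨n, rfl⟩
  rw [Real.norm_of_nonneg (cc_nonneg n)] at h2
  rw [inv_pow, ← div_eq_mul_inv, le_div_iff₀ (by positivity)]
  exact h2.trans (le_max_left _ _)

/-- The growth constant exists. -/
theorem cc_root : Tendsto (fun n : ℕ => cc n ^ (1 / (n : ℝ))) atTop (𝓝 rho⁻¹) := by
  rw [tendsto_order]
  constructor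
  · intro b hb
    rcases le_or_gt b 0 with hb0 | hb0
    · filter_upwards with n
      exact lt_of_le_of_lt hb0 (Real.rpow_pos_of_pos (cc_pos n) _)
    · obtain ⟨b', hb1, hb2⟩ := exists_between hb
      have hb'0 : 0 < b' := hb0.trans hb1
      have hr : rho < b'⁻¹ := by
        rw [lt_inv_comm₀ rho_pos hb'0]; exact hb2
      obtain ⟨κ, hκ, hlow⟩ := cc_lower hr
      rw [inv_inv] at hlow
      have hlim : Tendsto (fun n : ℕ => κ ^ (1 / (n : ℝ)) *
          (((n : ℝ) + 1) ^ ((1 : ℝ) / (1 * ((n : ℝ) + 1) + (-1))))⁻¹ * b') atTop (𝓝 b') := by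
        have l1 : Tendsto (fun n : ℕ => κ ^ (1 / (n : ℝ))) atTop (𝓝 1) := by
          have : Tendsto (fun n : ℕ => 1 / (n : ℝ)) atTop (𝓝 0) := tendsto_one_div_atTop_nhds_zero_nat
          have h2 := (Real.continuousAt_const_rpow (a := κ) (b := 0) hκ.ne').tendsto.comp this
          simpa [Function.comp_def] using h2
        have l2 : Tendsto (fun n : ℕ => (((n : ℝ) + 1) ^ ((1 : ℝ) / (1 * ((n : ℝ) + 1) + (-1)))))
            atTop (𝓝 1) :=
          (tendsto_rpow_div_mul_add 1 1 (-1) (by norm_num)).comp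
            (tendsto_atTop_add_const_right _ 1 tendsto_natCast_atTop_atTop)
        have l3 := (l1.mul (l2.inv₀ one_ne_zero)).mul_const b'
        simpa using l3
      filter_upwards [hlim.eventually (lt_mem_nhds hb1), eventually_ge_atTop 1] with n hn hn1
      refine lt_of_lt_of_le hn ?_
      have hnpos : (0 : ℝ) < n := by exact_mod_cast hn1
      have h1 := Real.rpow_le_rpow (by positivity) (hlow n) (by positivity : 0 ≤ 1 / (n : ℝ))
      refine le_trans (le_of_eq ?_) h1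
      rw [Real.mul_rpow (by positivity) (by positivity), Real.div_rpow hκ.le (by positivity)]
      have e1 : (b' ^ n) ^ (1 / (n : ℝ)) = b' := by
        rw [← Real.rpow_natCast, ← Real.rpow_mul hb'0.le]
        rw [mul_one_div_cancel hnpos.ne', Real.rpow_one]
      have e2 : 1 * ((n : ℝ) + 1) + (-1) = n := by ring
      rw [e1, e2, ← div_eq_mul_inv]
  · intro b hb
    have hb0 : 0 < b := (inv_pos.2 rho_pos).trans hb
    obtain ⟨b', hb1, hb2⟩ := exists_between hb
    have hb'0 : 0 < b' := (inv_pos.2 rho_pos).trans hb1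
    have hr : b'⁻¹ < rho := by
      rw [inv_lt_comm₀ hb'0 rho_pos]; exact hb1
    obtain ⟨C, hC, hup⟩ := cc_upper (inv_pos.2 hb'0) hr
    rw [inv_inv] at hup
    have hlim : Tendsto (fun n : ℕ => C ^ (1 / (n : ℝ)) * b') atTop (𝓝 b') := by
      have l1 : Tendsto (fun n : ℕ => C ^ (1 / (n : ℝ))) atTop (𝓝 1) := by
        have : Tendsto (fun n : ℕ => 1 / (n : ℝ)) atTop (𝓝 0) := tendsto_one_div_atTop_nhds_zero_nat
        have h2 := (Real.continuousAt_const_rpow (a := C) (b := 0) hC.ne').tendsto.comp this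
        simpa [Function.comp_def] using h2
      simpa using l1.mul_const b'
    filter_upwards [hlim.eventually (gt_mem_nhds hb2), eventually_ge_atTop 1] with n hn hn1
    refine lt_of_le_of_lt ?_ hn
    have hnpos : (0 : ℝ) < n := by exact_mod_cast hn1
    have h1 := Real.rpow_le_rpow (cc_nonneg n) (hup n) (by positivity : 0 ≤ 1 / (n : ℝ))
    refine le_trans h1 (le_of_eq ?_)
    rw [Real.mul_rpow hC.le (by positivity)]
    have e1 : (b' ^ n) ^ (1 / (n : ℝ)) = b' := by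
      rw [← Real.rpow_natCast, ← Real.rpow_mul hb'0.le]
      rw [mul_one_div_cancel hnpos.ne', Real.rpow_one]
    rw [e1]

end Pool.Agent.T6.H85.Srtd
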