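import Mathlib
import Pool.Agent.T6.H85.Srtd.Volt
import Pool.Agent.T6.H85.Srtd.Blow2

/-!
# The integral equation: existence part
-/

set_option autoImplicit false

namespace Pool.Agent.T6.H85.Srtd

open Finset Filter Topology

/-- auxiliary sums -/
noncomputable def En (w : ℝ) (n : ℕ) (t : ℝ) : ℝ :=
  ∑ l ∈ range (n + 1), (-(w - t)) ^ l * B l (Sf t * (w - t)) * Ph l t

theorem term_deriv (w : ℝ) (n : ℕ) {t : ℝ} (ht : |t| < rho) :
    HasDerivAt (fun t => (-(w - t)) ^ (n + 1) * B (n + 1) (Sf t * (w - t)) * Ph (n + 1) t)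
      ((((n : ℝ) + 1) * (-(w - t)) ^ n * B (n + 1) (Sf t * (w - t)) +
        (-(w - t)) ^ (n + 1) * (B (n + 2) (Sf t * (w - t)) * (s t * (w - t) - Sf t))) * Ph (n + 1) t +
        (-(w - t)) ^ (n + 1) * B (n + 1) (Sf t * (w - t)) * (s t * Ph n t - Ph (n + 2) t)) t := by
  have h0 : HasDerivAt (fun t => -(w - t)) 1 t := by
    exact (((hasDerivAt_id t).const_sub w).fun_neg).congr_deriv (by simp)
  have h1 : HasDerivAt (fun t => (-(w - t)) ^ (n + 1)) (((n : ℝ) + 1) * (-(w - t)) ^ n) t := by
    have := h0.pow (n + 1)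
    refine this.congr_deriv ?_
    push_cast
    simp
  have h2 : HasDerivAt (fun t => Sf t * (w - t)) (s t * (w - t) - Sf t) t := by
    refine ((Sf_deriv ht).mul ((hasDerivAt_id t).const_sub w)).congr_deriv ?_
    simp; ring
  have h3 : HasDerivAt (fun t => B (n + 1) (Sf t * (w - t)))
      (B (n + 2) (Sf t * (w - t)) * (s t * (w - t) - Sf t)) t :=
    HasDerivAt.comp (h₂ := B (n + 1)) (h := fun t => Sf t * (w - t)) t (B_deriv (n + 1) _) h2
  exact (h1.mul h3).mul (Ph_deriv n ht)

theorem En_deriv (w : ℝ) (n : ℕ) {t : ℝ} (ht : |t| < rho) :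
    HasDerivAt (En w n) (-(h t * Sf t * B 1 (Sf t * (w - t))) -
      (s t * (-(w - t)) ^ (n + 1) * B (n + 1) (Sf t * (w - t)) * Ph n t +
        (-(w - t)) ^ n * B n (Sf t * (w - t)) * Ph (n + 1) t)) t := by
  induction n with
  | zero =>
    have e : En w 0 = fun t => B 0 (Sf t * (w - t)) * Ph 0 t := by
      funext t
      unfold En
      simp
    rw [e]
    have h2 : HasDerivAt (fun t => Sf t * (w - t)) (s t * (w - t) - Sf t) t := by
      refine ((Sf_deriv ht).mul ((hasDerivAt_id t).const_sub w)).congr_deriv ?_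
      simp; ring
    have h3 : HasDerivAt (fun t => B 0 (Sf t * (w - t)))
        (B 1 (Sf t * (w - t)) * (s t * (w - t) - Sf t)) t :=
      HasDerivAt.comp (h₂ := B 0) (h := fun t => Sf t * (w - t)) t (B_deriv 0 _) h2
    refine (h3.mul (Ph_zero_deriv ht)).congr_deriv ?_
    have e2 : Ph 0 t = h t := by unfold Ph; rw [ch_zero, mul_one]
    rw [e2]
    ring
  | succ n ih =>
    have e : En w (n + 1) = fun t => En w n t +
        (-(w - t)) ^ (n + 1) * B (n + 1) (Sf t * (w - t)) * Ph (n + 1) t := by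
      funext t
      unfold En
      rw [Finset.sum_range_succ]
    rw [e]
    refine (ih.add (term_deriv w n ht)).congr_deriv ?_
    have hr := B_rec n (Sf t * (w - t))
    linear_combination (-(w - t)) ^ n * Ph (n + 1) t * (-1) * hr

theorem s_continuousOn {w : ℝ} (hw : w < rho) : ContinuousOn s (Set.Icc 0 w) := fun t ht =>
  (s_deriv (by rw [abs_of_nonneg ht.1]; exact lt_of_le_of_lt ht.2 hw)).continuousAt.continuousWithinAt

theorem Sf_continuousOn {w : ℝ} (hw : w < rho) : ContinuousOn Sf (Set.Icc 0 w) := fun t ht =>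
  (Sf_deriv (by rw [abs_of_nonneg ht.1]; exact lt_of_le_of_lt ht.2 hw)).continuousAt.continuousWithinAt

theorem h_continuousOn {w : ℝ} (hw : w < rho) : ContinuousOn h (Set.Icc 0 w) := fun t ht =>
  (h_deriv (by rw [abs_of_nonneg ht.1]; exact lt_of_le_of_lt ht.2 hw)).continuousAt.continuousWithinAt

theorem Ph_continuousOn (k : ℕ) {w : ℝ} (hw : w < rho) : ContinuousOn (Ph k) (Set.Icc 0 w) := by
  intro t ht
  have ht' : |t| < rho := by rw [abs_of_nonneg ht.1]; exact lt_of_le_of_lt ht.2 hw
  cases k with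
  | zero => exact (Ph_zero_deriv ht').continuousAt.continuousWithinAt
  | succ k => exact (Ph_deriv k ht').continuousAt.continuousWithinAt

theorem BS_continuousOn (l : ℕ) {w : ℝ} (hw : w < rho) :
    ContinuousOn (fun t => B l (Sf t * (w - t))) (Set.Icc 0 w) :=
  (B_continuous l).comp_continuousOn
    ((Sf_continuousOn hw).mul (continuousOn_const.sub continuousOn_id))

/-- The integral equation for the generating function. -/
theorem volterra {w : ℝ} (hw0 : 0 ≤ w) (hw : w < rho) :
    h w + ∫ t in (0 : ℝ)..w, h t * Sf t * B 1 (Sf t * (w - t)) = 1 := by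
  have hab : ∀ t ∈ Set.uIcc 0 w, |t| < rho := by
    intro t ht
    rw [Set.uIcc_of_le hw0] at ht
    rw [abs_of_nonneg ht.1]; exact lt_of_le_of_lt ht.2 hw
  set g : ℝ → ℝ := fun t => h t * Sf t * B 1 (Sf t * (w - t)) with hg
  set r : ℕ → ℝ → ℝ := fun n t => s t * (-(w - t)) ^ (n + 1) * B (n + 1) (Sf t * (w - t)) * Ph n t +
        (-(w - t)) ^ n * B n (Sf t * (w - t)) * Ph (n + 1) t with hr
  have hgc : ContinuousOn g (Set.Icc 0 w) :=
    ((h_continuousOn hw).mul (Sf_continuousOn hw)).mul (BS_continuousOn 1 hw)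
  have hpc : ∀ n : ℕ, ContinuousOn (fun t : ℝ => (-(w - t)) ^ n) (Set.Icc 0 w) := fun n =>
    ((continuous_const.sub continuous_id).neg.pow n).continuousOn
  have hrc : ∀ n, ContinuousOn (r n) (Set.Icc 0 w) := fun n =>
    ((((s_continuousOn hw).mul (hpc (n + 1))).mul (BS_continuousOn (n + 1) hw)).mul
      (Ph_continuousOn n hw)).add (((hpc n).mul (BS_continuousOn n hw)).mul
      (Ph_continuousOn (n + 1) hw))
  have hgi : IntervalIntegrable g MeasureTheory.volume 0 w :=
    hgc.intervalIntegrable_of_Icc hw0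
  have hgn : IntervalIntegrable (fun t => -(g t)) MeasureTheory.volume 0 w := hgi.neg
  have hri : ∀ n, IntervalIntegrable (r n) MeasureTheory.volume 0 w := fun n =>
    (hrc n).intervalIntegrable_of_Icc hw0
  have hS0 : Sf 0 = 0 := Sf_zero
  have key : ∀ n, h w - 1 = -(∫ t in (0 : ℝ)..w, g t) - ∫ t in (0 : ℝ)..w, r n t := by
    intro n
    have h1 := intervalIntegral.integral_eq_sub_of_hasDerivAt
      (f := En w n) (f' := fun t => -(g t) - r n t) (a := 0) (b := w)
      (fun t ht => En_deriv w n (hab t ht)) (hgn.sub (hri n))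
    rw [intervalIntegral.integral_sub hgn (hri n), intervalIntegral.integral_neg] at h1
    rw [h1]
    have e1 : En w n w = h w := by
      unfold En
      rw [Finset.sum_range_succ']
      have : ∀ k ∈ range n, (-(w - w)) ^ (k + 1) * B (k + 1) (Sf w * (w - w)) * Ph (k + 1) w = 0 := by
        intro k _
        simp
      rw [Finset.sum_eq_zero this]
      simp [B_at_zero, Ph, ch_zero]
    have e2 : En w n 0 = 1 := by
      unfold En
      rw [Finset.sum_range_succ']
      have : ∀ k ∈ range n, (-(w - 0)) ^ (k + 1) * B (k + 1) (Sf 0 * (w - 0)) * Ph (k + 1) 0 = 0 := by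
        intro k _
        unfold Ph
        rw [ch_succ_at_zero]
        simp
      rw [Finset.sum_eq_zero this]
      simp [hS0, B_at_zero, Ph, ch_zero, h]
    rw [e1, e2]
  -- bounds
  set M := s w with hM
  have hM1 : 1 ≤ M := s_ge_one hw0 hw
  set c := Sf w * 2 with hc
  have hw2 : w ≤ 2 := hw.le.trans rho_le_two
  have hbound : ∀ n, ∀ t ∈ Set.Icc 0 w, |r n t| ≤
      2 * (Real.exp c * Real.exp 2) * ((2 * M) * ((2 * M) ^ n / (n.factorial : ℝ))) := by
    intro n t ht
    have ht' : t < rho := lt_of_le_of_lt ht.2 hw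
    have s1 : s t ≤ M := ev_mono Sm_cc cc_nonneg ht.1 ht.2 hw
    have s0 : 0 ≤ s t := by have := s_ge_one ht.1 ht'; linarith
    have S1 : Sf t ≤ Sf w := ev_mono Sm_sc sc_nonneg ht.1 ht.2 hw
    have S0 : 0 ≤ Sf t := Sf_nonneg ht.1
    have u0 : 0 ≤ w - t := by linarith [ht.2]
    have u1 : w - t ≤ 2 := by linarith [ht.1]
    have v1 : Sf t * (w - t) ≤ c := mul_le_mul S1 u1 u0 (Sf_nonneg hw0)
    have v0 : 0 ≤ Sf t * (w - t) := mul_nonneg S0 u0
    have hB : ∀ l, |B l (Sf t * (w - t))| ≤ Real.exp c / (l.factorial : ℝ) := by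
      intro l
      rw [abs_of_nonneg (B_nonneg v0)]
      refine (B_le v0).trans ?_
      gcongr
    have hp : ∀ l, |(-(w - t)) ^ l| ≤ 2 ^ l := by
      intro l
      rw [abs_pow, abs_neg, abs_of_nonneg u0]
      exact pow_le_pow_left₀ u0 u1 l
    have hx : x t ≤ M := by
      have := s_eq (w := t) (by rwa [abs_of_nonneg ht.1])
      linarith
    have hPh : ∀ l, |Ph l t| ≤ Real.exp 2 * M ^ l := by
      intro l
      unfold Ph
      have h1 : 0 ≤ h t := (Real.exp_pos _).le
      rw [abs_of_nonneg (mul_nonneg h1 (ch_nonneg l ht.1))]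
      have h2 : h t ≤ Real.exp 2 := by
        unfold h
        apply Real.exp_le_exp.2
        linarith
      have h3 : ch l t ≤ M ^ l := (ch_le l ht.1 ht').trans (pow_le_pow_left₀ (x_nonneg ht.1) hx l)
      exact mul_le_mul h2 h3 (ch_nonneg l ht.1) (Real.exp_pos _).le
    have hf : (0 : ℝ) < (n.factorial : ℝ) := by positivity
    have hf2 : (n.factorial : ℝ) ≤ ((n + 1).factorial : ℝ) := by
      exact_mod_cast Nat.factorial_le (by omega)
    have ha : |s t * (-(w - t)) ^ (n + 1) * B (n + 1) (Sf t * (w - t)) * Ph n t| ≤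
        (Real.exp c * Real.exp 2) * ((2 * M) * ((2 * M) ^ n / (n.factorial : ℝ))) := by
      rw [abs_mul, abs_mul, abs_mul, abs_of_nonneg s0]
      calc s t * |(-(w - t)) ^ (n + 1)| * |B (n + 1) (Sf t * (w - t))| * |Ph n t|
          ≤ M * 2 ^ (n + 1) * (Real.exp c / ((n + 1).factorial : ℝ)) * (Real.exp 2 * M ^ n) := by
            gcongr
            · exact hp _
            · exact hB _
            · exact hPh _
        _ ≤ M * 2 ^ (n + 1) * (Real.exp c / (n.factorial : ℝ)) * (Real.exp 2 * M ^ n) := by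
            gcongr
        _ = (Real.exp c * Real.exp 2) * ((2 * M) * ((2 * M) ^ n / (n.factorial : ℝ))) := by
            rw [mul_pow, pow_succ]; ring
    have hb : |(-(w - t)) ^ n * B n (Sf t * (w - t)) * Ph (n + 1) t| ≤
        (Real.exp c * Real.exp 2) * ((2 * M) * ((2 * M) ^ n / (n.factorial : ℝ))) := by
      rw [abs_mul, abs_mul]
      calc |(-(w - t)) ^ n| * |B n (Sf t * (w - t))| * |Ph (n + 1) t|
          ≤ 2 ^ n * (Real.exp c / (n.factorial : ℝ)) * (Real.exp 2 * M ^ (n + 1)) := by
            gcongr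
            · exact hp _
            · exact hB _
            · exact hPh _
        _ = (Real.exp c * Real.exp 2) * ((1 * M) * ((2 * M) ^ n / (n.factorial : ℝ))) := by
            rw [mul_pow, pow_succ]; ring
        _ ≤ (Real.exp c * Real.exp 2) * ((2 * M) * ((2 * M) ^ n / (n.factorial : ℝ))) := by
            gcongr
            norm_num
    calc |r n t| ≤ _ := abs_add_le _ _
      _ ≤ _ := add_le_add ha hb
      _ = _ := by ring
  have hlim : Tendsto (fun n => ∫ t in (0 : ℝ)..w, r n t) atTop (𝓝 0) := by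
    have h1 : Tendsto (fun n : ℕ => 2 * (Real.exp c * Real.exp 2) *
        ((2 * M) * ((2 * M) ^ n / (n.factorial : ℝ))) * |w - 0|) atTop (𝓝 0) := by
      have h2 := FloorSemiring.tendsto_pow_div_factorial_atTop (2 * M)
      have h3 := ((h2.const_mul (2 * M)).const_mul (2 * (Real.exp c * Real.exp 2))).mul_const |w - 0|
      simpa using h3
    refine squeeze_zero_norm (fun n => ?_) h1
    refine intervalIntegral.norm_integral_le_of_norm_le_const fun t ht => ?_
    rw [Set.uIoc_of_le hw0] at ht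
    exact hbound n t ⟨ht.1.le, ht.2⟩
  have h2 : Tendsto (fun n => -(∫ t in (0 : ℝ)..w, g t) - ∫ t in (0 : ℝ)..w, r n t) atTop
      (𝓝 (-(∫ t in (0 : ℝ)..w, g t) - 0)) := hlim.const_sub _
  have h3 : Tendsto (fun _ : ℕ => h w - 1) atTop (𝓝 (h w - 1)) := tendsto_const_nhds
  have h4 : h w - 1 = -(∫ t in (0 : ℝ)..w, g t) - 0 := by
    refine tendsto_nhds_unique h3 ?_
    refine h2.congr fun n => (key n).symm
  linarith

/-- `S(t) → ∞` -/
theorem Sf_tendsto : Tendsto Sf (𝓝[<] rho) atTop := by
  have h1r := one_le_rho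
  have h1 : Tendsto (fun w : ℝ => -Real.log (rho - w)) (𝓝[<] rho) atTop := by
    apply tendsto_neg_atBot_atTop.comp
    apply Real.tendsto_log_nhdsGT_zero.comp
    rw [tendsto_nhdsWithin_iff]
    constructor
    · have : Tendsto (fun w : ℝ => rho - w) (𝓝 rho) (𝓝 (rho - rho)) :=
        (continuous_const.sub continuous_id).tendsto rho
      rw [sub_self] at this
      exact this.mono_left nhdsWithin_le_nhds
    · filter_upwards [self_mem_nhdsWithin] with w hw
      have : w < rho := hw
      simp only [Set.mem_Ioi]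
      linarith
  have hmono : MonotoneOn (fun t => Sf t + Real.log (rho - t)) (Set.Ico 0 rho) := by
    have hder : ∀ t ∈ Set.Ico (0 : ℝ) rho, HasDerivAt (fun t => Sf t + Real.log (rho - t))
        (s t + -1 / (rho - t)) t := by
      intro t ht
      have hne : rho - t ≠ 0 := by have := ht.2; intro h; linarith
      exact (Sf_deriv (by rw [abs_of_nonneg ht.1]; exact ht.2)).add
        (((hasDerivAt_id t).const_sub rho).log hne)
    refine monotoneOn_of_hasDerivWithinAt_nonneg (f' := fun t => s t + -1 / (rho - t))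
      (convex_Ico _ _) ?_ ?_ ?_
    · intro t ht
      exact (hder t ht).continuousAt.continuousWithinAt
    · intro t ht
      rw [interior_Ico] at ht
      exact (hder t ⟨ht.1.le, ht.2⟩).hasDerivWithinAt
    · intro t ht
      rw [interior_Ico] at ht
      have h2 := one_le_s_mul ht.1.le ht.2
      have h3 : 0 < rho - t := by linarith [ht.2]
      have h4 : 1 / (rho - t) ≤ s t := by rw [div_le_iff₀ h3]; exact h2
      have h5 : -1 / (rho - t) = -(1 / (rho - t)) := by ring
      rw [h5]; linarith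
  have h2 : Tendsto (fun w : ℝ => Real.log rho + -Real.log (rho - w)) (𝓝[<] rho) atTop :=
    tendsto_atTop_add_const_left _ _ h1
  refine tendsto_atTop_mono' _ ?_ h2
  filter_upwards [Ioo_mem_nhdsLT rho_pos] with w hw
  have h3 := hmono ⟨le_rfl, rho_pos⟩ ⟨hw.1.le, hw.2⟩ hw.1.le
  simp only [Sf_zero, sub_zero, zero_add] at h3
  linarith

end Pool.Agent.T6.H85.Srtd
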