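import Mathlib
import Pool.Agent.T6.H85.Srtd.Volt2

/-!
# The integral equation: uniqueness
-/

set_option autoImplicit false

namespace Pool.Agent.T6.H85.Srtd

open Finset Filter Topology MeasureTheory

theorem abs_B_le (l : ℕ) (v : ℝ) : |B l v| ≤ Real.exp |v| := by
  have h1 : |B l v| ≤ B l |v| := by
    rw [B_eq, B_eq]
    unfold ev
    have hs := (Sm_b l (|v| + 1)).norm_summable (w := v) (by rw [Real.norm_eq_abs]; linarith)
    have h2 := norm_tsum_le_tsum_norm hs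
    rw [Real.norm_eq_abs] at h2
    refine h2.trans (le_of_eq (tsum_congr fun n => ?_))
    rw [norm_mul, norm_pow, Real.norm_eq_abs, Real.norm_eq_abs, abs_of_nonneg (b_nonneg l n)]
  refine h1.trans ((B_le (abs_nonneg v)).trans ?_)
  apply div_le_self (Real.exp_pos _).le
  exact_mod_cast Nat.one_le_iff_ne_zero.2 l.factorial_ne_zero

/-- the kernel -/
noncomputable def GG (u σ : ℝ) : ℝ := Real.exp (-σ) * σ * B 1 (σ * u)

theorem GG_deriv (u σ : ℝ) : HasDerivAt (GG u)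
    ((-Real.exp (-σ) * σ + Real.exp (-σ)) * B 1 (σ * u) + Real.exp (-σ) * σ * (B 2 (σ * u) * u)) σ := by
  have h1 : HasDerivAt (fun σ : ℝ => Real.exp (-σ)) (-Real.exp (-σ)) σ := by
    have := (hasDerivAt_neg σ).exp
    refine this.congr_deriv (by ring)
  have h2 : HasDerivAt (fun σ : ℝ => σ * u) u σ := by
    simpa using (hasDerivAt_id σ).mul_const u
  have h3 : HasDerivAt (fun σ : ℝ => B 1 (σ * u)) (B 2 (σ * u) * u) σ :=
    HasDerivAt.comp (h₂ := B 1) (h := fun σ => σ * u) σ (B_deriv 1 _) h2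
  refine ((h1.mul (hasDerivAt_id σ)).mul h3).congr_deriv ?_
  simp

theorem GG_lip {M T : ℝ} (hM : 0 ≤ M) (hT : 0 ≤ T) : ∃ C : ℝ, 0 ≤ C ∧ ∀ u ∈ Set.Icc 0 T,
    ∀ σ₁ ∈ Set.Icc (-M) M, ∀ σ₂ ∈ Set.Icc (-M) M, |GG u σ₁ - GG u σ₂| ≤ C * |σ₁ - σ₂| := by
  refine ⟨Real.exp M * (M + 1) * Real.exp (M * T) + Real.exp M * M * (Real.exp (M * T) * T),
    by positivity, ?_⟩
  intro u hu σ₁ h₁ σ₂ h₂
  have hb : ∀ σ ∈ Set.Icc (-M) M, ‖(-Real.exp (-σ) * σ + Real.exp (-σ)) * B 1 (σ * u) +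
      Real.exp (-σ) * σ * (B 2 (σ * u) * u)‖ ≤
      Real.exp M * (M + 1) * Real.exp (M * T) + Real.exp M * M * (Real.exp (M * T) * T) := by
    intro σ hσ
    have hσ' : |σ| ≤ M := abs_le.2 hσ
    have hu' : |u| ≤ T := by rw [abs_of_nonneg hu.1]; exact hu.2
    have he : Real.exp (-σ) ≤ Real.exp M := Real.exp_le_exp.2 (by linarith [hσ.1])
    have hB : ∀ l, |B l (σ * u)| ≤ Real.exp (M * T) := by
      intro l
      refine (abs_B_le l _).trans (Real.exp_le_exp.2 ?_)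
      rw [abs_mul]
      exact mul_le_mul hσ' hu' (abs_nonneg _) hM
    have h1 : |(-Real.exp (-σ) * σ + Real.exp (-σ))| ≤ Real.exp M * (M + 1) := by
      have e : (-Real.exp (-σ) * σ + Real.exp (-σ)) = Real.exp (-σ) * (1 - σ) := by ring
      rw [e, abs_mul, abs_of_pos (Real.exp_pos _)]
      have : |1 - σ| ≤ M + 1 := by
        rw [abs_le]; constructor <;> linarith [hσ.1, hσ.2]
      gcongr
    rw [Real.norm_eq_abs]
    refine (abs_add_le _ _).trans (add_le_add ?_ ?_)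
    · rw [abs_mul]
      have := hB 1
      gcongr
    · rw [abs_mul, abs_mul, abs_mul, abs_of_pos (Real.exp_pos _)]
      have := hB 2
      gcongr
  have := Convex.norm_image_sub_le_of_norm_hasDerivWithin_le (f := GG u)
    (fun σ _ => (GG_deriv u σ).hasDerivWithinAt) hb (convex_Icc (-M) M) h₂ h₁
  simpa [Real.norm_eq_abs] using this

theorem exp_sub_ge {a b m : ℝ} (ha : m ≤ a) (hb : m ≤ b) :
    Real.exp m * |a - b| ≤ |Real.exp a - Real.exp b| := by
  wlog hab : b ≤ a generalizing a b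
  · rw [abs_sub_comm a b, abs_sub_comm (Real.exp a)]
    exact this hb ha (le_of_not_ge hab)
  rw [abs_of_nonneg (by linarith), abs_of_nonneg (by have := Real.exp_le_exp.2 hab; linarith)]
  have h1 : Real.exp a = Real.exp b * Real.exp (a - b) := by rw [← Real.exp_add]; ring_nf
  have h2 := Real.add_one_le_exp (a - b)
  have h3 : Real.exp m ≤ Real.exp b := Real.exp_le_exp.2 hb
  have h4 : 0 ≤ a - b := by linarith
  have h5 : 0 < Real.exp b := Real.exp_pos b
  rw [h1]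
  nlinarith [mul_le_mul_of_nonneg_right h3 h4]

/-- the equation at `w` -/
def EqAt (S : ℝ → ℝ) (w : ℝ) : Prop :=
  Real.exp (w - S w) + ∫ t in (0 : ℝ)..w, Real.exp (t - S t) * S t * B 1 (S t * (w - t)) = 1

theorem uniq {T : ℝ} (hT : 0 ≤ T) {S₁ S₂ : ℝ → ℝ} (c₁ : ContinuousOn S₁ (Set.Icc 0 T))
    (c₂ : ContinuousOn S₂ (Set.Icc 0 T)) (e₁ : ∀ w ∈ Set.Icc 0 T, EqAt S₁ w)
    (e₂ : ∀ w ∈ Set.Icc 0 T, EqAt S₂ w) : ∀ w ∈ Set.Icc 0 T, S₁ w = S₂ w := by
  obtain ⟨M₁, hM₁⟩ := isCompact_Icc.exists_bound_of_continuousOn c₁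
  obtain ⟨M₂, hM₂⟩ := isCompact_Icc.exists_bound_of_continuousOn c₂
  set M := max M₁ M₂ with hM
  have hM0 : 0 ≤ M := by
    have := hM₁ 0 ⟨le_rfl, hT⟩
    have h2 : M₁ ≤ M := le_max_left _ _
    linarith [norm_nonneg (S₁ 0)]
  have b₁ : ∀ t ∈ Set.Icc 0 T, S₁ t ∈ Set.Icc (-M) M := fun t ht =>
    abs_le.1 ((hM₁ t ht).trans (le_max_left _ _))
  have b₂ : ∀ t ∈ Set.Icc 0 T, S₂ t ∈ Set.Icc (-M) M := fun t ht =>
    abs_le.1 ((hM₂ t ht).trans (le_max_right _ _))
  obtain ⟨C, hC0, hC⟩ := GG_lip hM0 hT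
  -- continuous extension of the difference
  set pr : ℝ → ℝ := fun t => max 0 (min T t) with hpr
  have hprc : Continuous pr := continuous_const.max (continuous_const.min continuous_id)
  have hprm : ∀ t, pr t ∈ Set.Icc 0 T := fun t =>
    ⟨le_max_left _ _, max_le hT (min_le_left _ _)⟩
  have hpre : ∀ t ∈ Set.Icc 0 T, pr t = t := by
    intro t ht
    simp only [hpr]
    rw [min_eq_right ht.2, max_eq_right ht.1]
  set D : ℝ → ℝ := fun t => |S₁ (pr t) - S₂ (pr t)| with hD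
  have hDc : Continuous D :=
    ((c₁.comp_continuous hprc hprm).sub (c₂.comp_continuous hprc hprm)).abs
  have hD0 : ∀ t, 0 ≤ D t := fun t => abs_nonneg _
  have hDe : ∀ t ∈ Set.Icc 0 T, D t = |S₁ t - S₂ t| := by
    intro t ht
    simp only [hD]
    rw [hpre t ht]
  set K := Real.exp M * (Real.exp T * C) with hK
  have hK0 : 0 ≤ K := by positivity
  have hkey : ∀ w ∈ Set.Icc 0 T, D w ≤ K * ∫ t in (0 : ℝ)..w, D t := by
    intro w hw
    have hsub : ∀ t ∈ Set.uIcc 0 w, t ∈ Set.Icc 0 T := by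
      intro t ht
      rw [Set.uIcc_of_le hw.1] at ht
      exact ⟨ht.1, ht.2.trans hw.2⟩
    have hicc : Set.Icc 0 w ⊆ Set.Icc 0 T := fun t ht => ⟨ht.1, ht.2.trans hw.2⟩
    have hci : ∀ S : ℝ → ℝ, ContinuousOn S (Set.Icc 0 T) → IntervalIntegrable
        (fun t => Real.exp (t - S t) * S t * B 1 (S t * (w - t))) volume 0 w := by
      intro S cS
      refine ContinuousOn.intervalIntegrable_of_Icc hw.1 ?_
      have cS' := cS.mono hicc
      exact (((continuousOn_id.sub cS').rexp).mul cS').mul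
        ((B_continuous 1).comp_continuousOn (cS'.mul (continuousOn_const.sub continuousOn_id)))
    have h1 := e₁ w hw
    have h2 := e₂ w hw
    unfold EqAt at h1 h2
    have h3 : Real.exp (w - S₁ w) - Real.exp (w - S₂ w) =
        ∫ t in (0 : ℝ)..w, (Real.exp (t - S₂ t) * S₂ t * B 1 (S₂ t * (w - t)) -
          Real.exp (t - S₁ t) * S₁ t * B 1 (S₁ t * (w - t))) := by
      rw [intervalIntegral.integral_sub (hci S₂ c₂) (hci S₁ c₁)]
      linarith
    have h4 : |∫ t in (0 : ℝ)..w, (Real.exp (t - S₂ t) * S₂ t * B 1 (S₂ t * (w - t)) -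
          Real.exp (t - S₁ t) * S₁ t * B 1 (S₁ t * (w - t)))| ≤
          ∫ t in (0 : ℝ)..w, (Real.exp T * C) * D t := by
      refine (intervalIntegral.abs_integral_le_integral_abs hw.1).trans ?_
      refine intervalIntegral.integral_mono_on hw.1 ((hci S₂ c₂).sub (hci S₁ c₁)).abs
        ((hDc.intervalIntegrable 0 w).const_mul _) ?_
      intro t ht
      have htT := hicc ht
      have e : Real.exp (t - S₂ t) * S₂ t * B 1 (S₂ t * (w - t)) -
          Real.exp (t - S₁ t) * S₁ t * B 1 (S₁ t * (w - t)) =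
          Real.exp t * (GG (w - t) (S₂ t) - GG (w - t) (S₁ t)) := by
        unfold GG
        rw [sub_eq_add_neg t, sub_eq_add_neg t, Real.exp_add, Real.exp_add]
        ring
      rw [e, abs_mul, abs_of_pos (Real.exp_pos _)]
      have h5 := hC (w - t) ⟨by linarith [ht.2], by linarith [ht.1, hw.2]⟩ (S₂ t) (b₂ t htT)
        (S₁ t) (b₁ t htT)
      have h6 : Real.exp t ≤ Real.exp T := Real.exp_le_exp.2 htT.2
      rw [hDe t htT, abs_sub_comm (S₁ t)]
      calc Real.exp t * |GG (w - t) (S₂ t) - GG (w - t) (S₁ t)|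
          ≤ Real.exp T * (C * |S₂ t - S₁ t|) := by gcongr
        _ = _ := by ring
    rw [intervalIntegral.integral_const_mul] at h4
    have h5 := exp_sub_ge (a := w - S₁ w) (b := w - S₂ w) (m := -M)
      (by linarith [hw.1, (b₁ w hw).2]) (by linarith [hw.1, (b₂ w hw).2])
    rw [h3] at h5
    have h6 : w - S₁ w - (w - S₂ w) = -(S₁ w - S₂ w) := by ring
    rw [h6, abs_neg] at h5
    have h7 : Real.exp (-M) * D w ≤ Real.exp T * C * ∫ t in (0 : ℝ)..w, D t := by
      rw [hDe w hw]; exact h5.trans h4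
    calc D w = Real.exp M * (Real.exp (-M) * D w) := by
          rw [← mul_assoc, ← Real.exp_add]; simp
      _ ≤ Real.exp M * (Real.exp T * C * ∫ t in (0 : ℝ)..w, D t) := by gcongr
      _ = _ := by rw [hK]; ring
  -- Gronwall
  have hFd : ∀ w, HasDerivAt (fun w => ∫ t in (0 : ℝ)..w, D t) (D w) w := fun w =>
    (hDc.integral_hasStrictDerivAt 0 w).hasDerivAt
  have hanti : AntitoneOn (fun w => (∫ t in (0 : ℝ)..w, D t) * Real.exp (-K * w)) (Set.Icc 0 T) := by
    have hder : ∀ w, HasDerivAt (fun w => (∫ t in (0 : ℝ)..w, D t) * Real.exp (-K * w))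
        (D w * Real.exp (-K * w) + (∫ t in (0 : ℝ)..w, D t) * (Real.exp (-K * w) * (-K * 1))) w := by
      intro w
      exact (hFd w).mul (((hasDerivAt_id w).const_mul (-K)).exp)
    refine antitoneOn_of_hasDerivWithinAt_nonpos (f' := fun w => D w * Real.exp (-K * w) +
      (∫ t in (0 : ℝ)..w, D t) * (Real.exp (-K * w) * (-K * 1))) (convex_Icc _ _) ?_ ?_ ?_
    · intro w _
      exact (hder w).continuousAt.continuousWithinAt
    · intro w _
      exact (hder w).hasDerivWithinAt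
    · intro w hw
      rw [interior_Icc] at hw
      have h1 := hkey w ⟨hw.1.le, hw.2.le⟩
      have h2 : D w * Real.exp (-K * w) + (∫ t in (0 : ℝ)..w, D t) * (Real.exp (-K * w) * (-K * 1)) =
        (D w - K * ∫ t in (0 : ℝ)..w, D t) * Real.exp (-K * w) := by ring
      rw [h2]
      exact mul_nonpos_of_nonpos_of_nonneg (by linarith) (Real.exp_pos _).le
  intro w hw
  have h1 := hanti ⟨le_rfl, hT⟩ hw hw.1
  simp only [intervalIntegral.integral_same, zero_mul] at h1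
  have h2 : ∫ t in (0 : ℝ)..w, D t ≤ 0 := by
    by_contra hc
    push Not at hc
    have := mul_pos hc (Real.exp_pos (-K * w))
    linarith
  have h3 := hkey w hw
  have h4 : D w ≤ 0 := h3.trans (mul_nonpos_of_nonneg_of_nonpos hK0 h2)
  rw [hDe w hw] at h4
  have := abs_nonneg (S₁ w - S₂ w)
  have h5 : |S₁ w - S₂ w| = 0 := le_antisymm h4 this
  linarith [abs_eq_zero.1 h5]

theorem Sf_eqAt {w : ℝ} (hw : 0 ≤ w) (hw' : w < rho) : EqAt Sf w := volterra hw hw'

/-- Uniqueness of the blowing up solution. -/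
theorem sol_unique {ρ : ℝ} {S : ℝ → ℝ} (hρ : 0 < ρ) (hc : ContinuousOn S (Set.Ico 0 ρ))
    (he : ∀ w ∈ Set.Ico 0 ρ, EqAt S w) (hb : Tendsto S (𝓝[<] ρ) atTop) :
    ρ = rho ∧ ∀ t ∈ Set.Ico 0 rho, S t = Sf t := by
  have heq : ∀ t, 0 ≤ t → t < ρ → t < rho → S t = Sf t := by
    intro t h0 h1 h2
    refine uniq h0 (hc.mono fun s hs => ⟨hs.1, lt_of_le_of_lt hs.2 h1⟩) (Sf_continuousOn h2)
      (fun w hw => he w ⟨hw.1, lt_of_le_of_lt hw.2 h1⟩)
      (fun w hw => Sf_eqAt hw.1 (lt_of_le_of_lt hw.2 h2)) t ⟨h0, le_rfl⟩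
  have hρ' : ρ = rho := by
    rcases lt_trichotomy ρ rho with h | h | h
    · exfalso
      have h1 : Tendsto Sf (𝓝[<] ρ) (𝓝 (Sf ρ)) :=
        ((Sf_deriv (by rwa [abs_of_pos hρ])).continuousAt.tendsto).mono_left nhdsWithin_le_nhds
      have h2 : Tendsto S (𝓝[<] ρ) (𝓝 (Sf ρ)) := by
        refine h1.congr' ?_
        filter_upwards [Ioo_mem_nhdsLT hρ] with t ht
        exact (heq t ht.1.le ht.2 (ht.2.trans h)).symm
      exact not_tendsto_nhds_of_tendsto_atTop hb _ h2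
    · exact h
    · exfalso
      have h0 : ContinuousAt S rho := hc.continuousAt (Ico_mem_nhds rho_pos h)
      have h1 : Tendsto S (𝓝[<] rho) (𝓝 (S rho)) := h0.tendsto.mono_left nhdsWithin_le_nhds
      have h2 : Tendsto Sf (𝓝[<] rho) (𝓝 (S rho)) := by
        refine h1.congr' ?_
        filter_upwards [Ioo_mem_nhdsLT rho_pos] with t ht
        exact heq t ht.1.le (ht.2.trans h) ht.2
      exact not_tendsto_nhds_of_tendsto_atTop Sf_tendsto _ h2
  refine ⟨hρ', fun t ht => ?_⟩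
  exact heq t ht.1 (by rw [hρ']; exact ht.2) ht.2

end Pool.Agent.T6.H85.Srtd
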