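import Mathlib
import Pool.Agent.T6.H85.Srtd.Rho

/-!
# Bounds for the radius of convergence from finitely many coefficients
-/

set_option autoImplicit false

namespace Pool.Agent.T6.H85.Srtd

open Finset

theorem sum_split (F : ℕ → ℝ) {J n : ℕ} (hn : 2 * J + 1 ≤ n) :
    ∑ j ∈ range (n + 1), F j = ∑ j ∈ range (J + 1), F j + ∑ j ∈ Ico (J + 1) (n - J), F j +
      ∑ i ∈ range (J + 1), F (n - i) := by
  have h1 : ∑ j ∈ range (n + 1), F j = ∑ j ∈ range (n - J), F j + ∑ j ∈ Ico (n - J) (n + 1), F j := by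
    rw [Finset.range_eq_Ico, Finset.range_eq_Ico]
    exact (Finset.sum_Ico_consecutive F (by omega) (by omega)).symm
  have h2 : ∑ j ∈ range (n - J), F j = ∑ j ∈ range (J + 1), F j +
      ∑ j ∈ Ico (J + 1) (n - J), F j := by
    rw [Finset.range_eq_Ico, Finset.range_eq_Ico]
    exact (Finset.sum_Ico_consecutive F (by omega) (by omega)).symm
  have h3 : ∑ j ∈ Ico (n - J) (n + 1), F j = ∑ i ∈ range (J + 1), F (n - i) := by
    rw [← Finset.sum_range_reflect (fun i => F (n - i)) (J + 1)]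
    rw [Finset.sum_Ico_eq_sum_range]
    have e : n + 1 - (n - J) = J + 1 := by omega
    rw [e]
    refine Finset.sum_congr rfl fun k hk => ?_
    rw [Finset.mem_range] at hk
    congr 1
    omega
  rw [h1, h2, h3]

theorem cv_range (f g : ℕ → ℝ) (n : ℕ) : cv f g n = ∑ j ∈ range (n + 1), f j * g (n - j) := by
  unfold cv
  rw [Finset.Nat.sum_antidiagonal_eq_sum_range_succ_mk]

/-- scaled coefficients -/
noncomputable def p (t : ℝ) (i : ℕ) : ℝ := u 1 i * t ^ (i + 1)
/-- scaled coefficients of `Q` -/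
noncomputable def g (t : ℝ) (i : ℕ) : ℝ := q i * t ^ (i + 2)

theorem p_nonneg {t : ℝ} (ht : 0 < t) (i : ℕ) : 0 ≤ p t i :=
  mul_nonneg (u_nonneg 1 i) (by positivity)

theorem g_nonneg {t : ℝ} (ht : 0 < t) (i : ℕ) : 0 ≤ g t i :=
  mul_nonneg (q_nonneg i) (by positivity)

theorem cv_p_p (t : ℝ) (n : ℕ) : cv (u 1) (u 1) n * t ^ (n + 2) = cv (p t) (p t) n := by
  unfold cv p
  rw [Finset.sum_mul]
  refine Finset.sum_congr rfl fun pq hpq => ?_
  rw [← Finset.HasAntidiagonal.mem_antidiagonal.1 hpq]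
  ring

theorem cv_p_g (t : ℝ) (n : ℕ) : cv (u 1) q n * t ^ (n + 3) = cv (p t) (g t) n := by
  unfold cv p g
  rw [Finset.sum_mul]
  refine Finset.sum_congr rfl fun pq hpq => ?_
  rw [← Finset.HasAntidiagonal.mem_antidiagonal.1 hpq]
  ring

theorem p_rec_ge {t : ℝ} (ht : 0 < t) (n : ℕ) :
    t * p t n + cv (p t) (p t) n / 2 + g t n / 2 ≤ ((n : ℝ) + 1) * p t (n + 1) := by
  have h := x_rec n
  have h0 := u_nonneg 0 n
  unfold dv at h
  have e : ((n : ℝ) + 1) * p t (n + 1) = (((n : ℝ) + 1) * u 1 (n + 1)) * t ^ (n + 2) := by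
    unfold p; ring
  rw [e, h, ← cv_p_p]
  unfold p g
  have : 0 ≤ u 0 n * t ^ (n + 2) := by positivity
  have e2 : t * (u 1 n * t ^ (n + 1)) = u 1 n * t ^ (n + 2) := by ring
  rw [e2]
  linarith

theorem p_rec_le {t : ℝ} (ht : 0 < t) {n : ℕ} (hn : 1 ≤ n) :
    ((n : ℝ) + 1) * p t (n + 1) ≤ t * p t n + cv (p t) (p t) n := by
  have h := x_rec_le n
  obtain ⟨m, rfl⟩ : ∃ m, n = m + 1 := ⟨n - 1, by omega⟩
  rw [u_zero_succ, zero_add] at h
  unfold dv at h
  have e : (((m + 1 : ℕ) : ℝ) + 1) * p t (m + 1 + 1) =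
      ((((m + 1 : ℕ) : ℝ) + 1) * u 1 (m + 1 + 1)) * t ^ (m + 1 + 2) := by
    unfold p; ring
  rw [e, ← cv_p_p]
  have e2 : t * p t (m + 1) = u 1 (m + 1) * t ^ (m + 1 + 2) := by unfold p; ring
  rw [e2, ← add_mul]
  exact mul_le_mul_of_nonneg_right h (by positivity)

theorem g_rec_ge {t : ℝ} (ht : 0 < t) (n : ℕ) :
    2 * cv (p t) (g t) n ≤ ((n : ℝ) + 1) * g t (n + 1) := by
  have h := q_rec n
  have h0 := u_nonneg 3 n
  unfold dv at h
  have e : ((n : ℝ) + 1) * g t (n + 1) = (((n : ℝ) + 1) * q (n + 1)) * t ^ (n + 3) := by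
    unfold g; ring
  rw [e, h, ← cv_p_g]
  have : 0 ≤ u 3 n * t ^ (n + 3) := by positivity
  linarith

theorem lower_ind {t α : ℝ} {J N : ℕ} (hJN : 2 * J + 1 ≤ N) (ht : 0 < t)
    (ha : ∀ i, J < i → i ≤ N → 1 ≤ p t i) (hb : ∀ i, J < i → i ≤ N → (i : ℝ) + 1 - α ≤ g t i)
    (hd : α + 2 * J + 2 ≤ 2 * ∑ j ∈ range (J + 1), p t j)
    (he : 0 ≤ ((N : ℝ) + 1) * (2 * (∑ j ∈ range (J + 1), p t j) - α - (2 * J + 2)) -
      2 * α * (∑ j ∈ range (J + 1), p t j) - 2 * (∑ j ∈ range (J + 1), (j : ℝ) * p t j) +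
      2 * (∑ j ∈ range (J + 1), g t j) - (2 * J + 2) * (1 - 2 * α)) :
    ∀ i, J < i → 1 ≤ p t i ∧ (i : ℝ) + 1 - α ≤ g t i := by
  set Ep := ∑ j ∈ range (J + 1), p t j with hEp
  set Ep1 := ∑ j ∈ range (J + 1), (j : ℝ) * p t j with hEp1
  set Eg := ∑ j ∈ range (J + 1), g t j with hEg
  intro i
  induction i using Nat.strong_induction_on with
  | _ i ih =>
    intro hi
    rcases Nat.lt_or_ge N i with hN | hN
    swap
    · exact ⟨ha i hi hN, hb i hi hN⟩
    obtain ⟨n, rfl⟩ : ∃ n, i = n + 1 := ⟨i - 1, by omega⟩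
    have hn : N ≤ n := by omega
    have hn2 : 2 * J + 1 ≤ n := by omega
    have hnR : (N : ℝ) ≤ n := by exact_mod_cast hn
    have hp0 := p_nonneg ht
    have hg0 := g_nonneg ht
    have hpos : (0 : ℝ) < (n : ℝ) + 1 := by positivity
    have hcard : ((n - J - (J + 1) : ℕ) : ℝ) = (n : ℝ) - 2 * J - 1 := by
      rw [Nat.cast_sub (by omega), Nat.cast_sub (by omega)]; push_cast; ring
    -- convolution p p
    have hpp : 2 * Ep + ((n : ℝ) - 2 * J - 1) ≤ cv (p t) (p t) n := by
      rw [cv_range, sum_split _ hn2]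
      have h1 : Ep ≤ ∑ j ∈ range (J + 1), p t j * p t (n - j) := by
        refine Finset.sum_le_sum fun j hj => ?_
        rw [Finset.mem_range] at hj
        exact le_mul_of_one_le_right (hp0 j) (ih (n - j) (by omega) (by omega)).1
      have h2 : Ep ≤ ∑ i ∈ range (J + 1), p t (n - i) * p t (n - (n - i)) := by
        refine Finset.sum_le_sum fun j hj => ?_
        rw [Finset.mem_range] at hj
        have e : n - (n - j) = j := by omega
        rw [e]
        exact le_mul_of_one_le_left (hp0 j) (ih (n - j) (by omega) (by omega)).1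
      have h3 : ((n : ℝ) - 2 * J - 1) ≤ ∑ j ∈ Ico (J + 1) (n - J), p t j * p t (n - j) := by
        have : ∑ j ∈ Ico (J + 1) (n - J), (1 : ℝ) = (n : ℝ) - 2 * J - 1 := by
          rw [Finset.sum_const, Nat.card_Ico, nsmul_eq_mul, mul_one, hcard]
        rw [← this]
        refine Finset.sum_le_sum fun j hj => ?_
        rw [Finset.mem_Ico] at hj
        have g1 := (ih j (by omega) (by omega)).1
        have g2 := (ih (n - j) (by omega) (by omega)).1
        nlinarith
      linarith
    have hgn := (ih n (by omega) (by omega)).2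
    have hpn := (ih n (by omega) (by omega)).1
    constructor
    · have h1 := p_rec_ge ht n
      have h2 : ((n : ℝ) + 1) * 1 ≤ ((n : ℝ) + 1) * p t (n + 1) := by
        have h3 : t * 1 ≤ t * p t n := by gcongr
        linarith
      exact le_of_mul_le_mul_left h2 hpos
    · -- convolution p g
      have hpg : ((n : ℝ) + 1 - α) * Ep - Ep1 + Eg +
          ((n : ℝ) - 2 * J - 1) * (((n : ℝ) + 2) / 2 - α) ≤ cv (p t) (g t) n := by
        rw [cv_range, sum_split _ hn2]
        have h1 : ((n : ℝ) + 1 - α) * Ep - Ep1 ≤ ∑ j ∈ range (J + 1), p t j * g t (n - j) := by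
          have e : ((n : ℝ) + 1 - α) * Ep - Ep1 =
              ∑ j ∈ range (J + 1), p t j * ((n : ℝ) - j + 1 - α) := by
            rw [hEp, hEp1, Finset.mul_sum, ← Finset.sum_sub_distrib]
            exact Finset.sum_congr rfl fun j _ => by ring
          rw [e]
          refine Finset.sum_le_sum fun j hj => ?_
          rw [Finset.mem_range] at hj
          have g1 := (ih (n - j) (by omega) (by omega)).2
          rw [Nat.cast_sub (by omega)] at g1
          exact mul_le_mul_of_nonneg_left g1 (hp0 j)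
        have h2 : Eg ≤ ∑ i ∈ range (J + 1), p t (n - i) * g t (n - (n - i)) := by
          refine Finset.sum_le_sum fun j hj => ?_
          rw [Finset.mem_range] at hj
          have e : n - (n - j) = j := by omega
          rw [e]
          exact le_mul_of_one_le_left (hg0 j) (ih (n - j) (by omega) (by omega)).1
        have h3 : ((n : ℝ) - 2 * J - 1) * (((n : ℝ) + 2) / 2 - α) ≤
            ∑ j ∈ Ico (J + 1) (n - J), p t j * g t (n - j) := by
          have e : ((n : ℝ) - 2 * J - 1) * (((n : ℝ) + 2) / 2 - α) =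
              ∑ j ∈ Ico (J + 1) (n - J), ((n : ℝ) - j + 1 - α) := by
            rw [Finset.sum_Ico_eq_sum_range]
            have e1 : ∀ m : ℕ, ∑ k ∈ range m, ((n : ℝ) - ((J + 1 + k : ℕ) : ℝ) + 1 - α) =
                (m : ℝ) * ((n : ℝ) - J - α) - (m : ℝ) * (m - 1) / 2 := by
              intro m
              induction m with
              | zero => simp
              | succ m ihm =>
                rw [Finset.sum_range_succ, ihm]
                push_cast
                ring
            rw [e1, hcard]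
            ring
          rw [e]
          refine Finset.sum_le_sum fun j hj => ?_
          rw [Finset.mem_Ico] at hj
          have g1 := (ih (n - j) (by omega) (by omega)).2
          have g2 := (ih j (by omega) (by omega)).1
          rw [Nat.cast_sub (by omega)] at g1
          have g3 := le_mul_of_one_le_left (hg0 (n - j)) g2
          linarith
        linarith
      have h1 := g_rec_ge ht n
      have h2 : ((n : ℝ) + 1) * (((n + 1 : ℕ) : ℝ) + 1 - α) ≤ ((n : ℝ) + 1) * g t (n + 1) := by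
        push_cast
        have h3 : 0 ≤ ((n : ℝ) - N) * (2 * Ep - α - (2 * J + 2)) :=
          mul_nonneg (by linarith) (by linarith)
        nlinarith
      exact le_of_mul_le_mul_left h2 hpos

theorem upper_ind {t : ℝ} {J N : ℕ} (hJN : 2 * J + 1 ≤ N) (ht : 0 < t)
    (ha : ∀ i, J < i → i ≤ N → p t i ≤ 1)
    (hc : t + 2 * ∑ j ∈ range (J + 1), p t j ≤ 2 * J + 2) : ∀ i, J < i → p t i ≤ 1 := by
  set Ep := ∑ j ∈ range (J + 1), p t j with hEp
  intro i
  induction i using Nat.strong_induction_on with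
  | _ i ih =>
    intro hi
    rcases Nat.lt_or_ge N i with hN | hN
    swap
    · exact ha i hi hN
    obtain ⟨n, rfl⟩ : ∃ n, i = n + 1 := ⟨i - 1, by omega⟩
    have hn2 : 2 * J + 1 ≤ n := by omega
    have hp0 := p_nonneg ht
    have hpos : (0 : ℝ) < (n : ℝ) + 1 := by positivity
    have hcard : ((n - J - (J + 1) : ℕ) : ℝ) = (n : ℝ) - 2 * J - 1 := by
      rw [Nat.cast_sub (by omega), Nat.cast_sub (by omega)]; push_cast; ring
    have hpp : cv (p t) (p t) n ≤ 2 * Ep + ((n : ℝ) - 2 * J - 1) := by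
      rw [cv_range, sum_split _ hn2]
      have h1 : ∑ j ∈ range (J + 1), p t j * p t (n - j) ≤ Ep := by
        refine Finset.sum_le_sum fun j hj => ?_
        rw [Finset.mem_range] at hj
        exact mul_le_of_le_one_right (hp0 j) (ih (n - j) (by omega) (by omega))
      have h2 : ∑ i ∈ range (J + 1), p t (n - i) * p t (n - (n - i)) ≤ Ep := by
        refine Finset.sum_le_sum fun j hj => ?_
        rw [Finset.mem_range] at hj
        have e : n - (n - j) = j := by omega
        rw [e]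
        exact mul_le_of_le_one_left (hp0 j) (ih (n - j) (by omega) (by omega))
      have h3 : ∑ j ∈ Ico (J + 1) (n - J), p t j * p t (n - j) ≤ ((n : ℝ) - 2 * J - 1) := by
        have : ∑ j ∈ Ico (J + 1) (n - J), (1 : ℝ) = (n : ℝ) - 2 * J - 1 := by
          rw [Finset.sum_const, Nat.card_Ico, nsmul_eq_mul, mul_one, hcard]
        rw [← this]
        refine Finset.sum_le_sum fun j hj => ?_
        rw [Finset.mem_Ico] at hj
        have g1 := ih j (by omega) (by omega)
        have g2 := ih (n - j) (by omega) (by omega)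
        exact mul_le_one₀ g1 (hp0 _) g2
      linarith
    have hpn := ih n (by omega) (by omega)
    have h1 := p_rec_le ht (n := n) (by omega)
    have h2 : ((n : ℝ) + 1) * p t (n + 1) ≤ ((n : ℝ) + 1) * 1 := by
      have h3 : t * p t n ≤ t * 1 := by gcongr
      linarith
    exact le_of_mul_le_mul_left h2 hpos

theorem rho_le_of {t : ℝ} {J : ℕ} (ht : 0 < t) (h : ∀ i, J < i → 1 ≤ p t i) : rho ≤ t := by
  by_contra hc
  push Not at hc
  have h1 := Sm_u_one t ht.le hc
  have h2 := h1.tendsto_atTop_zero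
  have h3 : ∀ᶠ n in Filter.atTop, 1 / t ≤ ‖u 1 n‖ * t ^ n := by
    filter_upwards [Filter.eventually_gt_atTop J] with n hn
    have h4 := h n hn
    unfold p at h4
    rw [Real.norm_of_nonneg (u_nonneg 1 n), div_le_iff₀ ht]
    calc (1 : ℝ) ≤ u 1 n * t ^ (n + 1) := h4
      _ = u 1 n * t ^ n * t := by ring
  have h4 := ge_of_tendsto h2 h3
  have : 0 < 1 / t := by positivity
  linarith

theorem le_rho_of {t : ℝ} {J : ℕ} (ht : 0 < t) (h : ∀ i, J < i → p t i ≤ 1) : t ≤ rho := by
  refine le_of_forall_lt fun r hr => ?_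
  obtain ⟨r', h1, h2⟩ := exists_between (max_lt hr ht)
  have hr0 : 0 < r' := lt_of_le_of_lt (le_max_right _ _) h1
  refine lt_of_lt_of_le (lt_of_le_of_lt (le_max_left _ _) h1) (le_rho hr0.le ?_)
  have hq : ‖r' / t‖ < 1 := by
    rw [Real.norm_of_nonneg (by positivity), div_lt_one ht]; exact h2
  have hg := (summable_geometric_of_norm_lt_one hq).mul_left (1 / t)
  rw [← summable_nat_add_iff (J + 1)]
  have hg' := (summable_nat_add_iff (J + 1)).2 hg
  have key : ∀ m, J < m → cc m * r' ^ m ≤ 1 / t * (r' / t) ^ m := by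
    intro m hm
    have h4 := h m hm
    unfold p at h4
    obtain ⟨m', rfl⟩ : ∃ m', m = m' + 1 := ⟨m - 1, by omega⟩
    have e : cc (m' + 1) = u 1 (m' + 1) := by rw [cc_eq, u_zero_succ, zero_add]
    have h5 : 1 / t * (r' / t) ^ (m' + 1) = r' ^ (m' + 1) / t ^ (m' + 1 + 1) := by
      rw [div_pow, pow_succ t (m' + 1)]
      field_simp
    rw [e, h5, le_div_iff₀ (by positivity)]
    calc u 1 (m' + 1) * r' ^ (m' + 1) * t ^ (m' + 1 + 1)
        = (u 1 (m' + 1) * t ^ (m' + 1 + 1)) * r' ^ (m' + 1) := by ring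
      _ ≤ 1 * r' ^ (m' + 1) := by gcongr
      _ = r' ^ (m' + 1) := one_mul _
  exact Summable.of_nonneg_of_le (fun n => mul_nonneg (cc_nonneg _) (by positivity))
    (fun n => key _ (by omega)) hg'

end Pool.Agent.T6.H85.Srtd
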