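import Mathlib
import Pool.Agent.T6.H85.Srtd.Blow

/-!
# Evaluation of the triangular recurrence
-/

set_option autoImplicit false

namespace Pool.Agent.T6.H85.Srtd.Tab

open Finset Pool.Agent.T6.H85.Srtd

/-- auxiliary -/
def dot3 : List ℕ → List ℕ → List ℕ → ℕ
  | c :: cs, a :: as, r :: rs => c * a * r + dot3 cs as rs
  | _, _, _ => 0

/-- auxiliary -/
def addl : List ℕ → List ℕ → List ℕ
  | a :: as, b :: bs => (a + b) :: addl as bs
  | _, _ => []

/-- state -/
structure St where
  Rs : List ℕ
  as : List ℕ
  row : List ℕ

/-- one step -/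
def step (b : ℕ) (s : St) : St :=
  let T := dot3 s.row s.as s.Rs
  let Rn := s.Rs.headD 0
  let R' := (b + 1) * T - Rn - Rn / b
  ⟨R' :: s.Rs, s.as ++ [R' / b % b], addl (0 :: s.row) (s.row ++ [0])⟩

/-- iteration -/
def iter (b : ℕ) : ℕ → St
  | 0 => ⟨[b, 1], [1, 1], [1, 1]⟩
  | n + 1 => step b (iter b n)

/-- packed rows -/
noncomputable def RR (b n : ℕ) : ℕ := ∑ k ∈ range (n + 1), xx k n * b ^ k

theorem RR_ext (b n M : ℕ) (h : n + 1 ≤ M) : ∑ k ∈ range M, xx k n * b ^ k = RR b n := by
  unfold RR
  symm
  refine Finset.sum_subset (Finset.range_subset_range.2 h) ?_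
  intro k _ hk
  rw [Finset.mem_range] at hk
  rw [xx_eq_zero (by omega), zero_mul]

/-- second packed row -/
noncomputable def VV (b n : ℕ) : ℕ := ∑ k ∈ range (n + 1), xx (k + 1) n * b ^ k

/-- third packed row -/
noncomputable def WW (b n : ℕ) : ℕ := ∑ k ∈ range (n + 1), xx (k + 2) n * b ^ k

theorem RR_eq (b n : ℕ) : RR b n = xx 0 n + b * VV b n := by
  rw [← RR_ext b n (n + 2) (by omega), Finset.sum_range_succ']
  unfold VV
  rw [Finset.mul_sum, add_comm]
  congr 1
  · simp
  · refine Finset.sum_congr rfl fun k _ => ?_
    ring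

theorem VV_eq (b n : ℕ) : VV b n = xx 1 n + b * WW b n := by
  have h : VV b n = ∑ k ∈ range (n + 2), xx (k + 1) n * b ^ k := by
    unfold VV
    rw [Finset.sum_range_succ _ (n + 1), xx_eq_zero (show n < n + 1 + 1 by omega)]
    simp
  rw [h, Finset.sum_range_succ']
  unfold WW
  rw [Finset.mul_sum, add_comm]
  congr 1
  · simp
  · refine Finset.sum_congr rfl fun k _ => ?_
    ring

/-- convolution -/
noncomputable def TT (b n : ℕ) : ℕ := ∑ j ∈ range (n + 1), n.choose j * aa j * RR b (n - j)

theorem RR_rec (b n : ℕ) (hn : 1 ≤ n) :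
    RR b (n + 1) + RR b n + VV b n = (b + 1) * TT b n := by
  obtain ⟨n, rfl⟩ : ∃ m, n = m + 1 := ⟨n - 1, by omega⟩
  set N := n + 1 with hN
  have h := fun k => xx_rec k N
  have hsum : ∑ k ∈ range (N + 1), b ^ (k + 1) * (xx (k + 1) (N + 1) + xx (k + 1) N + xx (k + 2) N) =
      ∑ k ∈ range (N + 1), b ^ (k + 1) * (∑ j ∈ range (N + 1), N.choose j * (aa j * xx k (N - j)) +
        ∑ j ∈ range (N + 1), N.choose j * (aa j * xx (k + 1) (N - j))) :=
    Finset.sum_congr rfl fun k _ => by rw [h k]
  have e1 : ∑ k ∈ range (N + 1), b ^ (k + 1) * (xx (k + 1) (N + 1) + xx (k + 1) N + xx (k + 2) N) =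
      RR b (N + 1) + RR b N + b * WW b N := by
    simp only [mul_add, Finset.sum_add_distrib]
    congr 1
    · congr 1
      · rw [RR_eq, xx_zero_succ, zero_add]
        have : VV b (N + 1) = ∑ k ∈ range (N + 1), xx (k + 1) (N + 1) * b ^ k := by
          unfold VV
          rw [Finset.sum_range_succ _ (N + 1), xx_eq_zero (show N + 1 < N + 1 + 1 by omega)]
          simp
        rw [this, Finset.mul_sum]
        exact Finset.sum_congr rfl fun k _ => by ring
      · rw [RR_eq, hN, xx_zero_succ, zero_add, ← hN]
        unfold VV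
        rw [Finset.mul_sum]
        exact Finset.sum_congr rfl fun k _ => by ring
    · unfold WW
      rw [Finset.mul_sum]
      exact Finset.sum_congr rfl fun k _ => by ring
  have e2 : ∑ k ∈ range (N + 1), b ^ (k + 1) * (∑ j ∈ range (N + 1), N.choose j * (aa j * xx k (N - j)) +
        ∑ j ∈ range (N + 1), N.choose j * (aa j * xx (k + 1) (N - j))) + aa N =
      (b + 1) * TT b N := by
    simp only [mul_add, Finset.sum_add_distrib]
    have e3 : ∑ k ∈ range (N + 1), b ^ (k + 1) * ∑ j ∈ range (N + 1), N.choose j * (aa j * xx k (N - j)) =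
        b * TT b N := by
      simp only [Finset.mul_sum]
      rw [Finset.sum_comm]
      unfold TT
      rw [Finset.mul_sum]
      refine Finset.sum_congr rfl fun j hj => ?_
      rw [← RR_ext b (N - j) (N + 1) (by omega), Finset.mul_sum, Finset.mul_sum]
      exact Finset.sum_congr rfl fun k _ => by ring
    have e4 : ∑ k ∈ range (N + 1), b ^ (k + 1) * ∑ j ∈ range (N + 1),
        N.choose j * (aa j * xx (k + 1) (N - j)) + aa N = TT b N := by
      have e5 : ∀ j ∈ range (N + 1), N.choose j * aa j * RR b (N - j) =
          N.choose j * aa j * (b * VV b (N - j)) + (if j = N then aa N else 0) := by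
        intro j hj
        rw [Finset.mem_range] at hj
        rw [RR_eq, mul_add, add_comm]
        congr 1
        by_cases hjN : j = N
        · subst hjN
          simp [xx_zero_zero]
        · obtain ⟨m, hm⟩ : ∃ m, N - j = m + 1 := ⟨N - j - 1, by omega⟩
          rw [hm, xx_zero_succ, if_neg hjN, mul_zero]
      unfold TT
      rw [Finset.sum_congr rfl e5, Finset.sum_add_distrib, Finset.sum_ite_eq' (range (N + 1)) N,
        if_pos (Finset.mem_range.2 (by omega))]
      congr 1
      simp only [Finset.mul_sum]
      rw [Finset.sum_comm]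
      refine Finset.sum_congr rfl fun j hj => ?_
      have : VV b (N - j) = ∑ k ∈ range (N + 1), xx (k + 1) (N - j) * b ^ k := by
        unfold VV
        refine Finset.sum_subset (Finset.range_subset_range.2 (by omega)) ?_
        intro k _ hk
        rw [Finset.mem_range] at hk
        rw [xx_eq_zero (by omega), zero_mul]
      rw [this, Finset.mul_sum, Finset.mul_sum]
      exact Finset.sum_congr rfl fun k _ => by ring
    rw [e3, add_assoc, e4]
    ring
  have hx : xx 1 N = aa N := xx_one n
  have := VV_eq b N
  rw [hx] at this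
  rw [hsum] at e1
  omega

/-! ### A bound for the entries -/

theorem u_bound (n : ℕ) : ∀ k, u k n ≤ 4 ^ n := by
  induction n using Nat.strong_induction_on with
  | _ n ih =>
    intro k
    cases n with
    | zero =>
      cases k with
      | zero => rw [u_zero_zero]; norm_num
      | succ k => rw [u_succ_zero]; norm_num
    | succ n =>
      cases k with
      | zero => rw [u_zero_succ]; positivity
      | succ k =>
        have h := u_rec k n
        have hc : ∀ k, cv cc (u k) n ≤ ((n : ℝ) + 1) * 4 ^ n := by
          intro k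
          unfold cv
          calc ∑ p ∈ antidiagonal n, cc p.1 * u k p.2 ≤ ∑ p ∈ antidiagonal n, (4 : ℝ) ^ n := by
                refine Finset.sum_le_sum fun p hp => ?_
                have hp' := Finset.HasAntidiagonal.mem_antidiagonal.1 hp
                calc cc p.1 * u k p.2 ≤ 1 * 4 ^ p.2 :=
                      mul_le_mul (cc_le_one _) (ih _ (by omega) k) (u_nonneg _ _) (by norm_num)
                  _ ≤ 4 ^ n := by
                      rw [one_mul]
                      exact pow_le_pow_right₀ (by norm_num) (by omega)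
            _ = ((n : ℝ) + 1) * 4 ^ n := by
                rw [Finset.sum_const, Finset.Nat.card_antidiagonal]; simp
        have h1 := hc k
        have h2 := hc (k + 1)
        have h3 := u_nonneg (k + 1) n
        have h4 := u_nonneg (k + 2) n
        unfold dv at h
        have h5 : ((n : ℝ) + 1) * u (k + 1) (n + 1) ≤ ((n : ℝ) + 1) * (4 ^ (n + 1)) := by
          rw [pow_succ]
          have : (0 : ℝ) ≤ ((n : ℝ) + 1) * 4 ^ n := by positivity
          linarith
        exact le_of_mul_le_mul_left h5 (by positivity)

theorem xx_bound (k n : ℕ) : xx k n ≤ 4 ^ n * n.factorial := by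
  have h := u_bound n k
  unfold u at h
  rw [div_le_iff₀ (by positivity)] at h
  exact_mod_cast h

/-! ### Correctness of the iteration -/

theorem dot3_map (f g h : ℕ → ℕ) (l : List ℕ) :
    dot3 (l.map f) (l.map g) (l.map h) = (l.map (fun i => f i * g i * h i)).sum := by
  induction l with
  | nil => simp [dot3]
  | cons a l ih => simp [dot3, ih]

theorem addl_getElem? : ∀ (l m : List ℕ) (i : ℕ), (hl : i < l.length) → (hm : i < m.length) →
    (addl l m)[i]? = some (l[i] + m[i])
  | [], _, i, hl, _ => by simp at hl
  | _ :: _, [], i, _, hm => by simp at hm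
  | a :: l, b :: m, 0, _, _ => by simp [addl]
  | a :: l, b :: m, i + 1, hl, hm => by
    simp only [addl, List.getElem?_cons_succ, List.getElem_cons_succ]
    exact addl_getElem? l m i (by simpa using hl) (by simpa using hm)

theorem addl_length : ∀ (l m : List ℕ), l.length = m.length → (addl l m).length = l.length
  | [], [], _ => by simp [addl]
  | [], _ :: _, h => by simp at h
  | _ :: _, [], h => by simp at h
  | a :: l, b :: m, h => by
    simp only [addl, List.length_cons]
    rw [addl_length l m (by simpa using h)]

theorem pascal (n : ℕ) : addl (0 :: (List.range (n + 1)).map (fun i => n.choose i))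
    ((List.range (n + 1)).map (fun i => n.choose i) ++ [0]) =
    (List.range (n + 2)).map (fun i => (n + 1).choose i) := by
  apply List.ext_getElem?
  intro i
  rcases Nat.lt_or_ge i (n + 2) with hi | hi
  · rw [addl_getElem? _ _ i (by simp; omega) (by simp; omega)]
    rw [List.getElem?_map, List.getElem?_range hi, Option.map_some]
    congr 1
    cases i with
    | zero => simp
    | succ i =>
      rw [List.getElem_cons_succ, List.getElem_map, List.getElem_range, Nat.choose_succ_succ]
      rcases Nat.lt_or_ge (i + 1) (n + 1) with h2 | h2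
      · rw [List.getElem_append_left (by simpa using h2)]
        simp
      · have h3 : i = n := by omega
        subst h3
        rw [List.getElem_append_right (by simp)]
        simp
  · rw [List.getElem?_eq_none, List.getElem?_eq_none]
    · simp; omega
    · rw [addl_length _ _ (by simp)]; simp; omega

theorem iter_spec (b N : ℕ) (hb : 4 ^ (N + 1) * (N + 1).factorial < b) : ∀ n ≤ N,
    iter b n = ⟨(List.range (n + 2)).map (fun i => RR b (n + 1 - i)), (List.range (n + 2)).map aa,
      (List.range (n + 2)).map (fun i => (n + 1).choose i)⟩ := by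
  have hb0 : 0 < b := by omega
  intro n
  induction n with
  | zero =>
    intro _
    have h1 : RR b 1 = b := by
      unfold RR
      have hx : xx 1 1 = 1 := by
        have := xx_rec 0 0
        rw [xx_succ_zero, xx_succ_zero] at this
        simpa [aa_zero, xx_zero_zero, xx_succ_zero] using this
      simp [Finset.sum_range_succ, xx_zero_succ, hx]
    have h0 : RR b 0 = 1 := by unfold RR; simp [xx_zero_zero]
    have ha : aa 1 = 1 := by
      have h2 := xx_rec 0 0
      rw [xx_succ_zero, xx_succ_zero] at h2
      rw [← xx_one]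
      simpa [aa_zero, xx_zero_zero, xx_succ_zero] using h2
    simp [iter, List.range_succ, h1, h0, aa_zero, ha]
  | succ n ih =>
    intro hn
    have ih' := ih (by omega)
    have hfac : ∀ i ≤ N + 1, ∀ k, xx k i < b := by
      intro i hi k
      refine lt_of_le_of_lt (xx_bound k i) (lt_of_le_of_lt ?_ hb)
      exact Nat.mul_le_mul (Nat.pow_le_pow_right (by norm_num) hi) (Nat.factorial_le hi)
    have hdot : dot3 (iter b n).row (iter b n).as (iter b n).Rs = TT b (n + 1) := by
      rw [ih']
      rw [dot3_map]
      unfold TT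
      rw [Finset.sum_range, ← List.sum_ofFn]
      congr 1
      apply List.ext_getElem
      · simp
      · intro i h1 h2
        simp only [List.getElem_map, List.getElem_range, List.getElem_ofFn]
    have hhead : (iter b n).Rs.headD 0 = RR b (n + 1) := by
      rw [ih']
      simp [List.range_succ_eq_map]
    have hV : RR b (n + 1) / b = VV b (n + 1) := by
      rw [RR_eq, xx_zero_succ, zero_add, Nat.mul_div_cancel_left _ hb0]
    have hR' : (b + 1) * TT b (n + 1) - RR b (n + 1) - RR b (n + 1) / b = RR b (n + 2) := by
      have h9 : RR b (n + 2) + RR b (n + 1) + VV b (n + 1) = (b + 1) * TT b (n + 1) :=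
        RR_rec b (n + 1) (by omega)
      rw [hV]
      omega
    have ha' : RR b (n + 2) / b % b = aa (n + 2) := by
      rw [RR_eq, xx_zero_succ, zero_add, Nat.mul_div_cancel_left _ hb0, VV_eq,
        Nat.add_mul_mod_self_left, Nat.mod_eq_of_lt (hfac (n + 2) (by omega) 1), xx_one]
    have hstep : iter b (n + 1) = step b (iter b n) := rfl
    rw [hstep]
    unfold step
    simp only [hdot, hhead, hR', ha']
    rw [ih']
    simp only [St.mk.injEq]
    refine ⟨?_, ?_, pascal (n + 1)⟩
    · rw [List.range_succ_eq_map (n := n + 1 + 1)]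
      simp only [List.map_cons, List.map_map]
      congr 1
      apply List.map_congr_left
      intro i hi
      rw [List.mem_range] at hi
      simp only [Function.comp]
      congr 1
      omega
    · rw [List.range_succ (n := n + 1 + 1)]
      simp

theorem digit_two (b n : ℕ) (hb0 : 0 < b) (h1 : xx 1 (n + 1) < b) (h2 : xx 2 (n + 1) < b) :
    RR b (n + 1) / b / b % b = xx 2 (n + 1) := by
  have hW : WW b (n + 1) = xx 2 (n + 1) + b * ∑ k ∈ range (n + 1), xx (k + 3) (n + 1) * b ^ k := by
    unfold WW
    rw [Finset.sum_range_succ', Finset.mul_sum, add_comm]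
    congr 1
    · simp
    · exact Finset.sum_congr rfl fun k _ => by ring
  rw [RR_eq, xx_zero_succ, zero_add, Nat.mul_div_cancel_left _ hb0, VV_eq,
    Nat.add_mul_div_left _ _ hb0, Nat.div_eq_of_lt h1, zero_add, hW, Nat.add_mul_mod_self_left,
    Nat.mod_eq_of_lt h2]

end Pool.Agent.T6.H85.Srtd.Tab
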